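import Pool.Agent.W_04c03c_h62s.SHalf

/-!
# The rank of the restriction to cusps
-/

namespace Q62

open MulAction

/-- The dimension of the space of all restrictions of crossed homomorphisms `Γ → F_χ` to the
stabilizers of the points `x i`. -/
noncomputable def resRank {Γ : Type} [Group Γ] {Ξ : Type} [MulAction Γ Ξ] {F : Type} [Field F]
    (χ : Γ →* Fˣ) {I : Type} (x : I → Ξ) : ℕ :=
  Module.finrank F ((XHom χ).map
    (LinearMap.funLeft F F fun k : Σ i, stabilizer Γ (x i) => (k.2 : Γ)))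

/-- The dimension of the space of families of homomorphisms from the stabilizers of the points
`x i` to `F`. -/
noncomputable def homRank (Γ : Type) [Group Γ] {Ξ : Type} [MulAction Γ Ξ] (F : Type) [Field F]
    {I : Type} (x : I → Ξ) : ℕ :=
  Module.finrank F (∀ i, Additive (stabilizer Γ (x i)) →+ F)

theorem resRank_eq {Γ : Type} [Group Γ] {Ξ : Type} [MulAction Γ Ξ] {F : Type} [Field F]
    (χ : Γ →* Fˣ) {I : Type} (x : I → Ξ) (hχ : ∀ i, ∀ k ∈ stabilizer Γ (x i), χ k = 1) :
    Module.finrank F (LinearMap.range (resX χ x hχ)) = resRank χ x := by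
  let E : (∀ i, Additive (stabilizer Γ (x i)) →+ F) →ₗ[F] ((Σ i, stabilizer Γ (x i)) → F) :=
    { toFun := fun u k => u k.1 (Additive.ofMul k.2)
      map_add' := fun _ _ => rfl
      map_smul' := fun _ _ => rfl }
  have hE : Function.Injective E := by
    intro u v huv
    funext i
    refine AddMonoidHom.ext fun k => ?_
    exact congrFun huv ⟨i, k.toMul⟩
  have h1 : (XHom χ).map (LinearMap.funLeft F F fun k : Σ i, stabilizer Γ (x i) => (k.2 : Γ)) =
      (LinearMap.range (resX χ x hχ)).map E := by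
    ext v
    constructor
    · rintro ⟨d, hd, rfl⟩
      exact ⟨resX χ x hχ ⟨d, hd⟩, ⟨⟨d, hd⟩, rfl⟩, rfl⟩
    · rintro ⟨-, ⟨d, rfl⟩, rfl⟩
      exact ⟨d.1, d.2, rfl⟩
  unfold resRank
  rw [h1]
  exact (LinearEquiv.finrank_eq (Submodule.equivMapOfInjective E hE _))

section
variable {G : Type} [Group G] {Ξ S0 S1 S2 : Type} [MulAction G Ξ] [MulAction G S0]
    [MulAction G S1] [MulAction G S2]

/-- At least half of the cohomology of the cusps extends. -/
theorem PD.half' (P : PD G Ξ S0 S1 S2) (Γ : Subgroup G) (F : Type) [Field F] (χ : Γ →* Fˣ)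
    (I : Type) [Finite I] (x : I → Ξ)
    (hx : ∀ i, (Γ.subgroupOf (stabilizer G (x i))).FiniteIndex)
    (hne : ∀ i j, i ≠ j → x i ∉ orbit Γ (x j))
    (hχ : ∀ i, ∀ k ∈ stabilizer Γ (x i), χ k = 1) :
    homRank Γ F x ≤ resRank χ x + resRank (χ⁻¹ * P.orF Γ F) x := by
  rw [← resRank_eq χ x hχ, ← resRank_eq (χ⁻¹ * P.orF Γ F) x (P.orF_stab Γ hχ)]
  unfold homRank
  by_cases h : FiniteDimensional F (∀ i, Additive (stabilizer Γ (x i)) →+ F)
  · exact P.half Γ F χ x hx hne hχ
  · rw [Module.finrank_of_not_finite h]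
    exact Nat.zero_le _

end

end Q62
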