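import Pool.Agent.W_04c03c_h62.Pull

/-!
# Duality data for subgroups of arbitrary index: definitions

All types are in `Type`.
-/

namespace Q62

open MulAction

/-- The data which a Poincare duality pair `(G, Ξ)` of dimension 3 (in cells) gives for a subgroup
`Γ` of `G` of arbitrary index: the same cells and matrices, now with a free action of `Γ`. -/
structure WPD (Γ : Type) [Group Γ] (Ξ S0 S1 S2 : Type) [MulAction Γ Ξ] [MulAction Γ S0]
    [MulAction Γ S1] [MulAction Γ S2] where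
  D1 : IMat Γ S1 S0
  D2 : IMat Γ S2 S1
  eta : S2 → Ξ →₀ ℤ
  w : Ξ → ℤˣ
  eps : Γ →* ℤˣ
  free0 : ∀ (g : Γ) (s : S0), g • s = s → g = 1
  free1 : ∀ (g : Γ) (s : S1), g • s = s → g = 1
  free2 : ∀ (g : Γ) (s : S2), g • s = s → g = 1
  eta_inv : ∀ (g : Γ) (s : S2) (ξ : Ξ), eta (g • s) (g • ξ) = eta s ξ
  w_inv : ∀ (g : Γ) (ξ : Ξ), w (g • ξ) = eps g * w ξ
  ne0 : Nonempty S0
  ex1 : LinearMap.ker D1.rowMap = LinearMap.range D2.rowMap
  ex0 : LinearMap.range D1.rowMap = LinearMap.ker (waug fun _ : S0 => 1)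
  ex1' : LinearMap.ker D2.colMap = LinearMap.range D1.colMap
  ex2' : LinearMap.ker (Finsupp.linearCombination ℤ eta) = LinearMap.range D2.colMap
  ex3' : LinearMap.range (Finsupp.linearCombination ℤ eta) = LinearMap.ker (waug fun ξ => (w ξ : ℤ))

/-- The point `ξ` is full: the cells `s` with `eta s ξ ≠ 0` are finite in number modulo the
stabilizer of `ξ`. -/
def WPD.Full {Γ : Type} [Group Γ] {Ξ S0 S1 S2 : Type} [MulAction Γ Ξ] [MulAction Γ S0]
    [MulAction Γ S1] [MulAction Γ S2] (P : WPD Γ Ξ S0 S1 S2) (ξ : Ξ) : Prop :=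
  ∃ t : Finset S2, ∀ s : S2, P.eta s ξ ≠ 0 → ∃ g ∈ stabilizer Γ ξ, ∃ s' ∈ t, s = g • s'

/-- The support of `u` is finite modulo `Γ`. -/
def GFin (Γ : Type) [Group Γ] {S F : Type} [MulAction Γ S] [Field F] (u : S → F) : Prop :=
  ∃ t : Finset S, ∀ s, u s ≠ 0 → ∃ g : Γ, ∃ s' ∈ t, s = g • s'

/-- The pairing of two functions: the sum over representatives of the orbits. -/
noncomputable def pair (Γ : Type) [Group Γ] {S F : Type} [MulAction Γ S] [Field F]
    (u v : S → F) : F :=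
  ∑ᶠ q : orbitRel.Quotient Γ S, u q.out * v q.out

/-- Crossed homomorphisms. -/
def XHom {Γ : Type} [Group Γ] {F : Type} [Field F] (χ : Γ →* Fˣ) : Submodule F (Γ → F) where
  carrier := {d | ∀ g h, d (g * h) = d g + (χ g : F) * d h}
  add_mem' := by
    intro a b ha hb g h
    simp only [Pi.add_apply]
    rw [ha, hb]
    ring
  zero_mem' := by
    intro g h
    simp
  smul_mem' := by
    intro c a ha g h
    simp only [Pi.smul_apply, smul_eq_mul]
    rw [ha]
    ring

theorem mem_XHom {Γ : Type} [Group Γ] {F : Type} [Field F] {χ : Γ →* Fˣ} {d : Γ → F} :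
    d ∈ XHom χ ↔ ∀ g h, d (g * h) = d g + (χ g : F) * d h := Iff.rfl

/-- Principal crossed homomorphisms. -/
def Prin {Γ : Type} [Group Γ] {F : Type} [Field F] (χ : Γ →* Fˣ) : Submodule F (Γ → F) where
  carrier := {d | ∃ m : F, ∀ g, d g = ((χ g : F) - 1) * m}
  add_mem' := by
    rintro a b ⟨m, hm⟩ ⟨n, hn⟩
    refine ⟨m + n, fun g => ?_⟩
    simp only [Pi.add_apply]
    rw [hm, hn]
    ring
  zero_mem' := ⟨0, fun g => by simp⟩
  smul_mem' := by
    rintro c a ⟨m, hm⟩
    refine ⟨c * m, fun g => ?_⟩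
    simp only [Pi.smul_apply, smul_eq_mul]
    rw [hm]
    ring

theorem mem_Prin {Γ : Type} [Group Γ] {F : Type} [Field F] {χ : Γ →* Fˣ} {d : Γ → F} :
    d ∈ Prin χ ↔ ∃ m : F, ∀ g, d g = ((χ g : F) - 1) * m := Iff.rfl

section
variable {Γ : Type} [Group Γ] {Ξ S0 S1 S2 : Type} [MulAction Γ Ξ] [MulAction Γ S0]
    [MulAction Γ S1] [MulAction Γ S2] (P : WPD Γ Ξ S0 S1 S2)

/-- Restriction to a subgroup. -/
def WPD.res (N : Subgroup Γ) : WPD N Ξ S0 S1 S2 where
  D1 := { row := P.D1.row, col := P.D1.col, tr := P.D1.tr, inv := fun g s t => P.D1.inv (g : Γ) s t }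
  D2 := { row := P.D2.row, col := P.D2.col, tr := P.D2.tr, inv := fun g s t => P.D2.inv (g : Γ) s t }
  eta := P.eta
  w := P.w
  eps := P.eps.comp N.subtype
  free0 := fun g s h => Subtype.ext (P.free0 (g : Γ) s h)
  free1 := fun g s h => Subtype.ext (P.free1 (g : Γ) s h)
  free2 := fun g s h => Subtype.ext (P.free2 (g : Γ) s h)
  eta_inv := fun g s ξ => P.eta_inv (g : Γ) s ξ
  w_inv := fun g ξ => P.w_inv (g : Γ) ξ
  ne0 := P.ne0
  ex1 := P.ex1
  ex0 := P.ex0
  ex1' := P.ex1'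
  ex2' := P.ex2'
  ex3' := P.ex3'

end

/-- The data for a subgroup of `G` from the duality data of `(G, Ξ)`. -/
def PD.toWPD {G : Type} [Group G] {Ξ S0 S1 S2 : Type} [MulAction G Ξ] [MulAction G S0]
    [MulAction G S1] [MulAction G S2] (P : PD G Ξ S0 S1 S2) (Γ : Subgroup G) :
    WPD Γ Ξ S0 S1 S2 where
  D1 := { row := P.D1.row, col := P.D1.col, tr := P.D1.tr, inv := fun g s t => P.D1.inv (g : G) s t }
  D2 := { row := P.D2.row, col := P.D2.col, tr := P.D2.tr, inv := fun g s t => P.D2.inv (g : G) s t }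
  eta := P.eta
  w := P.w
  eps := P.eps.comp Γ.subtype
  free0 := fun g s h => Subtype.ext (P.free0.free (g : G) s h)
  free1 := fun g s h => Subtype.ext (P.free1.free (g : G) s h)
  free2 := fun g s h => Subtype.ext (P.free2.free (g : G) s h)
  eta_inv := fun g s ξ => P.eta_inv (g : G) s ξ
  w_inv := fun g ξ => P.w_inv (g : G) ξ
  ne0 := P.ne0
  ex1 := P.ex1
  ex0 := P.ex0
  ex1' := P.ex1'
  ex2' := P.ex2'
  ex3' := P.ex3'

/-- A partial Dehn filling: the group `Q` is the quotient of `Γ` by the normal subgroup generated by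
one element `R j` of the stabilizer (isomorphic to `ℤ²`) of each of finitely many inequivalent full
points `η j`. -/
structure Filled {Γ : Type} [Group Γ] {Ξ S0 S1 S2 : Type} [MulAction Γ Ξ] [MulAction Γ S0]
    [MulAction Γ S1] [MulAction Γ S2] (P : WPD Γ Ξ S0 S1 S2) (Q : Type) [Group Q] where
  J : Type
  fin : Finite J
  η : J → Ξ
  R : J → Γ
  π : Γ →* Q
  surj : Function.Surjective π
  ineq : ∀ j j', j ≠ j' → η j ∉ orbit Γ (η j')
  fix : ∀ j, R j • η j = η j
  full : ∀ j, P.Full (η j)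
  z2 : ∀ j, Nonempty (stabilizer Γ (η j) ≃* Multiplicative (ℤ × ℤ))
  ker : π.ker = Subgroup.normalClosure (Set.range R)

end Q62
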