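import Pool.Agent.W_04c03c_h62s.SDefs

/-!
# Restriction of crossed homomorphisms to stabilizers
-/

namespace Q62

open MulAction

/-- Restriction of crossed homomorphisms to the stabilizers of the points `x i`, on which the
character `χ` is trivial. -/
def resX {Γ : Type} [Group Γ] {Ξ : Type} [MulAction Γ Ξ] {F : Type} [Field F] (χ : Γ →* Fˣ)
    {I : Type} (x : I → Ξ) (hχ : ∀ i, ∀ k ∈ stabilizer Γ (x i), χ k = 1) :
    XHom χ →ₗ[F] (∀ i, Additive (stabilizer Γ (x i)) →+ F) where
  toFun d i :=
    { toFun := fun k => d.1 (k.toMul : Γ)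
      map_zero' := by
        have h := d.2 1 1
        rw [mul_one, map_one, Units.val_one, one_mul] at h
        show d.1 (1 : Γ) = 0
        linear_combination -h
      map_add' := by
        intro k k'
        have h := d.2 (k.toMul : Γ) (k'.toMul : Γ)
        rw [hχ i _ k.toMul.2, Units.val_one, one_mul] at h
        exact h }
  map_add' := by
    intro d d'
    rfl
  map_smul' := by
    intro c d
    rfl

theorem resX_apply {Γ : Type} [Group Γ] {Ξ : Type} [MulAction Γ Ξ] {F : Type} [Field F]
    (χ : Γ →* Fˣ) {I : Type} (x : I → Ξ) (hχ : ∀ i, ∀ k ∈ stabilizer Γ (x i), χ k = 1)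
    (d : XHom χ) (i : I) (k : stabilizer Γ (x i)) :
    resX χ x hχ d i (Additive.ofMul k) = d.1 (k : Γ) := rfl

end Q62
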