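import Pool.Agent.W_04c03c_h62s.SZ2B

/-!
# Stabilizers in subgroups
-/

namespace Q62

open MulAction

section
variable {Γ : Type} [Group Γ] {Ξ S0 S1 S2 : Type} [MulAction Γ Ξ] [MulAction Γ S0]
    [MulAction Γ S1] [MulAction Γ S2]

/-- The two descriptions of the stabilizer in a subgroup. -/
def SFullB_equiv (N : Subgroup Γ) (ξ : Ξ) : stabilizer N ξ ≃* N.subgroupOf (stabilizer Γ ξ) where
  toFun x := ⟨⟨x.1.1, MulAction.mem_stabilizer_iff.mpr (MulAction.mem_stabilizer_iff.mp x.2)⟩,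
    Subgroup.mem_subgroupOf.mpr x.1.2⟩
  invFun y := ⟨⟨y.1.1, Subgroup.mem_subgroupOf.mp y.2⟩,
    MulAction.mem_stabilizer_iff.mpr (MulAction.mem_stabilizer_iff.mp y.1.2)⟩
  left_inv _ := rfl
  right_inv _ := rfl
  map_mul' _ _ := rfl

/-- The stabilizer in a subgroup.

Proof. `stabilizer N ξ` is isomorphic to the subgroup `N.subgroupOf (stabilizer Γ ξ)` of finite index of
`stabilizer Γ ξ`; use `z2_of_index`. -/
theorem z2_res {ξ : Ξ} (hz : Nonempty (stabilizer Γ ξ ≃* Multiplicative (ℤ × ℤ))) (N : Subgroup Γ)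
    (hN : (N.subgroupOf (stabilizer Γ ξ)).FiniteIndex) :
    Nonempty (stabilizer N ξ ≃* Multiplicative (ℤ × ℤ)) := by
  have := hN
  obtain ⟨e⟩ := z2_of_index hz (N.subgroupOf (stabilizer Γ ξ))
  exact ⟨(SFullB_equiv N ξ).trans e⟩

/-- If the stabilizers in `Γ` and in the subgroup `N` are both isomorphic to `ℤ²`, then the second has
finite index in the first.

Proof. `index_of_z2` for `N.subgroupOf (stabilizer Γ ξ)`, which is isomorphic to `stabilizer N ξ`. -/
theorem index_stab {ξ : Ξ} (hz : Nonempty (stabilizer Γ ξ ≃* Multiplicative (ℤ × ℤ)))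
    (N : Subgroup Γ) (hN : Nonempty (stabilizer N ξ ≃* Multiplicative (ℤ × ℤ))) :
    (N.subgroupOf (stabilizer Γ ξ)).FiniteIndex := by
  obtain ⟨e⟩ := hN
  exact index_of_z2 hz (N.subgroupOf (stabilizer Γ ξ)) ⟨(SFullB_equiv N ξ).symm.trans e⟩

end

end Q62
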