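import Pool.Agent.W_04c03c_h62s.SDefs

/-!
# The points of a duality pair are full
-/

namespace Q62

open MulAction

section
variable {Γ : Type} [Group Γ] {Ξ S0 S1 S2 : Type} [MulAction Γ Ξ] [MulAction Γ S0]
    [MulAction Γ S1] [MulAction Γ S2]

/-- The cells at `ξ` are finite in number modulo the stabilizer. -/
theorem sFullC_one (P : PD Γ Ξ S0 S1 S2) (ξ : Ξ) :
    ∃ t : Finset S2, ∀ s : S2, P.eta s ξ ≠ 0 → ∃ g ∈ stabilizer Γ ξ, ∃ s' ∈ t, s = g • s' := by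
  classical
  have : Finite (orbitRel.Quotient Γ S2) := P.free2.fin
  have : Fintype (orbitRel.Quotient Γ S2) := Fintype.ofFinite _
  let gz : Ξ → Γ := fun ζ => if h : ∃ g : Γ, g • ζ = ξ then h.choose else 1
  have hgz : ∀ ζ, (∃ g : Γ, g • ζ = ξ) → gz ζ • ζ = ξ := by
    intro ζ h
    have h1 : gz ζ = h.choose := dif_pos h
    rw [h1]
    exact h.choose_spec
  refine ⟨Finset.univ.biUnion fun q : orbitRel.Quotient Γ S2 =>
    (P.eta q.out).support.image fun ζ => gz ζ • q.out, fun s hs => ?_⟩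
  have h1 : s ∈ orbit Γ (Quotient.out (Quotient.mk (orbitRel Γ S2) s)) := by
    exact orbitRel_apply.1 ((orbitRel Γ S2).symm' (Quotient.mk_out (s := orbitRel Γ S2) s))
  obtain ⟨g, hg⟩ := h1
  set q : orbitRel.Quotient Γ S2 := Quotient.mk (orbitRel Γ S2) s with hq
  have hg' : g • Quotient.out q = s := hg
  have h2 : P.eta (Quotient.out q) (g⁻¹ • ξ) ≠ 0 := by
    rw [← P.eta_inv g (Quotient.out q) (g⁻¹ • ξ), smul_inv_smul, hg']
    exact hs
  have h3 : gz (g⁻¹ • ξ) • (g⁻¹ • ξ) = ξ := hgz _ ⟨g, smul_inv_smul g ξ⟩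
  refine ⟨g * (gz (g⁻¹ • ξ))⁻¹, ?_, gz (g⁻¹ • ξ) • Quotient.out q, ?_, ?_⟩
  · rw [mem_stabilizer_iff, mul_smul]
    have h4 : (gz (g⁻¹ • ξ))⁻¹ • ξ = g⁻¹ • ξ := by
      rw [inv_smul_eq_iff]
      exact h3.symm
    rw [h4, smul_inv_smul]
  · exact Finset.mem_biUnion.2 ⟨q, Finset.mem_univ _, Finset.mem_image.2
      ⟨g⁻¹ • ξ, Finsupp.mem_support_iff.2 h2, rfl⟩⟩
  · rw [mul_smul, inv_smul_smul, hg']

/-- In a duality pair every point is full, for every subgroup containing a subgroup of finite index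
of its stabilizer.

Proof. Let `K` be the stabilizer of `ξ` in `Γ` (the whole group). `S2` has finitely many orbits
(`P.free2.fin`), with representatives `q.out`. If `P.eta s ξ ≠ 0` and `s = g • q.out`, then
`P.eta q.out (g⁻¹ • ξ) ≠ 0`, so `g⁻¹ • ξ` is one of finitely many points `ζ` (the support of
`P.eta q.out`); choose for each such `ζ` in the orbit of `ξ` an element `gζ` with `gζ • ζ = ξ`; then
`g * gζ⁻¹ ∈ K` and `s = (g * gζ⁻¹) • (gζ • q.out)`. So the cells `s` with `P.eta s ξ ≠ 0` are finite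
modulo `K`, and, as in `WPD.Full.res`, finite modulo `K ∩ N`. -/
theorem PD.full {P : PD Γ Ξ S0 S1 S2} {ξ : Ξ} (N : Subgroup Γ)
    (hN : (N.subgroupOf (stabilizer Γ ξ)).FiniteIndex) : (P.toWPD N).Full ξ := by
  classical
  obtain ⟨t, ht⟩ := sFullC_one P ξ
  have := hN
  have : Finite ((stabilizer Γ ξ) ⧸ (N.subgroupOf (stabilizer Γ ξ))) :=
    Subgroup.finite_quotient_of_finiteIndex
  have : Fintype ((stabilizer Γ ξ) ⧸ (N.subgroupOf (stabilizer Γ ξ))) := Fintype.ofFinite _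
  refine ⟨Finset.univ.biUnion fun q : (stabilizer Γ ξ) ⧸ (N.subgroupOf (stabilizer Γ ξ)) =>
    t.image fun s' => ((Quotient.out q : stabilizer Γ ξ) : Γ)⁻¹ • s', fun s hs => ?_⟩
  obtain ⟨k, hk, s', hs', rfl⟩ := ht s hs
  let kk : stabilizer Γ ξ := ⟨k, hk⟩
  obtain ⟨h, hh⟩ := QuotientGroup.mk_out_eq_mul (N.subgroupOf (stabilizer Γ ξ)) kk⁻¹
  have h1 : ((Quotient.out (QuotientGroup.mk (s := N.subgroupOf (stabilizer Γ ξ)) kk⁻¹) :
      stabilizer Γ ξ) : Γ) = k⁻¹ * ((h : stabilizer Γ ξ) : Γ) :=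
    congrArg (fun z : stabilizer Γ ξ => (z : Γ)) hh
  have h2 : ((h : stabilizer Γ ξ) : Γ) ∈ N := Subgroup.mem_subgroupOf.1 h.2
  refine ⟨⟨((h : stabilizer Γ ξ) : Γ), h2⟩, (h : stabilizer Γ ξ).2,
    (((Quotient.out (QuotientGroup.mk (s := N.subgroupOf (stabilizer Γ ξ)) kk⁻¹) :
      stabilizer Γ ξ) : Γ))⁻¹ • s', ?_, ?_⟩
  · exact Finset.mem_biUnion.2 ⟨_, Finset.mem_univ _, Finset.mem_image.2 ⟨s', hs', rfl⟩⟩
  · change k • s' = ((h : stabilizer Γ ξ) : Γ) • _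
    rw [h1, smul_smul]
    congr 1
    group

end

end Q62
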