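import Pool.Agent.W_04c03c_h62s.SLoc

/-!
# The construction for a finite family of points
-/

namespace Q62

open MulAction

/-- The families of homomorphisms of the stabilizers of the points `x i`. -/
abbrev Hs (Γ : Type) [Group Γ] {Ξ : Type} [MulAction Γ Ξ] (F : Type) [Field F] {I : Type}
    (x : I → Ξ) : Type := ∀ i, Additive (stabilizer Γ (x i)) →+ F

/-- The functions `L h` on the two-dimensional cells, for all families `h`. -/
structure LData {Γ : Type} [Group Γ] {Ξ : Type} (S : Type) [MulAction Γ Ξ] [MulAction Γ S]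
    {F : Type} [Field F] (χ : Γ →* Fˣ) {I : Type} (x : I → Ξ) where
  L : Hs Γ F x →ₗ[F] (S → Ξ → F)
  τ : Hs Γ F x → Γ → Ξ → F
  eq : ∀ h (g : Γ) s ξ, L h (g • s) (g • ξ) = ((χ⁻¹ g : Fˣ) : F) * L h s ξ + τ h g ξ
  supp : ∀ h s ξ, L h s ξ ≠ 0 → ∃ i, ξ ∈ orbit Γ (x i)
  coc : ∀ h g g' ξ, τ h (g * g') ξ = τ h g (g' • ξ) + ((χ⁻¹ g : Fˣ) : F) * τ h g' ξ
  val : ∀ h i (k : stabilizer Γ (x i)), τ h (k : Γ) (x i) = h i (Additive.ofMul k)

/-- The data exist.

Proof. Take `L i`, `τ i` from `exists_L` for every point `x i`, and `L h s ξ = ∑ i, L i (h i) s ξ`,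
`τ h g ξ = ∑ i, τ i (h i) g ξ`. `τ h k (x i) = τ i (h i) k (x i) = h i k`, because for `j ≠ i` the point
`x i` is not in the orbit of `x j`. -/
theorem exists_LData {Γ : Type} [Group Γ] {Ξ S : Type} [MulAction Γ Ξ] [MulAction Γ S]
    {F : Type} [Field F] (hfree : ∀ (g : Γ) (s : S), g • s = s → g = 1) (χ : Γ →* Fˣ)
    {I : Type} [Finite I] (x : I → Ξ) (hχ : ∀ i, ∀ k ∈ stabilizer Γ (x i), χ k = 1)
    (hne : ∀ i j, i ≠ j → x i ∉ orbit Γ (x j)) : Nonempty (LData S χ x) := by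
  classical
  have := Fintype.ofFinite I
  choose Li τi h1 h2 h3 h4 h5 using fun i => exists_L (S := S) hfree χ (x i) (hχ i)
  have hL : ∀ (h : Hs Γ F x) (s : S) (ξ : Ξ),
      (∑ i, (Li i).comp (LinearMap.proj i) : Hs Γ F x →ₗ[F] (S → Ξ → F)) h s ξ = ∑ i, Li i (h i) s ξ := by
    intro h s ξ
    rw [LinearMap.sum_apply, Finset.sum_apply, Finset.sum_apply]
    rfl
  refine ⟨{ L := ∑ i, (Li i).comp (LinearMap.proj i), τ := fun h g ξ => ∑ i, τi i (h i) g ξ,
            eq := ?_, supp := ?_, coc := ?_, val := ?_ }⟩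
  · intro h g s ξ
    rw [hL, hL, Finset.mul_sum, ← Finset.sum_add_distrib]
    exact Finset.sum_congr rfl fun i _ => h1 i (h i) g s ξ
  · intro h s ξ hne'
    by_contra hcon
    push Not at hcon
    apply hne'
    rw [hL]
    exact Finset.sum_eq_zero fun i _ => h2 i (h i) s ξ (hcon i)
  · intro h g g' ξ
    rw [Finset.mul_sum, ← Finset.sum_add_distrib]
    exact Finset.sum_congr rfl fun i _ => h4 i (h i) g g' ξ
  · intro h i k
    rw [Finset.sum_eq_single i]
    · exact h5 i (h i) k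
    · intro j _ hj
      exact h3 j (h j) k (x i) (hne i j hj.symm)
    · intro hi
      exact absurd (Finset.mem_univ i) hi

end Q62
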