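import Mathlib

/-!
# Linear algebra: kernels
-/

namespace Q62

/-- If `A` has dimension at least `n + k` then `k` linearly independent vectors of `A` are killed by
a linear map to `F ^ n`.

Proof. The kernel of the restriction of `L` to `A` has dimension at least `k` (rank-nullity); take `k`
members of a basis of it. -/
theorem exists_indep_ker {F V : Type} [Field F] [AddCommGroup V] [Module F V]
    [FiniteDimensional F V] (A : Submodule F V) {J : Type} [Finite J] {k : ℕ}
    (h : Nat.card J + k ≤ Module.finrank F A) (L : V →ₗ[F] (J → F)) :
    ∃ v : Fin k → V, LinearIndependent F v ∧ (∀ i, v i ∈ A) ∧ ∀ i, L (v i) = 0 := by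
  have := Fintype.ofFinite J
  have h1 := LinearMap.finrank_range_add_finrank_ker (L.domRestrict A)
  have h2 : Module.finrank F (LinearMap.range (L.domRestrict A)) ≤ Nat.card J := by
    refine (Submodule.finrank_le _).trans ?_
    rw [Module.finrank_fintype_fun_eq_card, Nat.card_eq_fintype_card]
  have h3 : k ≤ Module.finrank F (LinearMap.ker (L.domRestrict A)) := by omega
  obtain ⟨w, hw⟩ := exists_linearIndependent_of_le_finrank h3
  have hw1 : LinearIndependent F (fun i => ((w i : A) : V)) := by
    have e1 := hw.map' (LinearMap.ker (L.domRestrict A)).subtype (Submodule.ker_subtype _)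
    exact e1.map' A.subtype (Submodule.ker_subtype _)
  refine ⟨fun i => ((w i : A) : V), hw1, fun i => (w i : A).2, fun i => ?_⟩
  have := (w i).2
  rw [LinearMap.mem_ker] at this
  exact this

end Q62
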