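import Pool.Agent.W_04c03c_h62s.SRes
import Pool.Agent.W_04c03c_h62s.SFam
import Pool.Agent.W_04c03c_h62s.SLin

/-!
# Crossed homomorphisms vanishing on given elements
-/

namespace Q62

open MulAction

section
variable {Γ : Type} [Group Γ] {F : Type} [Field F]

/-- Crossed homomorphisms with linearly independent restrictions, vanishing on given elements.

Proof. Evaluation at the elements `R j` of the stabilizers of `x (ι j)` is a linear map
`L : (∀ i, Additive (stabilizer Γ (x i)) →+ F) → (J → F)`, `L h j = h (ι j) ⟨R j, _⟩`. Apply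
`exists_indep_ker` to `A = LinearMap.range (resX χ x hχ)`, and lift the `k` vectors of `A` to
`XHom χ`. -/
theorem exists_vanishing {Ξ : Type} [MulAction Γ Ξ] (χ : Γ →* Fˣ) {I : Type} (x : I → Ξ)
    (hχ : ∀ i, ∀ k ∈ stabilizer Γ (x i), χ k = 1) [FiniteDimensional F (Hs Γ F x)]
    {J : Type} [Finite J] (ι : J → I) (R : J → Γ) (hR : ∀ j, R j • x (ι j) = x (ι j))
    {k : ℕ} (h : Nat.card J + k ≤ Module.finrank F (LinearMap.range (resX χ x hχ))) :
    ∃ d : Fin k → XHom χ, (∀ i j, (d i).1 (R j) = 0) ∧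
      LinearIndependent F (fun i => resX χ x hχ (d i)) := by
  have hst : ∀ j, R j ∈ stabilizer Γ (x (ι j)) := fun j => mem_stabilizer_iff.2 (hR j)
  let L : Hs Γ F x →ₗ[F] (J → F) :=
    { toFun := fun h j => h (ι j) (Additive.ofMul ⟨R j, hst j⟩)
      map_add' := fun h h' => rfl
      map_smul' := fun c h => rfl }
  have hL : ∀ (h : Hs Γ F x) j, L h j = h (ι j) (Additive.ofMul ⟨R j, hst j⟩) := fun h j => rfl
  obtain ⟨v, hv1, hv2, hv3⟩ := exists_indep_ker (LinearMap.range (resX χ x hχ)) h L
  choose d hd using hv2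
  refine ⟨d, fun i j => ?_, ?_⟩
  · have h1 := congrFun (hv3 i) j
    rw [hL, ← hd i] at h1
    exact h1
  · have h2 : (fun i => resX χ x hχ (d i)) = v := funext hd
    rw [h2]
    exact hv1

/-- A crossed homomorphism vanishes on an element commuting with some element on which `χ` is not
trivial. -/
theorem vanish_of_comm {χ : Γ →* Fˣ} {d : Γ → F} (hd : d ∈ XHom χ) {k R : Γ}
    (hc : k * R = R * k) (hR : χ R = 1) (hk : χ k ≠ 1) : d R = 0 := by
  have h1 := hd k R
  have h2 := hd R k
  rw [hc, h2, hR, Units.val_one, one_mul] at h1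
  have h3 : ((χ k : F) - 1) * d R = 0 := by linear_combination -h1
  rcases mul_eq_zero.1 h3 with h | h
  · exact absurd (Units.ext (by rw [Units.val_one]; exact sub_eq_zero.1 h)) hk
  · exact h

end

end Q62
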