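import Pool.Agent.W_04c03c_h62s.SFam

/-!
# Homomorphisms of groups isomorphic to `ℤ²`
-/

namespace Q62

open MulAction

/-- The homomorphisms of a group isomorphic to `ℤ²` to a field.

Proof. `Additive K ≃+ ℤ × ℤ`, and a homomorphism `ℤ × ℤ → F` is determined by its (arbitrary) values at
`(1, 0)` and `(0, 1)`: a linear equivalence with `F × F` (or `Fin 2 → F`). -/
theorem homZ2 {K : Type} [Group K] (e : Nonempty (K ≃* Multiplicative (ℤ × ℤ))) (F : Type)
    [Field F] : FiniteDimensional F (Additive K →+ F) ∧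
      Module.finrank F (Additive K →+ F) = 2 := by
  obtain ⟨e⟩ := e
  let x1 : Additive K := Additive.ofMul (e.symm (Multiplicative.ofAdd (1, 0)))
  let x2 : Additive K := Additive.ofMul (e.symm (Multiplicative.ofAdd (0, 1)))
  let T : (Additive K →+ F) →ₗ[F] (F × F) :=
    { toFun := fun φ => (φ x1, φ x2)
      map_add' := fun _ _ => rfl
      map_smul' := fun _ _ => rfl }
  have hx : ∀ k : Additive K, k = (Multiplicative.toAdd (e k.toMul)).1 • x1 + (Multiplicative.toAdd (e k.toMul)).2 • x2 := by
    intro k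
    have h1 : e k.toMul = (Multiplicative.ofAdd ((1, 0) : ℤ × ℤ)) ^ (Multiplicative.toAdd (e k.toMul)).1 *
        (Multiplicative.ofAdd ((0, 1) : ℤ × ℤ)) ^ (Multiplicative.toAdd (e k.toMul)).2 := by
      apply Multiplicative.toAdd.injective
      rw [toAdd_mul, toAdd_zpow, toAdd_zpow, toAdd_ofAdd, toAdd_ofAdd]
      ext <;> simp
    have h2 := congrArg e.symm h1
    rw [MulEquiv.symm_apply_apply, map_mul, map_zpow, map_zpow] at h2
    apply Additive.toMul.injective
    rw [toMul_add, toMul_zsmul, toMul_zsmul]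
    exact h2
  have hinj : Function.Injective T := by
    intro φ ψ h
    have h1 : φ x1 = ψ x1 := congrArg Prod.fst h
    have h2 : φ x2 = ψ x2 := congrArg Prod.snd h
    refine DFunLike.ext _ _ fun k => ?_
    rw [hx k, map_add, map_add, map_zsmul, map_zsmul, map_zsmul, map_zsmul, h1, h2]
  have hsurj : Function.Surjective T := by
    rintro ⟨a, b⟩
    let φ : Additive K →+ F :=
      { toFun := fun k => (((Multiplicative.toAdd (e k.toMul)).1 : ℤ) : F) * a + (((Multiplicative.toAdd (e k.toMul)).2 : ℤ) : F) * b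
        map_zero' := by simp
        map_add' := fun k l => by
          rw [toMul_add, map_mul, toAdd_mul, Prod.fst_add, Prod.snd_add]
          push_cast
          ring }
    refine ⟨φ, ?_⟩
    change (φ x1, φ x2) = (a, b)
    simp [φ, x1, x2]
  let E : (Additive K →+ F) ≃ₗ[F] (F × F) := LinearEquiv.ofBijective T ⟨hinj, hsurj⟩
  refine ⟨FiniteDimensional.of_injective T hinj, ?_⟩
  rw [E.finrank_eq]
  simp

/-- The families of homomorphisms, when all stabilizers are isomorphic to `ℤ²`.

Proof. `homZ2`, `Module.finrank_pi_fintype`. -/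
theorem Hs_Z2 {Γ : Type} [Group Γ] {Ξ : Type} [MulAction Γ Ξ] (F : Type) [Field F] {I : Type}
    [Finite I] (x : I → Ξ)
    (hz : ∀ i, Nonempty (stabilizer Γ (x i) ≃* Multiplicative (ℤ × ℤ))) :
    FiniteDimensional F (Hs Γ F x) ∧ Module.finrank F (Hs Γ F x) = 2 * Nat.card I := by
  have := Fintype.ofFinite I
  have h1 : ∀ i, FiniteDimensional F (Additive (stabilizer Γ (x i)) →+ F) := fun i => (homZ2 (hz i) F).1
  have h2 : ∀ i, Module.finrank F (Additive (stabilizer Γ (x i)) →+ F) = 2 := fun i => (homZ2 (hz i) F).2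
  refine ⟨(inferInstance : FiniteDimensional F (∀ i, Additive (stabilizer Γ (x i)) →+ F)), ?_⟩
  change Module.finrank F (∀ i, Additive (stabilizer Γ (x i)) →+ F) = _
  rw [Module.finrank_pi_fintype]
  simp only [h2, Finset.sum_const, Finset.card_univ, smul_eq_mul, Nat.card_eq_fintype_card]
  ring

end Q62
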