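import Pool.Agent.W_04c03c_h62s.SGK
import Pool.Agent.W_04c03c_h62s.SZ2A
import Pool.Agent.W_04c03c_h62s.SNonA

/-!
# A crossed homomorphism which is not principal
-/

namespace Q62

open MulAction

section
variable {Γ : Type} [Group Γ] {Ξ S0 S1 S2 : Type} [MulAction Γ Ξ] [MulAction Γ S0]
    [MulAction Γ S1] [MulAction Γ S2] (P : WPD Γ Ξ S0 S1 S2) {F : Type} [Field F]

/-- Elements of a stabilizer isomorphic to `ℤ²` commute. -/
theorem stab_commB {ξ : Ξ} (hz : Nonempty (stabilizer Γ ξ ≃* Multiplicative (ℤ × ℤ)))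
    {k R : Γ} (hk : k ∈ stabilizer Γ ξ) (hR : R ∈ stabilizer Γ ξ) : k * R = R * k := by
  obtain ⟨e⟩ := hz
  have h : (⟨k, hk⟩ : stabilizer Γ ξ) * ⟨R, hR⟩ = ⟨R, hR⟩ * ⟨k, hk⟩ := by
    apply e.injective
    rw [map_mul, map_mul, mul_comm]
  exact congrArg Subtype.val h

/-- The step of the proof for one character. -/
theorem nonprin_stepB {χ χ' : Γ →* Fˣ} {J : Type} [Finite J] (η : J → Ξ) (R : J → Γ)
    (hfix : ∀ j, R j • η j = η j)
    (hz : ∀ j, Nonempty (stabilizer Γ (η j) ≃* Multiplicative (ℤ × ℤ)))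
    {ξ : Ξ} (hχR : ∀ j, χ' (R j) = 1)
    (hn : ∀ j, ¬ (∀ k ∈ stabilizer Γ (η j), χ k = 1) →
      ∃ k ∈ stabilizer Γ (η j), χ' k ≠ 1)
    {J1 : Type} [Finite J1] (i1 : J1 → J) (hi1 : ∀ j, (∀ k ∈ stabilizer Γ (η j), χ k = 1) →
      ∃ j1, i1 j1 = j)
    (hχ' : ∀ i : Option J1, ∀ k ∈ stabilizer Γ ((fun o : Option J1 => o.elim ξ fun j => η (i1 j)) i),
      χ' k = 1)
    [FiniteDimensional F (Hs Γ F (fun o : Option J1 => o.elim ξ fun j => η (i1 j)))]
    (h : Nat.card J1 + 1 ≤ Module.finrank F (LinearMap.range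
      (resX χ' (fun o : Option J1 => o.elim ξ fun j => η (i1 j)) hχ'))) :
    ∃ d ∈ XHom χ', (∀ j, d (R j) = 0) ∧ d ∉ Prin χ' := by
  obtain ⟨d, hd0, hdi⟩ := exists_vanishing χ' (fun o : Option J1 => o.elim ξ fun j => η (i1 j)) hχ'
    (J := J1) (fun j => some j) (fun j => R (i1 j)) (fun j => hfix (i1 j)) h
  refine ⟨(d 0).1, (d 0).2, fun j => ?_, ?_⟩
  · by_cases hj : ∀ k ∈ stabilizer Γ (η j), χ k = 1
    · obtain ⟨j1, rfl⟩ := hi1 j hj
      exact hd0 0 j1
    · obtain ⟨k, hk, hk1⟩ := hn j hj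
      exact vanish_of_comm (d 0).2 (stab_commB (hz j) hk (hfix j)) (hχR j) hk1
  · rintro ⟨m, hm⟩
    have h1 := hdi.ne_zero 0
    apply h1
    funext i
    refine AddMonoidHom.ext fun k => ?_
    have h2 : (d 0).1 (k.toMul : Γ) = 0 := by
      rw [hm, hχ' i _ k.toMul.2]
      simp
    exact h2

/-- A crossed homomorphism for `χ` or `χ⁻¹ * eps` which is not principal and vanishes on the `R j`.

Proof. Let `J1` be the type of the `j` with `χ = 1` on the stabilizer of `η j`. Apply `WPD.rank_le` to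
the family `x : Option J1 → Ξ`, `none ↦ ξ`, `some j ↦ η j` (full, pairwise not equivalent; `Hs` is
finite-dimensional of dimension `2 * (Nat.card J1 + 1)` by `Hs_Z2`). So one of the two ranges of `resX`
has dimension at least `Nat.card J1 + 1`, for `χ' = χ` or `χ' = χ⁻¹ * eps`; `χ' (R j) = 1` for all `j` in
both cases (`hχR`, `WPD.eps_stab`). `exists_vanishing` with `k = 1`, `ι = some`, gives `d ∈ XHom χ'` with
`d (R j) = 0` for `j ∈ J1`, whose restriction is not zero (linear independence of a family indexed by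
`Fin 1`), so `d ∉ Prin χ'` (principal crossed homomorphisms restrict to zero, as `χ' = 1` on the
stabilizers of the `x i`, `WPD.dual_stab`). For `j ∉ J1` there is `k` in the stabilizer of `η j` with
`χ k ≠ 1`, so `χ' k ≠ 1` (`WPD.eps_stab`); it commutes with `R j` (the stabilizer is commutative by
`hz`), so `d (R j) = 0` by `vanish_of_comm`. -/
theorem WPD.exists_nonprin (χ : Γ →* Fˣ) {J : Type} [Finite J] (η : J → Ξ) (R : J → Γ)
    (hfix : ∀ j, R j • η j = η j) (hfull : ∀ j, P.Full (η j))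
    (hz : ∀ j, Nonempty (stabilizer Γ (η j) ≃* Multiplicative (ℤ × ℤ)))
    (hne : ∀ j j', j ≠ j' → η j ∉ orbit Γ (η j')) (ξ : Ξ) (hξ : P.Full ξ)
    (hzξ : Nonempty (stabilizer Γ ξ ≃* Multiplicative (ℤ × ℤ)))
    (hun : ∀ j, ξ ∉ orbit Γ (η j)) (hχξ : ∀ k ∈ stabilizer Γ ξ, χ k = 1)
    (hχR : ∀ j, χ (R j) = 1) :
    (∃ d ∈ XHom χ, (∀ j, d (R j) = 0) ∧ d ∉ Prin χ) ∨
      ∃ d ∈ XHom (χ⁻¹ * P.epsF F), (∀ j, d (R j) = 0) ∧ d ∉ Prin (χ⁻¹ * P.epsF F) := by
  classical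
  let J1 : Type := {j : J // ∀ k ∈ stabilizer Γ (η j), χ k = 1}
  let x : Option J1 → Ξ := fun o => o.elim ξ fun j => η j.1
  have hx : ∀ i, P.Full (x i) := by
    rintro (_ | j)
    · exact hξ
    · exact hfull j.1
  have hχ : ∀ i, ∀ k ∈ stabilizer Γ (x i), χ k = 1 := by
    rintro (_ | j)
    · exact hχξ
    · exact j.2
  have hz' : ∀ i, Nonempty (stabilizer Γ (x i) ≃* Multiplicative (ℤ × ℤ)) := by
    rintro (_ | j)
    · exact hzξ
    · exact hz j.1
  have hne' : ∀ i j, i ≠ j → x i ∉ orbit Γ (x j) := by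
    rintro (_ | i) (_ | j) hij
    · exact absurd rfl hij
    · exact hun j.1
    · intro h
      exact hun i.1 (mem_orbit_symm.1 h)
    · exact hne i.1 j.1 fun h => hij (congrArg some (Subtype.ext h))
  obtain ⟨hfd, hrk⟩ := Hs_Z2 (Γ := Γ) F x hz'
  have h1 := P.rank_le (F := F) χ x hx hχ hne'
  rw [hrk] at h1
  have hcard : Nat.card (Option J1) = Nat.card J1 + 1 := Finite.card_option
  rw [hcard] at h1
  have heps : ∀ (ζ : Ξ) (k : Γ), k ∈ stabilizer Γ ζ → P.epsF F k = 1 := by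
    intro ζ k hk
    unfold WPD.epsF
    rw [MonoidHom.comp_apply, P.eps_stab ζ k hk]
    simp
  by_cases hA : Nat.card J1 + 1 ≤ Module.finrank F (LinearMap.range (resX χ x hχ))
  · left
    refine nonprin_stepB (χ := χ) (χ' := χ) η R hfix hz hχR ?_ (fun j : J1 => j.1) ?_ hχ hA
    · intro j hj
      push Not at hj
      exact hj
    · intro j hj
      exact ⟨⟨j, hj⟩, rfl⟩
  · right
    have hB : Nat.card J1 + 1 ≤ Module.finrank F
        (LinearMap.range (resX (χ⁻¹ * P.epsF F) x (P.dual_stab hχ))) := by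
      omega
    refine nonprin_stepB (χ := χ) (χ' := χ⁻¹ * P.epsF F) η R hfix hz ?_ ?_ (fun j : J1 => j.1) ?_
      (P.dual_stab hχ) hB
    · intro j
      rw [MonoidHom.mul_apply, MonoidHom.inv_apply, hχR j, heps (η j) (R j) (hfix j)]
      simp
    · intro j hj
      push Not at hj
      obtain ⟨k, hk, hk1⟩ := hj
      refine ⟨k, hk, ?_⟩
      rw [MonoidHom.mul_apply, MonoidHom.inv_apply, heps (η j) k hk, mul_one]
      intro h
      exact hk1 (inv_eq_one.1 h)
    · intro j hj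
      exact ⟨⟨j, hj⟩, rfl⟩

end

end Q62
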