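import Pool.Agent.W_04c03c_h62s.SGK
import Pool.Agent.W_04c03c_h62s.SZ2A
import Pool.Agent.W_04c03c_h62s.SNonA

/-!
# Homomorphisms vanishing on given elements
-/

namespace Q62

open MulAction

theorem SNonC_congr {Γ : Type} [Group Γ] {Ξ : Type} [MulAction Γ Ξ] {F : Type} [Field F]
    {χ χ' : Γ →* Fˣ} (h : χ = χ') {I : Type} (x : I → Ξ)
    (h1 : ∀ i, ∀ k ∈ stabilizer Γ (x i), χ k = 1) (h2 : ∀ i, ∀ k ∈ stabilizer Γ (x i), χ' k = 1) :
    Module.finrank F (LinearMap.range (resX χ x h1)) =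
      Module.finrank F (LinearMap.range (resX χ' x h2)) := by
  subst h
  rfl

/-- A crossed homomorphism for the trivial character is a homomorphism. -/
def SNonC_hom {Γ : Type} [Group Γ] {F : Type} [Field F] (d : XHom (1 : Γ →* Fˣ)) :
    Additive Γ →+ F where
  toFun g := d.1 g.toMul
  map_zero' := by
    have h := d.2 1 1
    rw [mul_one, MonoidHom.one_apply, Units.val_one, one_mul] at h
    show d.1 (1 : Γ) = 0
    linear_combination -h
  map_add' := by
    intro g g'
    have h := d.2 g.toMul g'.toMul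
    rw [MonoidHom.one_apply, Units.val_one, one_mul] at h
    exact h

section
variable {Γ : Type} [Group Γ] {Ξ S0 S1 S2 : Type} [MulAction Γ Ξ] [MulAction Γ S0]
    [MulAction Γ S1] [MulAction Γ S2] (P : WPD Γ Ξ S0 S1 S2) {F : Type} [Field F]

/-- Homomorphisms vanishing on the `R j`, which stay independent on the stabilizers.

Proof. `WPD.rank_le` for `χ = 1` and the family `y = Sum.elim x η : Fin r ⊕ J → Ξ` gives
`2 * (r + Nat.card J) ≤ 2 * finrank (range (resX 1 y _))` (since `1⁻¹ * P.epsF F = 1`; rewrite, or note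
that the two ranges are equal), so `exists_vanishing` (with `ι = Sum.inr`) gives `d : Fin r → XHom 1`;
each `d i` is a homomorphism `Additive Γ →+ F` (`d (g * h) = d g + 1 * d h`), and they are linearly
independent because their restrictions are. -/
theorem WPD.exists_homs (he : P.epsF F = 1) {J : Type} [Finite J] (η : J → Ξ) (R : J → Γ)
    (hfix : ∀ j, R j • η j = η j) (hfull : ∀ j, P.Full (η j))
    (hz : ∀ j, Nonempty (stabilizer Γ (η j) ≃* Multiplicative (ℤ × ℤ)))
    (hne : ∀ j j', j ≠ j' → η j ∉ orbit Γ (η j')) {r : ℕ} (x : Fin r → Ξ)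
    (hxfull : ∀ i, P.Full (x i))
    (hxz : ∀ i, Nonempty (stabilizer Γ (x i) ≃* Multiplicative (ℤ × ℤ)))
    (hxne : ∀ i i', i ≠ i' → x i ∉ orbit Γ (x i')) (hun : ∀ i j, x i ∉ orbit Γ (η j)) :
    ∃ f : Fin r → (Additive Γ →+ F), LinearIndependent F f ∧
      ∀ i j, f i (Additive.ofMul (R j)) = 0 := by
  have hfin : FiniteDimensional F (Hs Γ F (Sum.elim x η)) := (Hs_Z2 F (Sum.elim x η) (by
    rintro (i | j)
    · exact hxz i
    · exact hz j)).1
  have hdim : Module.finrank F (Hs Γ F (Sum.elim x η)) = 2 * (r + Nat.card J) := by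
    rw [(Hs_Z2 F (Sum.elim x η) (by
      rintro (i | j)
      · exact hxz i
      · exact hz j)).2, Nat.card_sum, Nat.card_fin]
  have hχ : ∀ i, ∀ k ∈ stabilizer Γ (Sum.elim x η i), (1 : Γ →* Fˣ) k = 1 := fun _ _ _ => rfl
  have hnee : ∀ i j, i ≠ j → Sum.elim x η i ∉ orbit Γ (Sum.elim x η j) := by
    rintro (i | j) (i' | j') hij
    · exact hxne i i' (fun h => hij (by rw [h]))
    · exact hun i j'
    · intro h
      exact hun i' j (MulAction.mem_orbit_symm.1 h)
    · exact hne j j' (fun h => hij (by rw [h]))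
  have hrk := P.rank_le (F := F) 1 (Sum.elim x η) (by
    rintro (i | j)
    · exact hxfull i
    · exact hfull j) hχ hnee
  have heq : Module.finrank F (LinearMap.range (resX ((1 : Γ →* Fˣ)⁻¹ * P.epsF F)
      (Sum.elim x η) (P.dual_stab hχ))) =
      Module.finrank F (LinearMap.range (resX (1 : Γ →* Fˣ) (Sum.elim x η) hχ)) := by
    have h1 : (1 : Γ →* Fˣ)⁻¹ * P.epsF F = 1 := by
      rw [he]
      ext g
      simp
    exact SNonC_congr h1 _ _ _
  rw [heq, hdim] at hrk
  obtain ⟨d, hd0, hdi⟩ := exists_vanishing (1 : Γ →* Fˣ) (Sum.elim x η) hχ Sum.inr R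
    (fun j => hfix j) (k := r) (by omega)
  refine ⟨fun i => SNonC_hom (d i), ?_, fun i j => hd0 i j⟩
  let ρ : (Additive Γ →+ F) →ₗ[F] Hs Γ F (Sum.elim x η) :=
    { toFun := fun f i => f.comp (MonoidHom.toAdditive (stabilizer Γ (Sum.elim x η i)).subtype)
      map_add' := fun _ _ => rfl
      map_smul' := fun _ _ => rfl }
  refine LinearIndependent.of_comp ρ ?_
  have h1 : (ρ ∘ fun i => SNonC_hom (d i)) = fun i => resX 1 (Sum.elim x η) hχ (d i) := rfl
  rw [h1]
  exact hdi

end

end Q62
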