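import Pool.Agent.W_04c03c_h62s.SDefs

/-!
# Descent to the quotient
-/

namespace Q62

open MulAction

section
variable {Γ Q : Type} [Group Γ] [Group Q] {F : Type} [Field F]

/-- A crossed homomorphism which vanishes on the normal generators of the kernel of `π` descends.

Proof. The elements `n` of `π.ker` with `d n = 0` form a normal subgroup of `Γ`: for `n ∈ π.ker`,
`χ' (π n) = 1`, so `d (n * m) = d n + d m`, and `d (g * n * g⁻¹) = χ' (π g) * d n` (use `d 1 = 0` and
`0 = d (g * g⁻¹) = d g + χ' (π g) * d g⁻¹`). It contains the `R j`, so `d = 0` on `π.ker`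
(`Subgroup.normalClosure_le_normal`). So `d g = d g'` if `π g = π g'`
(`g = n * g'` with `n ∈ π.ker`), and `d' q = d (any preimage of q)`. -/
theorem descend (π : Γ →* Q) (hπ : Function.Surjective π) {J : Type} (R : J → Γ)
    (hker : π.ker = Subgroup.normalClosure (Set.range R)) (χ' : Q →* Fˣ) {d : Γ → F}
    (hd : d ∈ XHom (χ'.comp π)) (hR : ∀ j, d (R j) = 0) : ∃ d' ∈ XHom χ', ∀ g, d' (π g) = d g := by
  rw [mem_XHom] at hd
  have hd1 : d 1 = 0 := by
    have h := hd 1 1
    rw [mul_one, map_one, Units.val_one, one_mul] at h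
    exact left_eq_add.mp h
  have hinv : ∀ g, d g + (((χ'.comp π) g : Fˣ) : F) * d g⁻¹ = 0 := by
    intro g
    have h := hd g g⁻¹
    rw [mul_inv_cancel, hd1] at h
    exact h.symm
  have hone : ∀ n ∈ π.ker, (((χ'.comp π) n : Fˣ) : F) = 1 := by
    intro n hn
    rw [MonoidHom.comp_apply, MonoidHom.mem_ker.1 hn, map_one, Units.val_one]
  let K : Subgroup Γ :=
    { carrier := {n | n ∈ π.ker ∧ d n = 0}
      mul_mem' := by
        rintro a b ⟨ha, ha'⟩ ⟨hb, hb'⟩
        exact ⟨mul_mem ha hb, by rw [hd, ha', hb', mul_zero, add_zero]⟩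
      one_mem' := ⟨one_mem _, hd1⟩
      inv_mem' := by
        rintro a ⟨ha, ha'⟩
        refine ⟨inv_mem ha, ?_⟩
        have h := hinv a
        rw [ha', hone a ha, one_mul, zero_add] at h
        exact h }
  have hKn : K.Normal := ⟨by
    rintro n ⟨hn, hn'⟩ g
    refine ⟨π.normal_ker.conj_mem n hn g, ?_⟩
    have h := hinv g
    rw [hd (g * n) g⁻¹, hd g n, hn', map_mul, Units.val_mul, hone n hn]
    linear_combination h⟩
  have hle : π.ker ≤ K := by
    conv_lhs => rw [hker]
    apply Subgroup.normalClosure_le_normal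
    rintro _ ⟨j, rfl⟩
    exact ⟨by rw [hker]; exact Subgroup.subset_normalClosure ⟨j, rfl⟩, hR j⟩
  have hwd : ∀ g g', π g = π g' → d g = d g' := by
    intro g g' h
    have h1 : g * g'⁻¹ ∈ π.ker := by
      rw [MonoidHom.mem_ker, map_mul, map_inv, h, mul_inv_cancel]
    have h2 := hd (g * g'⁻¹) g'
    rw [inv_mul_cancel_right, (hle h1).2, hone _ h1, one_mul, zero_add] at h2
    exact h2
  refine ⟨fun q => d (Function.surjInv hπ q), ?_, fun g => hwd _ _ (Function.surjInv_eq hπ _)⟩
  intro q q'
  have h1 : d (Function.surjInv hπ (q * q')) =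
      d (Function.surjInv hπ q * Function.surjInv hπ q') := by
    apply hwd
    rw [map_mul, Function.surjInv_eq hπ, Function.surjInv_eq hπ, Function.surjInv_eq hπ]
  show d (Function.surjInv hπ (q * q')) = d (Function.surjInv hπ q) +
    ((χ' q : Fˣ) : F) * d (Function.surjInv hπ q')
  rw [h1, hd, MonoidHom.comp_apply, Function.surjInv_eq hπ]

/-- Homomorphisms which vanish on the normal generators of the kernel descend.

Proof. `descend` for `χ' = 1` and each `f i`; independence: a linear relation between the `f' i` gives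
the same relation between the `f i` (compose with `π`). -/
theorem descend_homs (π : Γ →* Q) (hπ : Function.Surjective π) {J : Type} (R : J → Γ)
    (hker : π.ker = Subgroup.normalClosure (Set.range R)) {r : ℕ} (f : Fin r → (Additive Γ →+ F))
    (hf : LinearIndependent F f) (hR : ∀ i j, f i (Additive.ofMul (R j)) = 0) :
    ∃ f' : Fin r → (Additive Q →+ F), LinearIndependent F f' := by
  have h1 : ∀ i, ∃ d' ∈ XHom (1 : Q →* Fˣ), ∀ g, d' (π g) = f i (Additive.ofMul g) := by
    intro i
    refine descend π hπ R hker (1 : Q →* Fˣ) (d := fun g => f i (Additive.ofMul g)) ?_ (hR i)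
    intro g g'
    show f i (Additive.ofMul (g * g')) = f i (Additive.ofMul g) +
      ((1 : Fˣ) : F) * f i (Additive.ofMul g')
    rw [Units.val_one, one_mul, ofMul_mul, map_add]
  choose d hd hdπ using h1
  let f' : Fin r → (Additive Q →+ F) := fun i => AddMonoidHom.mk' (fun q => d i q.toMul) (by
    intro a b
    have h := hd i a.toMul b.toMul
    rw [MonoidHom.one_apply, Units.val_one, one_mul] at h
    exact h)
  refine ⟨f', ?_⟩
  rw [Fintype.linearIndependent_iff] at hf ⊢
  intro c hc
  apply hf c
  refine AddMonoidHom.ext fun g => ?_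
  have h2 := DFunLike.congr_fun hc (Additive.ofMul (π g.toMul))
  rw [AddMonoidHom.finset_sum_apply] at h2 ⊢
  rw [AddMonoidHom.zero_apply] at h2 ⊢
  rw [← h2]
  refine Finset.sum_congr rfl fun i _ => ?_
  show c i * f i g = c i * d i (π g.toMul)
  rw [hdπ]
  rfl

end

end Q62
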