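import Mathlib

/-!
# Killing two elements
-/

namespace Q62

/-- Three independent homomorphisms: a nonzero combination vanishes at two given elements.

Proof. The linear map `c ↦ (∑ c i * f i x, ∑ c i * f i y)` from `ℚ³` to `ℚ²` has a nonzero kernel;
`φ = ∑ c i • f i` is not zero by independence. -/
theorem exists_kill_two {Q : Type} [Group Q] (f : Fin 3 → (Additive Q →+ ℚ))
    (hf : LinearIndependent ℚ f) (x y : Q) :
    ∃ φ : Q → ℚ, (∀ g h, φ (g * h) = φ g + φ h) ∧ φ x = 0 ∧ φ y = 0 ∧ ∃ g, φ g ≠ 0 := by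
  classical
  let L : (Fin 3 → ℚ) →ₗ[ℚ] (Fin 2 → ℚ) :=
    LinearMap.pi fun j : Fin 2 =>
      ∑ i : Fin 3, (f i (Additive.ofMul (if j = 0 then x else y))) •
        (LinearMap.proj i : (Fin 3 → ℚ) →ₗ[ℚ] ℚ)
  have hker : LinearMap.ker L ≠ ⊥ := by
    apply LinearMap.ker_ne_bot_of_finrank_lt
    simp
  obtain ⟨c, hc, hc0⟩ := (Submodule.ne_bot_iff _).mp hker
  have hL : L c = 0 := hc
  have hx : ∑ i : Fin 3, c i * f i (Additive.ofMul x) = 0 := by
    have h := congrFun hL 0
    simp only [L, LinearMap.pi_apply, LinearMap.sum_apply, LinearMap.smul_apply,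
      LinearMap.proj_apply, smul_eq_mul, if_true, Pi.zero_apply] at h
    rw [← h]
    exact Finset.sum_congr rfl fun i _ => mul_comm _ _
  have hy : ∑ i : Fin 3, c i * f i (Additive.ofMul y) = 0 := by
    have h := congrFun hL 1
    simp only [L, LinearMap.pi_apply, LinearMap.sum_apply, LinearMap.smul_apply,
      LinearMap.proj_apply, smul_eq_mul, Pi.zero_apply, one_ne_zero, if_false] at h
    rw [← h]
    exact Finset.sum_congr rfl fun i _ => mul_comm _ _
  refine ⟨fun g => ∑ i : Fin 3, c i * f i (Additive.ofMul g), ?_, hx, hy, ?_⟩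
  · intro g h
    rw [← Finset.sum_add_distrib]
    refine Finset.sum_congr rfl fun i _ => ?_
    rw [ofMul_mul, map_add, mul_add]
  · by_contra hcon
    push Not at hcon
    apply hc0
    have h0 : ∑ i : Fin 3, c i • f i = 0 := by
      ext g
      have h1 : ∑ i : Fin 3, c i * f i (Additive.ofMul g) = 0 := hcon g
      simpa [AddMonoidHom.finsetSum_apply] using h1
    have h2 := (Fintype.linearIndependent_iff.mp hf) c h0
    funext i
    exact h2 i

end Q62
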