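import Pool.Agent.W_04c03c_h62s.SNon
import Pool.Agent.W_04c03c_h62s.SDesc
import Pool.Agent.W_04c03c_h62s.SKill
import Pool.Agent.W_04c03c_h62.Main

/-!
# Largeness of partial fillings
-/

namespace Q62

open MulAction

/-- In characteristic two the orientation character is trivial. -/
theorem WPD.epsF_eq_one {Γ : Type} [Group Γ] {Ξ S0 S1 S2 : Type} [MulAction Γ Ξ] [MulAction Γ S0]
    [MulAction Γ S1] [MulAction Γ S2] (P : WPD Γ Ξ S0 S1 S2) (F : Type) [Field F] [CharP F 2] :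
    P.epsF F = 1 := by
  refine MonoidHom.ext fun g => Units.ext ?_
  rw [P.epsF_apply]
  rcases Int.units_eq_one_or (P.eps g) with h | h
  · rw [h]
    simp
  · rw [h]
    have h2 : (-1 : F) = 1 := CharTwo.neg_eq 1
    simp [h2]

theorem inv_chiT {Q : Type} [Group Q] (ψ : Q →* Multiplicative ℤ) : (chiT ψ)⁻¹ = chiT ψ⁻¹ := by
  refine MonoidHom.ext fun g => ?_
  rw [MonoidHom.inv_apply, chiT_apply, chiT_apply, MonoidHom.inv_apply, toAdd_inv, zpow_neg]

theorem large_of_nonprin {Q : Type} [Group Q] (hfg : Group.FG Q) (hfp : FPFree Q)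
    (ψ : Q →* Multiplicative ℤ) (hψ : Function.Surjective ψ) {d : Q → LF} (hd : d ∈ XHom (chiT ψ))
    (hn : d ∉ Prin (chiT ψ)) : IsLarge Q := by
  obtain ⟨D, hD, ha, hs⟩ := exists_normalized ψ hψ d hd hn
  obtain ⟨Φ, hΦ⟩ := lamp_of_LP ψ D hD ha hs
  exact large_of_lamp hfp Φ hΦ

section
variable {Γ : Type} [Group Γ] {Ξ S0 S1 S2 : Type} [MulAction Γ Ξ] [MulAction Γ S0]
    [MulAction Γ S1] [MulAction Γ S2] {P : WPD Γ Ξ S0 S1 S2} {Q : Type} [Group Q]

/-- A nonzero homomorphism to `ℚ` which vanishes on the stabilizer of an unfilled point implies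
largeness. -/
theorem Filled.large (D : Filled P Q) (hfg : Group.FG Q) (hfp : FPFree Q)
    (ξ : Ξ) (hξ : P.Full ξ) (hz : Nonempty (stabilizer Γ ξ ≃* Multiplicative (ℤ × ℤ)))
    (hun : ∀ j, ξ ∉ orbit Γ (D.η j)) (φ : Additive Q →+ ℚ) (hφ : φ ≠ 0)
    (hk : ∀ k : Γ, k • ξ = ξ → φ (Additive.ofMul (D.π k)) = 0) : IsLarge Q := by
  obtain ⟨ψ, hψ, hker⟩ := exists_surj_int (fun g : Q => φ (Additive.ofMul g))
    (fun g h => by rw [ofMul_mul, map_add]) (by
      by_contra hcon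
      push Not at hcon
      exact hφ (AddMonoidHom.ext fun g => hcon g.toMul))
  have hst : ∀ k ∈ stabilizer Γ ξ, ((chiT ψ).comp D.π) k = 1 := by
    intro k hk'
    have h1 : ψ (D.π k) = 1 := hker _ (hk k hk')
    rw [MonoidHom.comp_apply, chiT_apply, h1]
    simp
  have hR1 : ∀ j, D.π (D.R j) = 1 := by
    intro j
    have h1 : D.R j ∈ D.π.ker := by
      rw [D.ker]
      exact Subgroup.subset_normalClosure ⟨j, rfl⟩
    exact h1
  have hR : ∀ j, ((chiT ψ).comp D.π) (D.R j) = 1 := by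
    intro j
    rw [MonoidHom.comp_apply, hR1, map_one]
  have := D.fin
  haveI : CharP LF 2 := LF_char_two
  have hprin : ∀ (χ : Q →* LFˣ) (d : Γ → LF) (d' : Q → LF), (∀ g, d' (D.π g) = d g) →
      d ∉ Prin (χ.comp D.π) → d' ∉ Prin χ := by
    rintro χ d d' hdd hd ⟨m, hm⟩
    exact hd ⟨m, fun g => by rw [← hdd, hm]; rfl⟩
  rcases P.exists_nonprin ((chiT ψ).comp D.π) D.η D.R D.fix D.full D.z2 D.ineq ξ hξ hz hun hst hR
    with ⟨d, hd, hdR, hn⟩ | ⟨d, hd, hdR, hn⟩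
  · obtain ⟨d', hd', hdd⟩ := descend D.π D.surj D.R D.ker (chiT ψ) hd hdR
    exact large_of_nonprin hfg hfp ψ hψ hd' (hprin _ d d' hdd hn)
  · have he : ((chiT ψ).comp D.π)⁻¹ * P.epsF LF = (chiT ψ⁻¹).comp D.π := by
      rw [P.epsF_eq_one LF, ← inv_chiT]
      refine MonoidHom.ext fun g => ?_
      rw [MonoidHom.mul_apply, MonoidHom.one_apply, mul_one]
      rfl
    rw [he] at hd hn
    obtain ⟨d', hd', hdd⟩ := descend D.π D.surj D.R D.ker (chiT ψ⁻¹) hd hdR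
    have hψ' : Function.Surjective (ψ⁻¹ : Q →* Multiplicative ℤ) := by
      intro n
      obtain ⟨g, hg⟩ := hψ n⁻¹
      exact ⟨g, by rw [MonoidHom.inv_apply, hg, inv_inv]⟩
    exact large_of_nonprin hfg hfp ψ⁻¹ hψ' hd' (hprin _ d d' hdd hn)

end

end Q62
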