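import Pool.Agent.W_04c03c_h62.ModPA
import Pool.Agent.W_04c03c_h62.ModPB

/-!
# Three inequivalent points from homology mod `p`
-/

namespace Q62

open MulAction

section
variable {Γ Q : Type} [Group Γ] [Group Q] {Ξ : Type} [MulAction Γ Ξ]

/-- Two homomorphisms `g1`, `g2` on `N` to `ZMod p` which vanish on the images of the elements of the
stabilizer give three inequivalent points. -/
theorem sThreeB_two (p : ℕ) [Fact p.Prime] (π : Γ →* Q) (hπ : Function.Surjective π) (ξ : Ξ)
    (N : Subgroup Q) [N.FiniteIndex] (g1 g2 : Additive N →+ ZMod p) (n1 n2 : N)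
    (h1 : g1 (Additive.ofMul n1) ≠ 0) (h2 : g2 (Additive.ofMul n1) = 0)
    (h3 : g2 (Additive.ofMul n2) ≠ 0)
    (hs1 : ∀ (h : Γ) (hh : π h ∈ N), h • ξ = ξ → g1 (Additive.ofMul (⟨π h, hh⟩ : N)) = 0)
    (hs2 : ∀ (h : Γ) (hh : π h ∈ N), h • ξ = ξ → g2 (Additive.ofMul (⟨π h, hh⟩ : N)) = 0) :
    ∃ N' : Subgroup Q, N'.FiniteIndex ∧ ∃ g : Fin 3 → Γ,
      ∀ i j, i ≠ j → g i • ξ ∉ orbit (N'.comap π) (g j • ξ) := by
  have hfact : p.Prime := Fact.out
  have hne : NeZero p := ⟨hfact.ne_zero⟩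
  let ψ : N →* Multiplicative (ZMod p × ZMod p) :=
    { toFun := fun n => Multiplicative.ofAdd (g1 (Additive.ofMul n), g2 (Additive.ofMul n))
      map_one' := by
        rw [ofMul_one, map_zero, map_zero]
        rfl
      map_mul' := fun x y => by
        rw [ofMul_mul, map_add, map_add]
        rfl }
  have hψ : ∀ n, n ∈ ψ.ker → g1 (Additive.ofMul n) = 0 ∧ g2 (Additive.ofMul n) = 0 := by
    intro n hn
    have h4 : (g1 (Additive.ofMul n), g2 (Additive.ofMul n)) = ((0, 0) : ZMod p × ZMod p) :=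
      congrArg Multiplicative.toAdd (MonoidHom.mem_ker.1 hn)
    exact ⟨congrArg Prod.fst h4, congrArg Prod.snd h4⟩
  have hfi : ψ.ker.FiniteIndex := Subgroup.finiteIndex_ker ψ
  obtain ⟨m1, hm1⟩ := hπ (n1 : Q)
  obtain ⟨m2, hm2⟩ := hπ (n2 : Q)
  refine ⟨ψ.ker.map N.subtype, ⟨?_⟩, ![1, m1, m2], ?_⟩
  · rw [Subgroup.index_map_subtype]
    exact mul_ne_zero hfi.index_ne_zero Subgroup.FiniteIndex.index_ne_zero
  let r : Fin 3 → N := ![1, n1, n2]
  have hr : ∀ i, π ((![1, m1, m2] : Fin 3 → Γ) i) = (r i : Q) := by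
    intro i
    fin_cases i
    · exact map_one π
    · exact hm1
    · exact hm2
  have key : ∀ i j : Fin 3, (![1, m1, m2] : Fin 3 → Γ) i • ξ ∈
      orbit ((ψ.ker.map N.subtype).comap π) ((![1, m1, m2] : Fin 3 → Γ) j • ξ) →
      g1 (Additive.ofMul (r i)) = g1 (Additive.ofMul (r j)) ∧
      g2 (Additive.ofMul (r i)) = g2 (Additive.ofMul (r j)) := by
    intro i j hij
    obtain ⟨⟨k, hk⟩, hk2⟩ := hij
    obtain ⟨k', hk', hk''⟩ := hk
    have h5 : k • ((![1, m1, m2] : Fin 3 → Γ) j • ξ) = (![1, m1, m2] : Fin 3 → Γ) i • ξ := hk2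
    have h6 : (((![1, m1, m2] : Fin 3 → Γ) i)⁻¹ * k * (![1, m1, m2] : Fin 3 → Γ) j) • ξ = ξ := by
      rw [mul_smul, mul_smul, h5, inv_smul_smul]
    have hpi : π (((![1, m1, m2] : Fin 3 → Γ) i)⁻¹ * k * (![1, m1, m2] : Fin 3 → Γ) j) =
        (((r i)⁻¹ * k' * r j : N) : Q) := by
      rw [map_mul, map_mul, map_inv, hr i, hr j]
      have h9 : π k = (k' : Q) := hk''.symm
      rw [h9]
      rfl
    have hmem : π (((![1, m1, m2] : Fin 3 → Γ) i)⁻¹ * k * (![1, m1, m2] : Fin 3 → Γ) j) ∈ N := by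
      rw [hpi]
      exact Subtype.property _
    have heq : (⟨_, hmem⟩ : N) = (r i)⁻¹ * k' * r j := Subtype.ext hpi
    obtain ⟨hk3, hk4⟩ := hψ k' hk'
    have h7 := hs1 _ hmem h6
    have h8 := hs2 _ hmem h6
    rw [heq] at h7 h8
    rw [ofMul_mul, ofMul_mul, ofMul_inv, map_add, map_add, map_neg] at h7 h8
    rw [hk3] at h7
    rw [hk4] at h8
    constructor
    · linear_combination -h7
    · linear_combination -h8
  have e0 : ∀ g : Additive N →+ ZMod p, g (Additive.ofMul (r 0)) = 0 := fun g => by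
    change g (Additive.ofMul 1) = 0
    rw [ofMul_one, map_zero]
  have h01 : ¬ (g1 (Additive.ofMul (r 0)) = g1 (Additive.ofMul (r 1)) ∧
      g2 (Additive.ofMul (r 0)) = g2 (Additive.ofMul (r 1))) := fun h => by
    have h4 := h.1
    rw [e0] at h4
    exact h1 h4.symm
  have h02 : ¬ (g1 (Additive.ofMul (r 0)) = g1 (Additive.ofMul (r 2)) ∧
      g2 (Additive.ofMul (r 0)) = g2 (Additive.ofMul (r 2))) := fun h => by
    have h4 := h.2
    rw [e0] at h4
    exact h3 h4.symm
  have h12 : ¬ (g1 (Additive.ofMul (r 1)) = g1 (Additive.ofMul (r 2)) ∧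
      g2 (Additive.ofMul (r 1)) = g2 (Additive.ofMul (r 2))) := fun h => by
    have h4 := h.2
    apply h3
    change g2 (Additive.ofMul n1) = g2 (Additive.ofMul n2) at h4
    rw [← h4]
    exact h2
  intro i j hij hmem
  have hk := key i j hmem
  fin_cases i <;> fin_cases j
  · exact hij rfl
  · exact h01 hk
  · exact h02 hk
  · exact h01 ⟨hk.1.symm, hk.2.symm⟩
  · exact hij rfl
  · exact h12 hk
  · exact h02 ⟨hk.1.symm, hk.2.symm⟩
  · exact h12 ⟨hk.1.symm, hk.2.symm⟩
  · exact hij rfl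

/-- Four independent homomorphisms to `ZMod p` give three points.

Proof. Let `M = N.comap π`, a subgroup of finite index of `Γ`, `π' : M → N` the restriction of `π`
(onto). The stabilizer of `ξ` in `M` has finite index in the one in `Γ`; it is generated by at most two
elements: its elements are `x ^ a * y ^ b` for two of its elements `x`, `y` (`stab_gen` in
`Pool.Agent.W_04c03c_h62.ModPA`: subgroups of groups isomorphic to `ℤ²`). Compose the `f i` with `π'`:
four independent homomorphisms on `M`. As in the proof of `three_of_modp` of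
`Pool.Agent.W_04c03c_h62.ModPB` (the linear map to `(ZMod p)²` given by the values at `x`, `y` has a
kernel of dimension at least two) there are two combinations `g1`, `g2` of the `f i` and
`n1`, `n2 : N` with `g1 n1 ≠ 0`, `g2 n1 = 0`, `g2 n2 ≠ 0`, and `g1 ∘ π'`, `g2 ∘ π'` vanish on the
stabilizer. Let `N' ≤ N` be the common kernel of `g1`, `g2` (finite index), mapped to `Q`, and take
the elements `1`, preimages `m1`, `m2 ∈ M` of `n1`, `n2`. As in `modPB_two` the three points
`ξ`, `m1 • ξ`, `m2 • ξ` are not equivalent under the preimage of `N'`. -/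
theorem three_of_modp' (p : ℕ) [Fact p.Prime] (π : Γ →* Q) (hπ : Function.Surjective π) (ξ : Ξ)
    (hz : Nonempty (stabilizer Γ ξ ≃* Multiplicative (ℤ × ℤ))) (N : Subgroup Q) [N.FiniteIndex]
    (f : Fin 4 → (Additive N →+ ZMod p)) (hf : LinearIndependent (ZMod p) f) :
    ∃ N' : Subgroup Q, N'.FiniteIndex ∧ ∃ g : Fin 3 → Γ,
      ∀ i j, i ≠ j → g i • ξ ∉ orbit (N'.comap π) (g j • ξ) := by
  obtain ⟨x, y, hxy⟩ := stab_gen (N.comap π) ξ hz
  set T : (Fin 4 → ZMod p) →ₗ[ZMod p] (Additive N →+ ZMod p) :=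
    Fintype.linearCombination (ZMod p) f with hT
  have hTi : Function.Injective T := linearIndependent_iff_injective_fintypeLinearCombination.1 hf
  let ev : N → (Additive N →+ ZMod p) →ₗ[ZMod p] ZMod p := fun n =>
    { toFun := fun g => g (Additive.ofMul n)
      map_add' := fun _ _ => rfl
      map_smul' := fun _ _ => rfl }
  let πM : N.comap π →* N :=
    { toFun := fun m => ⟨π (m : Γ), m.2⟩
      map_one' := Subtype.ext (map_one π)
      map_mul' := fun a b => Subtype.ext (map_mul π (a : Γ) (b : Γ)) }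
  let Φ : (Fin 4 → ZMod p) →ₗ[ZMod p] (ZMod p × ZMod p) :=
    ((ev (πM (x : N.comap π))).prod (ev (πM (y : N.comap π)))).comp T
  have hker : 1 < Module.finrank (ZMod p) (LinearMap.ker Φ) := by
    have h1 := LinearMap.finrank_range_add_finrank_ker Φ
    have h2 : Module.finrank (ZMod p) (LinearMap.range Φ) ≤ 2 := by
      have h3 := Submodule.finrank_le (LinearMap.range Φ)
      have h4 : Module.finrank (ZMod p) (ZMod p × ZMod p) = 2 := by
        rw [Module.finrank_prod, Module.finrank_self]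
      omega
    have h5 : Module.finrank (ZMod p) (Fin 4 → ZMod p) = 4 := by
      rw [Module.finrank_fin_fun]
    omega
  have hnt : Nontrivial (LinearMap.ker Φ) :=
    Module.nontrivial_of_finrank_pos (R := ZMod p) (by omega)
  obtain ⟨c, hc⟩ := exists_ne (0 : LinearMap.ker Φ)
  obtain ⟨d, hcd⟩ := exists_linearIndependent_pair_of_one_lt_finrank hker hc
  have hstab : ∀ z : LinearMap.ker Φ, ∀ (h : Γ) (hN : π h ∈ N), h • ξ = ξ →
      T (z : Fin 4 → ZMod p) (Additive.ofMul (⟨π h, hN⟩ : N)) = 0 := by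
    intro z h hN hh
    obtain ⟨a, b, hab⟩ := hxy ⟨⟨h, hN⟩, hh⟩
    have h1 : (⟨h, hN⟩ : N.comap π) = (x : N.comap π) ^ a * (y : N.comap π) ^ b :=
      congrArg (fun w : stabilizer (N.comap π) ξ => (w : N.comap π)) hab
    have h0 : (⟨π h, hN⟩ : N) = πM ⟨h, hN⟩ := rfl
    have h2 : Φ (z : Fin 4 → ZMod p) = 0 := LinearMap.mem_ker.1 z.2
    have h3 : T (z : Fin 4 → ZMod p) (Additive.ofMul (πM (x : N.comap π))) = 0 := congrArg Prod.fst h2
    have h4 : T (z : Fin 4 → ZMod p) (Additive.ofMul (πM (y : N.comap π))) = 0 := congrArg Prod.snd h2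
    rw [h0, h1, map_mul, map_zpow, map_zpow, ofMul_mul, map_add, ofMul_zpow, ofMul_zpow, map_zsmul,
      map_zsmul, h3, h4, smul_zero, smul_zero, add_zero]
  have hc' : T (c : Fin 4 → ZMod p) ≠ 0 := by
    intro h
    apply hc
    apply Subtype.ext
    apply hTi
    rw [h]
    exact (map_zero T).symm
  obtain ⟨n1, hn1⟩ : ∃ n1 : N, T (c : Fin 4 → ZMod p) (Additive.ofMul n1) ≠ 0 := by
    by_contra hcon
    push Not at hcon
    exact hc' (AddMonoidHom.ext fun n => hcon n.toMul)
  set t : ZMod p := T (d : Fin 4 → ZMod p) (Additive.ofMul n1) /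
    T (c : Fin 4 → ZMod p) (Additive.ofMul n1) with ht
  have hd' : T ((d - t • c : LinearMap.ker Φ) : Fin 4 → ZMod p) ≠ 0 := by
    intro h
    have h1 : d - t • c = 0 := by
      apply Subtype.ext
      apply hTi
      rw [h]
      exact (map_zero T).symm
    have h2 := LinearIndependent.pair_iff.1 hcd (-t) 1 (by
      rw [neg_smul, one_smul, neg_add_eq_sub]
      exact h1)
    exact one_ne_zero h2.2
  obtain ⟨n2, hn2⟩ : ∃ n2 : N,
      T ((d - t • c : LinearMap.ker Φ) : Fin 4 → ZMod p) (Additive.ofMul n2) ≠ 0 := by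
    by_contra hcon
    push Not at hcon
    exact hd' (AddMonoidHom.ext fun n => hcon n.toMul)
  refine sThreeB_two p π hπ ξ N (T (c : Fin 4 → ZMod p)) (T ((d - t • c : LinearMap.ker Φ) :
    Fin 4 → ZMod p)) n1 n2 hn1 ?_ hn2 (hstab c) (hstab _)
  rw [Submodule.coe_sub, Submodule.coe_smul, map_sub, map_smul]
  change T (d : Fin 4 → ZMod p) (Additive.ofMul n1) -
    t * T (c : Fin 4 → ZMod p) (Additive.ofMul n1) = 0
  rw [ht, div_mul_cancel₀ _ hn1, sub_self]

end

end Q62
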