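import Pool.Agent.W_04c03c_h62s.SHom
import Pool.Agent.W_04c03c_h62s.SCore
import Pool.Agent.W_04c03c_h62s.SThree
import Pool.Agent.W_04c03c_h62.ModPC

/-!
# The theorem on partial fillings of subgroups
-/

namespace Q62

open MulAction

section
variable {Γ : Type} [Group Γ] {Ξ S0 S1 S2 : Type} [MulAction Γ Ξ] [MulAction Γ S0]
    [MulAction Γ S1] [MulAction Γ S2] {P : WPD Γ Ξ S0 S1 S2} {Q : Type} [Group Q]

/-- The stabilizer of a translated point. -/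
theorem z2_smul {ξ : Ξ} (hz : Nonempty (stabilizer Γ ξ ≃* Multiplicative (ℤ × ℤ))) (g : Γ) :
    Nonempty (stabilizer Γ (g • ξ) ≃* Multiplicative (ℤ × ℤ)) := by
  obtain ⟨e⟩ := hz
  have h : (orbitRel Γ Ξ) (g • ξ) ξ := by
    rw [orbitRel_apply]
    exact ⟨g, rfl⟩
  exact ⟨(stabilizerEquivStabilizerOfOrbitRel h).trans e⟩

theorem z2_comm {ξ : Ξ} (hz : Nonempty (stabilizer Γ ξ ≃* Multiplicative (ℤ × ℤ))) :
    ∀ a ∈ stabilizer Γ ξ, ∀ b ∈ stabilizer Γ ξ, a * b = b * a := by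
  intro a ha b hb
  obtain ⟨e⟩ := hz
  have h1 : (⟨a, ha⟩ : stabilizer Γ ξ) * ⟨b, hb⟩ = ⟨b, hb⟩ * ⟨a, ha⟩ := by
    apply e.injective
    rw [map_mul, map_mul, mul_comm]
  have := congrArg (Subtype.val) h1
  simpa using this

/-- The equivalences for a partial filling, for duality data. -/
theorem Filled.tfae (D : Filled P Q) (hfp : Group.IsFinitelyPresented Q) (p : ℕ) [Fact p.Prime]
    (hfull : ∀ ξ : Ξ, Nonempty (stabilizer Γ ξ ≃* Multiplicative (ℤ × ℤ)) → P.Full ξ)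
    (ξ : Ξ) (hz : Nonempty (stabilizer Γ ξ ≃* Multiplicative (ℤ × ℤ)))
    (hun : ∀ j, ξ ∉ orbit Γ (D.η j)) :
    List.TFAE [IsLarge Q,
      ∃ N : Subgroup Q, N.FiniteIndex ∧ ∃ x : Fin 3 → Ξ,
        (∀ i, Nonempty (stabilizer Γ (x i) ≃* Multiplicative (ℤ × ℤ))) ∧
        (∀ i j, x i ∉ orbit Γ (D.η j)) ∧ ∀ i i', i ≠ i' → x i ∉ orbit (N.comap D.π) (x i'),
      ∃ N : Subgroup Q, N.FiniteIndex ∧
        ∃ f : Fin 3 → (Additive N →+ ℚ), LinearIndependent ℚ f,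
      ∃ N : Subgroup Q, N.FiniteIndex ∧
        ∃ f : Fin 4 → (Additive N →+ ZMod p), LinearIndependent (ZMod p) f,
      ∃ N : Subgroup Q, N.FiniteIndex ∧ ∃ ζ : Ξ,
        Nonempty (stabilizer Γ ζ ≃* Multiplicative (ℤ × ℤ)) ∧ (∀ j, ζ ∉ orbit Γ (D.η j)) ∧
        ∃ φ : Additive N →+ ℚ, φ ≠ 0 ∧
          ∀ (k : Γ) (hk : D.π k ∈ N), k • ζ = ζ → φ (Additive.ofMul ⟨D.π k, hk⟩) = 0,
      HasRichQuotient Q] := by
  have hpt : ∀ N : Subgroup Q, N.FiniteIndex → (∃ g : Fin 3 → Γ,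
      ∀ i j, i ≠ j → g i • ξ ∉ orbit (N.comap D.π) (g j • ξ)) →
      ∃ N : Subgroup Q, N.FiniteIndex ∧ ∃ x : Fin 3 → Ξ,
        (∀ i, Nonempty (stabilizer Γ (x i) ≃* Multiplicative (ℤ × ℤ))) ∧
        (∀ i j, x i ∉ orbit Γ (D.η j)) ∧ ∀ i i', i ≠ i' → x i ∉ orbit (N.comap D.π) (x i') := by
    rintro N hN ⟨g, hg⟩
    refine ⟨N, hN, fun i => g i • ξ, fun i => z2_smul hz (g i), ?_, hg⟩
    rintro i j ⟨k, hk⟩
    refine hun j ⟨(g i)⁻¹ * k, ?_⟩
    simp only at hk ⊢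
    rw [mul_smul, hk, inv_smul_smul]
  tfae_have 1 → 6 := rich_of_large
  tfae_have 6 → 2 := by
    intro h
    obtain ⟨N, hN, g, hg⟩ := three_of_rich h D.π D.surj ξ (z2_comm hz)
    exact hpt N hN ⟨g, hg⟩
  tfae_have 2 → 3 := by
    rintro ⟨N, hN, x, hx, hxu, hxne⟩
    exact D.homs N x (fun i => hfull _ (hx i)) hx hxne hxu
  tfae_have 3 → 5 := by
    rintro ⟨N, hN, f, hf⟩
    have hM := finiteIndex_comap D.π D.surj N
    obtain ⟨x, y, hxy, hgen, -⟩ := exists_basis_of_Z2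
      (z2_res hz (N.comap D.π) (finiteIndex_stab _ _))
    let π' : N.comap D.π →* N := D.π.subgroupComap N
    obtain ⟨φ, hadd, hx, hy, hne⟩ := exists_kill_two f hf (π' x) (π' y)
    obtain ⟨g0, hg0⟩ := hne
    refine ⟨N, hN, ξ, hz, hun, AddMonoidHom.mk' (fun g => φ g.toMul) (fun g h => hadd _ _), ?_, ?_⟩
    · intro h
      exact hg0 (DFunLike.congr_fun h (Additive.ofMul g0))
    · intro k hk hkξ
      obtain ⟨a, b, hab⟩ := hgen ⟨⟨k, hk⟩, hkξ⟩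
      have hab' : (⟨k, hk⟩ : N.comap D.π) = (x : N.comap D.π) ^ a * (y : N.comap D.π) ^ b := by
        have := congrArg (Subtype.val) hab
        simpa using this
      let φ' : Additive N →+ ℚ := AddMonoidHom.mk' (fun g => φ g.toMul) (fun g h => hadd _ _)
      show φ' (Additive.ofMul (π' ⟨k, hk⟩)) = 0
      have hx' : φ' (Additive.ofMul (π' x)) = 0 := hx
      have hy' : φ' (Additive.ofMul (π' y)) = 0 := hy
      rw [hab', map_mul, map_zpow, map_zpow, ofMul_mul, ofMul_zpow, ofMul_zpow, map_add, map_zsmul,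
        map_zsmul, hx', hy', smul_zero, smul_zero, add_zero]
  tfae_have 5 → 1 := by
    rintro ⟨N, hN, ζ, hzζ, hunζ, φ, hφ, hk⟩
    apply IsLarge.of_finiteIndex N
    obtain ⟨D', hπ, hD'⟩ := D.sub N
    have hM := finiteIndex_comap D.π D.surj N
    refine D'.large (FG_of_FP hfp N) (FPFree.of_finiteIndex hfp N) ζ
      ((hfull ζ hzζ).res _ (finiteIndex_stab _ _)) (z2_res hzζ _ (finiteIndex_stab _ _)) ?_ φ hφ ?_
    · rintro j' ⟨g, hg⟩
      obtain ⟨j, g', hg'⟩ := hD' j'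
      refine hunζ j ⟨(g : Γ) * g', ?_⟩
      simp only at hg' ⊢
      rw [mul_smul, hg']
      exact hg
    · intro k hkζ
      have h1 : D'.π k = ⟨D.π (k : Γ), k.2⟩ := Subtype.ext (hπ k)
      rw [h1]
      exact hk (k : Γ) k.2 hkζ
  tfae_have 1 → 4 := fun h => modp_of_large h p
  tfae_have 4 → 2 := by
    rintro ⟨N, hN, f, hf⟩
    obtain ⟨N', hN', g, hg⟩ := three_of_modp' p D.π D.surj ξ hz N f hf
    exact hpt N' hN' ⟨g, hg⟩
  tfae_finish

end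

/-- The theorem: partial fillings of arbitrary subgroups of the group of a duality pair. -/
theorem mainS (G Ξ : Type) [Group G] [MulAction G Ξ] (hpd : IsPDPair G Ξ)
    (hstab : ∀ ξ : Ξ, Nonempty (stabilizer G ξ ≃* Multiplicative (ℤ × ℤ)))
    (Γ : Subgroup G) (Q : Type) [Group Q] (hfp : Group.IsFinitelyPresented Q) (π : Γ →* Q)
    (hπ : Function.Surjective π) {m : ℕ} (η : Fin m → Ξ) (R : Fin m → Γ)
    (hη : ∀ j, Nonempty (stabilizer Γ (η j) ≃* Multiplicative (ℤ × ℤ)))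
    (hR : ∀ j, R j • η j = η j) (hne : ∀ j j', j ≠ j' → η j ∉ orbit Γ (η j'))
    (hker : π.ker = Subgroup.normalClosure (Set.range R)) (p : ℕ) [Fact p.Prime]
    (ξ : Ξ) (hz : Nonempty (stabilizer Γ ξ ≃* Multiplicative (ℤ × ℤ)))
    (hun : ∀ j, ξ ∉ orbit Γ (η j)) :
    List.TFAE [IsLarge Q,
      ∃ N : Subgroup Q, N.FiniteIndex ∧ ∃ x : Fin 3 → Ξ,
        (∀ i, Nonempty (stabilizer Γ (x i) ≃* Multiplicative (ℤ × ℤ))) ∧
        (∀ i j, x i ∉ orbit Γ (η j)) ∧ ∀ i i', i ≠ i' → x i ∉ orbit (N.comap π) (x i'),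
      ∃ N : Subgroup Q, N.FiniteIndex ∧
        ∃ f : Fin 3 → (Additive N →+ ℚ), LinearIndependent ℚ f,
      ∃ N : Subgroup Q, N.FiniteIndex ∧
        ∃ f : Fin 4 → (Additive N →+ ZMod p), LinearIndependent (ZMod p) f,
      ∃ N : Subgroup Q, N.FiniteIndex ∧ ∃ ζ : Ξ,
        Nonempty (stabilizer Γ ζ ≃* Multiplicative (ℤ × ℤ)) ∧ (∀ j, ζ ∉ orbit Γ (η j)) ∧
        ∃ φ : Additive N →+ ℚ, φ ≠ 0 ∧
          ∀ (k : Γ) (hk : π k ∈ N), k • ζ = ζ → φ (Additive.ofMul ⟨π k, hk⟩) = 0,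
      HasRichQuotient Q] := by
  obtain ⟨S0, S1, S2, _, _, _, ⟨P⟩⟩ := hpd
  have hfull : ∀ ξ : Ξ, Nonempty (stabilizer Γ ξ ≃* Multiplicative (ℤ × ℤ)) →
      (P.toWPD Γ).Full ξ := fun ξ h => PD.full Γ (index_stab (hstab ξ) Γ h)
  let D : Filled (P.toWPD Γ) Q :=
    { J := Fin m
      fin := inferInstance
      η := η
      R := R
      π := π
      surj := hπ
      ineq := hne
      fix := hR
      full := fun j => hfull _ (hη j)
      z2 := hη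
      ker := hker }
  exact D.tfae hfp p hfull ξ hz hun

end Q62
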