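import Pool.Agent.W_04c03c_h62s.SDefs

/-!
# Subgroups of groups isomorphic to `ℤ²`
-/

namespace Q62

open MulAction

theorem z2add_of_index (N : AddSubgroup (ℤ × ℤ)) (h : N.index ≠ 0) : Nonempty (N ≃+ (ℤ × ℤ)) := by
  let N' : Submodule ℤ (ℤ × ℤ) := AddSubgroup.toIntSubmodule N
  have hfin : Finite ((ℤ × ℤ) ⧸ N') := by
    have : N.FiniteIndex := ⟨h⟩
    exact (inferInstance : Finite ((ℤ × ℤ) ⧸ N))
  have hrank : Module.finrank ℤ N' = Module.finrank ℤ (ℤ × ℤ) := (Submodule.finiteQuotient_iff N').1 hfin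
  have e : N' ≃ₗ[ℤ] (ℤ × ℤ) := LinearEquiv.ofFinrankEq N' (ℤ × ℤ) hrank
  exact ⟨e.toAddEquiv⟩

theorem z2add_index (N : AddSubgroup (ℤ × ℤ)) (e : N ≃+ (ℤ × ℤ)) : N.index ≠ 0 := by
  let N' : Submodule ℤ (ℤ × ℤ) := AddSubgroup.toIntSubmodule N
  let e' : N' ≃ₗ[ℤ] (ℤ × ℤ) := AddEquiv.toIntLinearEquiv (e : N' ≃+ (ℤ × ℤ))
  have hrank : Module.finrank ℤ N' = Module.finrank ℤ (ℤ × ℤ) := e'.finrank_eq
  have hfin : Finite ((ℤ × ℤ) ⧸ N') := (Submodule.finiteQuotient_iff N').2 hrank
  have hfin' : Finite ((ℤ × ℤ) ⧸ N) := hfin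
  have hfi : N.FiniteIndex := AddSubgroup.finiteIndex_of_finite_quotient
  exact hfi.index_ne_zero

/-- A subgroup of finite index of a group isomorphic to `ℤ²` is isomorphic to `ℤ²`.

Proof. As an additive group it is a submodule of the free module `ℤ × ℤ` with finite quotient, so it
is free (`Submodule.nonempty_basis_of_pid` or `Module.Free` of submodules over a principal ideal
domain) of rank two (for instance it contains `n • (ℤ × ℤ)` with `n > 0`). -/
theorem z2_of_index {K : Type} [Group K] (e : Nonempty (K ≃* Multiplicative (ℤ × ℤ)))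
    (L : Subgroup K) [L.FiniteIndex] : Nonempty (L ≃* Multiplicative (ℤ × ℤ)) := by
  obtain ⟨e⟩ := e
  let M : Subgroup (Multiplicative (ℤ × ℤ)) := L.map (e : K →* Multiplicative (ℤ × ℤ))
  have hM : M.index = L.index := Subgroup.index_map_equiv L e
  let N : AddSubgroup (ℤ × ℤ) := Subgroup.toAddSubgroup' M
  have hN : N.index ≠ 0 := by
    change M.index ≠ 0
    rw [hM]
    exact Subgroup.FiniteIndex.index_ne_zero
  obtain ⟨f⟩ := z2add_of_index N hN
  let f' : M ≃* Multiplicative (ℤ × ℤ) := 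
    { toFun := fun x => Multiplicative.ofAdd (f ⟨Multiplicative.toAdd (x : Multiplicative (ℤ × ℤ)), x.2⟩)
      invFun := fun y => ⟨Multiplicative.ofAdd (f.symm (Multiplicative.toAdd y) : ℤ × ℤ), (f.symm (Multiplicative.toAdd y)).2⟩
      left_inv := fun x => by simp
      right_inv := fun y => by simp
      map_mul' := fun x y => by
        rw [← ofAdd_add, ← map_add]
        rfl }
  exact ⟨(e.subgroupMap L).trans f'⟩

/-- A subgroup isomorphic to `ℤ²` of a group isomorphic to `ℤ²` has finite index.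

Proof. As an additive group it is a submodule of rank two of `ℤ × ℤ`; the quotient is finite
(`Submodule.finiteQuotientOfFreeOfRankEq`). -/
theorem index_of_z2 {K : Type} [Group K] (e : Nonempty (K ≃* Multiplicative (ℤ × ℤ)))
    (L : Subgroup K) (e' : Nonempty (L ≃* Multiplicative (ℤ × ℤ))) : L.FiniteIndex := by
  obtain ⟨e⟩ := e
  obtain ⟨e'⟩ := e'
  let M : Subgroup (Multiplicative (ℤ × ℤ)) := L.map (e : K →* Multiplicative (ℤ × ℤ))
  have hM : M.index = L.index := Subgroup.index_map_equiv L e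
  let N : AddSubgroup (ℤ × ℤ) := Subgroup.toAddSubgroup' M
  let g : M ≃* Multiplicative (ℤ × ℤ) := (e.subgroupMap L).symm.trans e'
  let f : N ≃+ (ℤ × ℤ) :=
    { toFun := fun x => Multiplicative.toAdd (g ⟨Multiplicative.ofAdd (x : ℤ × ℤ), x.2⟩)
      invFun := fun y => ⟨Multiplicative.toAdd (g.symm (Multiplicative.ofAdd y) : Multiplicative (ℤ × ℤ)), (g.symm (Multiplicative.ofAdd y)).2⟩
      left_inv := fun x => by simp
      right_inv := fun y => by simp
      map_add' := fun x y => by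
        rw [← toAdd_mul, ← map_mul]
        rfl }
  have hN := z2add_index N f
  refine ⟨?_⟩
  rw [← hM]
  exact hN

end Q62
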