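import Pool.Agent.W_04c03c_h62s.SBase

/-!
# Delta functions: expansions and pairings
-/

namespace Q62

open MulAction

section
variable {Γ : Type} [Group Γ] {S : Type} [MulAction Γ S] {F : Type} [Field F]

/-- Every function of `GF` is a combination of delta functions on representatives.

Proof. Let `t` be the finite set of `v ∈ GFin`, `I` the (finite) image of `t` in the orbit set. Then
`v = ∑ q ∈ I, v q.out • δ q.out`: at `s` in the orbit `q`, `s = g • q.out`, both sides are
`χ g * v q.out` if `q ∈ I`, and if `q ∉ I` then `v s = 0` and the right hand side is zero. -/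
theorem sum_delta {χ : Γ →* Fˣ} {δ : S → (S → F)} (h1 : ∀ b, δ b ∈ GF S F χ)
    (h2 : ∀ b, δ b b = 1) (h3 : ∀ b s, s ∉ orbit Γ b → δ b s = 0) {v : S → F}
    (hv : v ∈ GF S F χ) :
    ∃ I : Finset (orbitRel.Quotient Γ S), (∀ q : orbitRel.Quotient Γ S, q ∉ I → v q.out = 0) ∧
      v = ∑ q ∈ I, v q.out • δ q.out := by
  classical
  have hv1 : ∀ (g : Γ) (s : S), v (g • s) = (χ g : F) * v s := hv.1
  have hd1 : ∀ (b : S) (g : Γ) (s : S), δ b (g • s) = (χ g : F) * δ b s := fun b => (h1 b).1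
  obtain ⟨t, ht⟩ := hv.2
  set mk : S → orbitRel.Quotient Γ S := fun s => Quotient.mk'' s with hmk
  have hmk' : ∀ (g : Γ) (s : S), mk (g • s) = mk s := fun g s =>
    Quotient.sound (s := orbitRel Γ S) (orbitRel_apply.2 ⟨g, rfl⟩)
  have hout : ∀ q : orbitRel.Quotient Γ S, mk q.out = q := fun q => Quotient.out_eq q
  have hrep : ∀ s : S, ∃ g : Γ, s = g • (mk s).out := by
    intro s
    have := Quotient.exact (s := orbitRel Γ S) (Quotient.out_eq (mk s))
    obtain ⟨g, hg⟩ := orbitRel_apply.1 this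
    have hg' : g • s = (mk s).out := hg
    exact ⟨g⁻¹, by rw [← hg', inv_smul_smul]⟩
  have hI : ∀ q : orbitRel.Quotient Γ S, q ∉ t.image mk → v q.out = 0 := by
    intro q hq
    by_contra hcon
    obtain ⟨g, s', hs', he⟩ := ht _ hcon
    apply hq
    rw [Finset.mem_image]
    refine ⟨s', hs', ?_⟩
    rw [← hout q, he, hmk']
  refine ⟨t.image mk, hI, ?_⟩
  funext s
  rw [Finset.sum_apply]
  obtain ⟨g, hg⟩ := hrep s
  have hz : ∀ q ∈ t.image mk, q ≠ mk s → (v q.out • δ q.out) s = 0 := by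
    intro q _ hq
    rw [Pi.smul_apply, smul_eq_mul, h3 q.out s, mul_zero]
    rintro ⟨k, hk⟩
    have hk' : k • q.out = s := hk
    apply hq
    rw [← hk', hmk', hout]
  have hval : (v (mk s).out • δ (mk s).out) s = v s := by
    rw [Pi.smul_apply, smul_eq_mul]
    have e1 : δ (mk s).out s = (χ g : F) := by
      conv_lhs => rw [hg]
      rw [hmk', hout, hd1, h2, mul_one]
    have e2 : v s = (χ g : F) * v (mk s).out := by
      conv_lhs => rw [hg]
      rw [hv1]
    rw [e1, e2, mul_comm]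
  by_cases hs : mk s ∈ t.image mk
  · rw [Finset.sum_eq_single_of_mem _ hs hz, hval]
  · rw [Finset.sum_eq_zero fun q hq => hz q hq fun h => hs (h ▸ hq), ← hval, Pi.smul_apply,
      hI _ hs, zero_smul]

/-- The pairing with a delta function is the value.

Proof. Let `u ∈ VF F χ⁻¹ S`. Only the orbit `q` of `b` contributes: if `q.out = g • b` the term is
`u (g • b) * δ b (g • b) = (χ⁻¹ g * u b) * (χ g * 1) = u b` (`finsum_eq_single`). -/
theorem pair_delta {χ : Γ →* Fˣ} {δ : S → (S → F)} (h1 : ∀ b, δ b ∈ GF S F χ⁻¹)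
    (h2 : ∀ b, δ b b = 1) (h3 : ∀ b s, s ∉ orbit Γ b → δ b s = 0) {u : S → F}
    (hu : u ∈ VF F χ S) (b : S) : pair Γ u (δ b) = u b := by
  classical
  have hu1 : ∀ (g : Γ) (s : S), u (g • s) = (χ g : F) * u s := hu
  have hd1 : ∀ (b : S) (g : Γ) (s : S), δ b (g • s) = ((χ⁻¹ : Γ →* Fˣ) g : F) * δ b s :=
    fun b => (h1 b).1
  unfold pair
  rw [finsum_eq_single _ (Quotient.mk'' b : orbitRel.Quotient Γ S)]
  · have := Quotient.exact (s := orbitRel Γ S)
      (Quotient.out_eq (Quotient.mk'' b : orbitRel.Quotient Γ S))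
    obtain ⟨g, hg⟩ := orbitRel_apply.1 this
    have hg' : g • b = (Quotient.mk'' b : orbitRel.Quotient Γ S).out := hg
    rw [← hg', hu1, hd1, h2, MonoidHom.inv_apply, mul_one, mul_comm, ← mul_assoc,
      ← Units.val_mul, inv_mul_cancel, Units.val_one, one_mul]
  · intro q hq
    rw [h3 b q.out, mul_zero]
    rintro ⟨k, hk⟩
    have hk' : k • b = q.out := hk
    apply hq
    rw [← Quotient.out_eq q, ← hk']
    exact Quotient.sound (s := orbitRel Γ S) (orbitRel_apply.2 ⟨k, rfl⟩)

end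

end Q62
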