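import Pool.Agent.W_04c03c_h62s.SExch
import Pool.Agent.W_04c03c_h62s.SDelta

/-!
# Double annihilators
-/

namespace Q62

open MulAction

section
variable {Γ : Type} [Group Γ] {S T : Type} [MulAction Γ S] [MulAction Γ T] {F : Type} [Field F]

/-- A function of `GF T F χ⁻¹` which is orthogonal to all `u` in the kernel of `M.pull` is in the
image of `M.tp.pull`.

Proof. Let `W ≤ GF T F χ⁻¹` be the set of the `M.tp.pull v'` with `v' ∈ GF S F χ⁻¹` (in `GF` by
`GF.pull` for `M.tp`), as a submodule of the vector space `GF T F χ⁻¹` (the range of a linear map).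
If `v ∉ W` there is a linear functional `φ` on `GF T F χ⁻¹` which vanishes on `W` with `φ v ≠ 0`
(`Submodule.exists_le_ker_of_notMem` or `Submodule.exists_dual_map_eq_bot_of_notMem`). Let `δ` be the
delta functions for `χ⁻¹` on `T` (`exists_delta`), and `u b = φ (δ b)`. Then `u ∈ VF F χ T`:
`u (g • b) = φ ((χ⁻¹ g)⁻¹ • δ b) = χ g * u b`. For all `v ∈ GF T F χ⁻¹`, `pair Γ u v = φ v`: write
`v = ∑ q ∈ I, v q.out • δ q.out` (`sum_delta`), so `φ v = ∑ q ∈ I, v q.out * u q.out`, and this is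
`pair Γ u v` (`finsum_eq_sum_of_support_subset`). Next `M.pull u = 0`: with the delta functions `δ'` for
`χ⁻¹` on `S`, `M.pull u s = pair Γ (M.pull u) (δ' s)` (`pair_delta`) `= pair Γ u (M.tp.pull (δ' s))`
(`pair_pull`) `= φ (M.tp.pull (δ' s)) = 0`. So `φ v = pair Γ u v = 0` by hypothesis, contradiction. -/
theorem double_ann (M : IMat Γ S T) (hS : ∀ (g : Γ) (s : S), g • s = s → g = 1)
    (hT : ∀ (g : Γ) (t : T), g • t = t → g = 1) {χ : Γ →* Fˣ} {v : T → F}
    (hv : v ∈ GF T F χ⁻¹) (h : ∀ u ∈ VF F χ T, M.pull u = 0 → pair Γ u v = 0) :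
    ∃ v' ∈ GF S F χ⁻¹, M.tp.pull v' = v := by
  classical
  obtain ⟨δ, d1, d2, d3, d4⟩ := exists_delta (F := F) hT χ⁻¹
  obtain ⟨δ', e1, e2, e3, -⟩ := exists_delta (F := F) hS χ⁻¹
  set W : Submodule F (T → F) := (GF S F χ⁻¹).map M.tp.pullL with hW
  by_cases hvW : v ∈ W
  · obtain ⟨v', hv', he⟩ := hvW
    exact ⟨v', hv', he⟩
  exfalso
  obtain ⟨φ, hφ, hker⟩ := Submodule.exists_le_ker_of_notMem hvW
  set u : T → F := fun b => φ (δ b) with hu
  have huV : u ∈ VF F χ T := by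
    intro g b
    have h1 : ((((χ⁻¹ : Γ →* Fˣ) g)⁻¹ : Fˣ) : F) = (χ g : F) := by
      rw [MonoidHom.inv_apply, inv_inv]
    simp only [hu]
    rw [d4, map_smul, smul_eq_mul, h1]
  have hpair : ∀ x ∈ GF T F χ⁻¹, pair Γ u x = φ x := by
    intro x hx
    obtain ⟨I, hI, hxe⟩ := sum_delta d1 d2 d3 hx
    have h1 : φ x = ∑ q ∈ I, u q.out * x q.out := by
      conv_lhs => rw [hxe]
      rw [map_sum]
      refine Finset.sum_congr rfl fun q _ => ?_
      rw [map_smul, smul_eq_mul, mul_comm]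
    rw [h1]
    unfold pair
    refine finsum_eq_sum_of_support_subset _ ?_
    intro q hq
    by_contra hqI
    apply hq
    simp only
    rw [hI q hqI, mul_zero]
  have hpull : M.pull u = 0 := by
    funext s
    have h1 : M.pull u ∈ VF F χ S := M.pull_mem χ huV
    rw [← pair_delta e1 e2 e3 h1 s, pair_pull M hS hT huV (e1 s), hpair _ (GF.pull M.tp (e1 s))]
    have h2 : M.tp.pull (δ' s) ∈ W := ⟨δ' s, e1 s, rfl⟩
    exact hker h2
  have := h u huV hpull
  rw [hpair v hv] at this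
  exact hφ this

end

end Q62
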