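import Pool.Agent.W_04c03c_h62s.SDefs

/-!
# Transposed matrices, functions with support finite modulo the group
-/

namespace Q62

open MulAction

/-- The transposed matrix. -/
def IMat.tp {G : Type*} [Group G] {S T : Type*} [MulAction G S] [MulAction G T]
    (M : IMat G S T) : IMat G T S where
  row := M.col
  col := M.row
  tr := fun s t => (M.tr t s).symm
  inv := fun g s t => by
    rw [← M.tr, ← M.tr]
    exact M.inv g t s

theorem IMat.tp_rowMap {G : Type*} [Group G] {S T : Type*} [MulAction G S] [MulAction G T]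
    (M : IMat G S T) : M.tp.rowMap = M.colMap := rfl

section
variable {S F : Type} [Field F]

theorem evW_zero (x : S →₀ ℤ) : ev (0 : S → F) x = 0 := by
  induction x using Finsupp.induction_linear with
  | zero => simp
  | add a b ha hb => rw [map_add, ha, hb, add_zero]
  | single s n => rw [ev_single]; simp

theorem evW_add (u v : S → F) (x : S →₀ ℤ) : ev (u + v) x = ev u x + ev v x := by
  induction x using Finsupp.induction_linear with
  | zero => simp
  | add a b ha hb => rw [map_add, ha, hb, map_add, map_add]; ring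
  | single s n => rw [ev_single, ev_single, ev_single, Pi.add_apply]; ring

theorem evW_smul (c : F) (u : S → F) (x : S →₀ ℤ) : ev (c • u) x = c * ev u x := by
  induction x using Finsupp.induction_linear with
  | zero => simp
  | add a b ha hb => rw [map_add, ha, hb, map_add]; ring
  | single s n => rw [ev_single, ev_single, Pi.smul_apply, smul_eq_mul]; ring

end

section
variable {Γ : Type} [Group Γ] {S T : Type} [MulAction Γ S] [MulAction Γ T] {F : Type} [Field F]

/-- `M.pull` as a linear map on all functions. -/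
noncomputable def IMat.pullL (M : IMat Γ S T) : (T → F) →ₗ[F] (S → F) where
  toFun u := M.pull u
  map_add' := by
    intro u v
    funext s
    exact evW_add u v _
  map_smul' := by
    intro c u
    funext s
    exact evW_smul c u _

theorem IMat.pullL_apply (M : IMat Γ S T) (u : T → F) : M.pullL u = M.pull u := rfl

theorem GFin.zero : GFin Γ (0 : S → F) := ⟨∅, fun _ hs => absurd rfl hs⟩

theorem GFin.add {u v : S → F} (hu : GFin Γ u) (hv : GFin Γ v) : GFin Γ (u + v) := by
  classical
  obtain ⟨t, ht⟩ := hu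
  obtain ⟨t', ht'⟩ := hv
  refine ⟨t ∪ t', fun s hs => ?_⟩
  by_cases h : u s = 0
  · have h2 : v s ≠ 0 := by
      intro h3
      apply hs
      rw [Pi.add_apply, h, h3, add_zero]
    obtain ⟨g, s', hs', he⟩ := ht' s h2
    exact ⟨g, s', Finset.mem_union_right _ hs', he⟩
  · obtain ⟨g, s', hs', he⟩ := ht s h
    exact ⟨g, s', Finset.mem_union_left _ hs', he⟩

theorem GFin.smul {u : S → F} (hu : GFin Γ u) (c : F) : GFin Γ (c • u) := by
  obtain ⟨t, ht⟩ := hu
  refine ⟨t, fun s hs => ht s fun h => hs ?_⟩
  rw [Pi.smul_apply, h, smul_zero]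

theorem GFin.sum {ι : Type} (I : Finset ι) (u : ι → S → F) (hu : ∀ i, GFin Γ (u i)) :
    GFin Γ (∑ i ∈ I, u i) := by
  classical
  induction I using Finset.induction_on with
  | empty => rw [Finset.sum_empty]; exact GFin.zero
  | insert a I ha ih => rw [Finset.sum_insert ha]; exact (hu a).add ih

/-- The coboundary of a function with support finite modulo `Γ`.

If `(M.pull u) s = ev u (M.row s) ≠ 0` then `u t ≠ 0` for some `t` with `M.row s t ≠ 0`; `t = g • t'`
with `t'` in the finite set of `u`, so `M.row (g⁻¹ • s) t' ≠ 0`, i.e. `g⁻¹ • s ∈ (M.col t').support`.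
Take the union of the finite sets `(M.col t').support`. -/
theorem GFin.pull (M : IMat Γ S T) {u : T → F} (hu : GFin Γ u) : GFin Γ (M.pull u) := by
  classical
  obtain ⟨t, ht⟩ := hu
  refine ⟨t.biUnion fun t' => (M.col t').support, fun s hs => ?_⟩
  have h1 : ∃ x ∈ (M.row s).support, u x ≠ 0 := by
    by_contra hcon
    push Not at hcon
    apply hs
    unfold IMat.pull ev
    rw [Finsupp.linearCombination_apply]
    refine Finset.sum_eq_zero fun x hx => ?_
    show (M.row s) x • u x = 0
    rw [hcon x hx, smul_zero]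
  obtain ⟨x, hx, hux⟩ := h1
  obtain ⟨g, t', ht', rfl⟩ := ht x hux
  refine ⟨g, g⁻¹ • s, ?_, by simp⟩
  rw [Finset.mem_biUnion]
  refine ⟨t', ht', ?_⟩
  rw [Finsupp.mem_support_iff] at hx ⊢
  rw [← M.tr]
  have h2 := M.inv g (g⁻¹ • s) t'
  rw [smul_inv_smul] at h2
  rw [← h2]
  exact hx

variable (F S) in
/-- Equivariant functions with support finite modulo `Γ`. -/
def GF (χ : Γ →* Fˣ) : Submodule F (S → F) where
  carrier := {u | u ∈ VF F χ S ∧ GFin Γ u}
  add_mem' := fun ha hb => ⟨(VF F χ S).add_mem ha.1 hb.1, ha.2.add hb.2⟩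
  zero_mem' := ⟨(VF F χ S).zero_mem, GFin.zero⟩
  smul_mem' := fun c _ ha => ⟨(VF F χ S).smul_mem c ha.1, ha.2.smul c⟩

theorem mem_GF {χ : Γ →* Fˣ} {u : S → F} : u ∈ GF S F χ ↔ u ∈ VF F χ S ∧ GFin Γ u := Iff.rfl

theorem GF.pull (M : IMat Γ S T) {χ : Γ →* Fˣ} {u : T → F} (hu : u ∈ GF T F χ) :
    M.pull u ∈ GF S F χ :=
  ⟨M.pull_mem χ hu.1, hu.2.pull M⟩

/-- The product of a function with support finite modulo `Γ` with any function has finite support on
representatives. -/
theorem GFin.finite {v : S → F} (hv : GFin Γ v) (u : S → F) :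
    (Function.support fun q : orbitRel.Quotient Γ S => u q.out * v q.out).Finite := by
  classical
  obtain ⟨t, ht⟩ := hv
  refine (t.image fun s => (Quotient.mk _ s : orbitRel.Quotient Γ S)).finite_toSet.subset ?_
  intro q hq
  have h1 : v q.out ≠ 0 := right_ne_zero_of_mul hq
  obtain ⟨g, s', hs', he⟩ := ht _ h1
  rw [Finset.mem_coe, Finset.mem_image]
  refine ⟨s', hs', ?_⟩
  rw [← Quotient.out_eq q, he]
  refine (Quotient.sound ?_).symm
  exact ⟨g, rfl⟩

theorem pair_add_left {u u' v : S → F} (hv : GFin Γ v) :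
    pair Γ (u + u') v = pair Γ u v + pair Γ u' v := by
  unfold pair
  rw [← finsum_add_distrib (hv.finite u) (hv.finite u')]
  refine finsum_congr fun q => ?_
  rw [Pi.add_apply]
  ring

theorem pair_smul_left {u v : S → F} (c : F) (hv : GFin Γ v) :
    pair Γ (c • u) v = c * pair Γ u v := by
  unfold pair
  rw [← smul_eq_mul, smul_finsum' c (hv.finite u)]
  refine finsum_congr fun q => ?_
  simp only [Pi.smul_apply, smul_eq_mul]
  ring

theorem pair_add_right {u v v' : S → F} (hv : GFin Γ v) (hv' : GFin Γ v') :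
    pair Γ u (v + v') = pair Γ u v + pair Γ u v' := by
  unfold pair
  rw [← finsum_add_distrib (hv.finite u) (hv'.finite u)]
  refine finsum_congr fun q => ?_
  rw [Pi.add_apply]
  ring

theorem pair_smul_right {u v : S → F} (c : F) (hv : GFin Γ v) :
    pair Γ u (c • v) = c * pair Γ u v := by
  unfold pair
  rw [← smul_eq_mul, smul_finsum' c (hv.finite u)]
  refine finsum_congr fun q => ?_
  simp only [Pi.smul_apply, smul_eq_mul]
  ring

end

end Q62
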