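import Pool.Agent.W_04c03c_h62s.SBase

/-!
# Cocycles and crossed homomorphisms
-/

namespace Q62

open MulAction

section
variable {Γ : Type} [Group Γ] {Ξ S0 S1 S2 : Type} [MulAction Γ Ξ] [MulAction Γ S0]
    [MulAction Γ S1] [MulAction Γ S2] (P : WPD Γ Ξ S0 S1 S2) {F : Type} [Field F]

/-- Every difference of two points of `S0` is a boundary (copy of `PD.exists_path`). -/
theorem SCross_path (s0 : S0) :
    ∃ z : S0 → (S1 →₀ ℤ), ∀ s, P.D1.rowMap (z s) = Finsupp.single s 1 - Finsupp.single s0 1 := by
  have h : ∀ s : S0, ∃ y : S1 →₀ ℤ,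
      P.D1.rowMap y = Finsupp.single s 1 - Finsupp.single s0 1 := by
    intro s
    have h1 : (Finsupp.single s 1 - Finsupp.single s0 1 : S0 →₀ ℤ) ∈
        LinearMap.ker (waug fun _ : S0 => 1) := by
      rw [LinearMap.mem_ker]
      simp [waug]
    rw [← P.ex0] at h1
    exact h1
  choose z hz using h
  exact ⟨z, hz⟩

/-- Copy of `PD.ev_eq`. -/
theorem SCross_ev_eq {u : S1 → F} (hu : P.D2.pull u = 0) {x y : S1 →₀ ℤ}
    (h : P.D1.rowMap x = P.D1.rowMap y) : ev u x = ev u y := by
  have h1 : x - y ∈ LinearMap.ker P.D1.rowMap := by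
    rw [LinearMap.mem_ker, map_sub, h, sub_self]
  rw [P.ex1] at h1
  obtain ⟨c, hc⟩ := h1
  have h2 : ev u (P.D2.rowMap c) = 0 := by
    rw [← IMat.ev_pull, hu]
    exact evW_zero c
  rw [hc, map_sub, sub_eq_zero] at h2
  exact h2

/-- The translate of a path. -/
theorem SCross_translate {s0 : S0} {z : S0 → (S1 →₀ ℤ)}
    (hz : ∀ s, P.D1.rowMap (z s) = Finsupp.single s 1 - Finsupp.single s0 1) {u : S1 → F}
    {χ : Γ →* Fˣ} (hu : u ∈ VF F χ S1) (hu0 : P.D2.pull u = 0) (g : Γ) (s : S0) :
    ev u (z (g • s)) = (χ g : F) * ev u (z s) + ev u (z (g • s0)) := by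
  rw [← ev_mapDomain χ hu, ← map_add]
  refine SCross_ev_eq P hu0 ?_
  rw [map_add, IMat.rowMap_mapDomain, hz, hz, hz]
  have h1 : (Finsupp.single s (1 : ℤ) - Finsupp.single s0 1).mapDomain (g • ·) =
      Finsupp.single (g • s) (1 : ℤ) - Finsupp.single (g • s0) 1 := by
    rw [sub_eq_add_neg, ← Finsupp.single_neg, Finsupp.mapDomain_add, Finsupp.mapDomain_single,
      Finsupp.mapDomain_single, Finsupp.single_neg, ← sub_eq_add_neg]
  rw [h1]
  abel

/-- The potential is a primitive. -/
theorem SCross_pull {s0 : S0} {z : S0 → (S1 →₀ ℤ)}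
    (hz : ∀ s, P.D1.rowMap (z s) = Finsupp.single s 1 - Finsupp.single s0 1) {u : S1 → F}
    (hu0 : P.D2.pull u = 0) : P.D1.pull (fun s => ev u (z s)) = u := by
  funext b
  have key : ∀ x : S0 →₀ ℤ, ev (fun s => ev u (z s)) x =
      ev u (Finsupp.linearCombination ℤ z x) := by
    intro x
    induction x using Finsupp.induction_linear with
    | zero => simp
    | add a b ha hb => rw [map_add, ha, hb, map_add, map_add]
    | single s n =>
      rw [ev_single, Finsupp.linearCombination_single, map_zsmul]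
      simp
  have hb : P.D1.row b ∈ LinearMap.ker (waug fun _ : S0 => 1) := by
    rw [← P.ex0]
    refine ⟨Finsupp.single b 1, ?_⟩
    simp [IMat.rowMap]
  rw [LinearMap.mem_ker] at hb
  have hbd : ∀ x : S0 →₀ ℤ, P.D1.rowMap (Finsupp.linearCombination ℤ z x) =
      x - (waug (fun _ : S0 => 1) x) • Finsupp.single s0 1 := by
    intro x
    induction x using Finsupp.induction_linear with
    | zero => simp
    | add a b ha hb =>
      rw [map_add, map_add, ha, hb, map_add, add_smul]
      abel
    | single s n =>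
      rw [Finsupp.linearCombination_single, map_zsmul, hz]
      simp [waug, smul_sub]
  have h2 : ev u (Finsupp.linearCombination ℤ z (P.D1.row b)) = ev u (Finsupp.single b 1) := by
    refine SCross_ev_eq P hu0 ?_
    rw [hbd, hb, zero_smul, sub_zero]
    simp [IMat.rowMap]
  show ev (fun s => ev u (z s)) (P.D1.row b) = u b
  rw [key, h2, ev_single]
  simp

/-- The crossed homomorphism of a cocycle, as a linear map, and the potentials of the cocycles.

Proof. The files `Chi` (`PD.exists_path`, `PD.ev_eq`), `CrossB` (`PD.crossed`) of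
`Pool.Agent.W_04c03c_h62` prove this for `PD`, using only `P.ex0` and `P.ex1` (which `WPD` has as
well): copy these proofs. With `s0 : S0` and `z` with `P.D1.rowMap (z s) = single s 1 - single s0 1`
let `Θ u = (fun g => ev u (z (g • s0)))`, crossed by the copy of `PD.crossed`, linear by `evW_add`,
`evW_smul`; and `v a = ev u (z a)`. `P.D1.pull v = u`: `ev v (P.D1.row b) =
ev u (linearCombination ℤ z (P.D1.row b))`, and the chain `linearCombination ℤ z (P.D1.row b)` has the
boundary `P.D1.row b - (∑ a, D1 b a) • single s0 1 = P.D1.row b`, the same as `single b 1`; use the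
copy of `PD.ev_eq` (see the proof of `PD.principal` in `CrossC`). `v (g • a) = χ g * v a + Θ u g`:
`z (g • a)` and `(z a).mapDomain (g • ·) + z (g • s0)` have the same boundary. -/
theorem WPD.exists_theta (χ : Γ →* Fˣ) :
    ∃ Θ : (LinearMap.ker (P.D2.pullV (F := F) χ)) →ₗ[F] XHom χ,
      ∀ u : LinearMap.ker (P.D2.pullV (F := F) χ),
        ∃ v : S0 → F, P.D1.pull v = u.1.1 ∧
          ∀ (g : Γ) (a : S0), v (g • a) = (χ g : F) * v a + (Θ u).1 g := by
  obtain ⟨s0⟩ := P.ne0
  obtain ⟨z, hz⟩ := SCross_path P s0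
  have hker : ∀ u : LinearMap.ker (P.D2.pullV (F := F) χ), P.D2.pull u.1.1 = 0 := by
    intro u
    have h1 := u.2
    rw [LinearMap.mem_ker] at h1
    have h2 := congrArg Subtype.val h1
    exact h2
  refine ⟨{ toFun := fun u => ⟨fun g => ev u.1.1 (z (g • s0)), ?_⟩, map_add' := ?_,
            map_smul' := ?_ }, ?_⟩
  · intro g h
    have := SCross_translate P hz u.1.2 (hker u) g (h • s0)
    simp only
    rw [mul_smul, this]
    ring
  · intro u v
    apply Subtype.ext
    funext g
    exact evW_add _ _ _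
  · intro c u
    apply Subtype.ext
    funext g
    exact evW_smul _ _ _
  · intro u
    exact ⟨fun s => ev u.1.1 (z s), SCross_pull P hz (hker u), fun g a =>
      SCross_translate P hz u.1.2 (hker u) g a⟩

end

end Q62
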