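import Pool.Agent.W_04c03c_h62s.SBase
import Pool.Agent.W_04c03c_h62.VDim

/-!
# Delta functions: existence
-/

namespace Q62

open MulAction

section
variable {Γ : Type} [Group Γ] {S : Type} [MulAction Γ S] {F : Type} [Field F]

/-- Delta functions on a free `Γ`-set.

Proof. `δ b` is the function with `δ b (g • b) = χ g` and zero outside the orbit of `b` (well defined
because the action is free). Existence for one `b`: as in `VDim_delta` of
`Pool.Agent.W_04c03c_h62.VDim` (a function `u ∈ VF F χ S` with `u b = 1`, zero outside the orbit of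
`b`; the hypothesis on the stabilizer holds because it is trivial); such a function is unique, since
an equivariant function is determined by its value at `b` and zero outside the orbit. It is
`GFin` with the finite set `{b}`. `δ (g • b) = (χ g)⁻¹ • δ b`: both have the value `1` at `g • b`. -/
theorem exists_delta (hS : ∀ (g : Γ) (s : S), g • s = s → g = 1) (χ : Γ →* Fˣ) :
    ∃ δ : S → (S → F), (∀ b, δ b ∈ GF S F χ) ∧ (∀ b, δ b b = 1) ∧
      (∀ b s, s ∉ orbit Γ b → δ b s = 0) ∧
      ∀ (g : Γ) (b : S), δ (g • b) = (((χ g)⁻¹ : Fˣ) : F) • δ b := by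
  classical
  have hst : ∀ b : S, ∀ g ∈ stabilizer Γ b, χ g = 1 := by
    intro b g hg
    rw [hS g b (mem_stabilizer_iff.1 hg), map_one]
  choose δ h1 h2 h3 using fun b : S => VDim_delta (G := Γ) χ b (hst b)
  have h1' : ∀ (b : S) (g : Γ) (s : S), δ b (g • s) = (χ g : F) * δ b s := fun b => h1 b
  refine ⟨δ, fun b => ⟨h1 b, {b}, fun s hs => ?_⟩, h2, h3, fun g b => ?_⟩
  · have hs' : s ∈ orbit Γ b := by
      by_contra hcon
      exact hs (h3 b s hcon)
    obtain ⟨g, hg⟩ := hs'
    exact ⟨g, b, Finset.mem_singleton_self b, hg.symm⟩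
  · funext s
    rw [Pi.smul_apply, smul_eq_mul]
    by_cases hs : s ∈ orbit Γ b
    · obtain ⟨k, hk⟩ := hs
      have hk' : k • b = s := hk
      have e1 : s = (k * g⁻¹) • (g • b) := by
        rw [← hk', mul_smul, inv_smul_smul]
      have e2 : δ (g • b) s = (χ (k * g⁻¹) : F) := by
        conv_lhs => rw [e1]
        rw [h1', h2, mul_one]
      have e3 : δ b s = (χ k : F) := by
        rw [← hk', h1', h2, mul_one]
      rw [e2, e3, map_mul, map_inv, Units.val_mul, mul_comm]
    · have hs' : s ∉ orbit Γ (g • b) := by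
        rw [orbit_smul]
        exact hs
      rw [h3 _ _ hs, h3 _ _ hs', mul_zero]

end

end Q62
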