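import Pool.Agent.W_04c03c_h62s.SExchA

/-!
# Adjointness
-/

namespace Q62

open MulAction

section
variable {Γ : Type} [Group Γ] {S T : Type} [MulAction Γ S] [MulAction Γ T] {F : Type} [Field F]

theorem SExch_ev {X : Type} (w : X → F) (x : X →₀ ℤ) :
    ev w x = ∑ᶠ t, (x t : F) * w t := by
  unfold ev
  rw [Finsupp.linearCombination_apply]
  symm
  refine (finsum_eq_sum_of_support_subset _ ?_).trans (Finset.sum_congr rfl fun t _ => ?_)
  · intro t ht
    rw [Finset.mem_coe, Finsupp.mem_support_iff]
    intro h0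
    apply ht
    simp only [h0, Int.cast_zero, zero_mul]
  · simp only [zsmul_eq_mul]

theorem SExch_fin {X : Type} (w : X → F) (x : X →₀ ℤ) :
    (Function.support fun t => (x t : F) * w t).Finite := by
  refine x.support.finite_toSet.subset fun t ht => ?_
  rw [Finset.mem_coe, Finsupp.mem_support_iff]
  intro h0
  apply ht
  simp only [h0, Int.cast_zero, zero_mul]

/-- Adjointness of the coboundary and of the transposed coboundary.

Proof. Apply `exchangeW` to `f s t = M.row s t * u t * v s`. Invariance: `M.inv`, and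
`u (g • t) * v (g • s) = (χ g * u t) * (χ⁻¹ g * v s) = u t * v s`. `hfin` from `GFin Γ v`. Rows: the
support is in `(M.row s).support`; columns: in `(M.col t).support` (`M.tr`). The row sum
`∑ᶠ t, M.row q.out t * u t * v q.out` is `M.pull u q.out * v q.out` and the column sum
`∑ᶠ s, M.row s r.out * u r.out * v s` is `u r.out * M.tp.pull v r.out` (`ev` is
`Finsupp.linearCombination`, and `finsum_eq_sum_of_support_subset`). -/
theorem pair_pull (M : IMat Γ S T) (hS : ∀ (g : Γ) (s : S), g • s = s → g = 1)
    (hT : ∀ (g : Γ) (t : T), g • t = t → g = 1) {χ : Γ →* Fˣ} {u : T → F}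
    (hu : u ∈ VF F χ T) {v : S → F} (hv : v ∈ GF S F χ⁻¹) :
    pair Γ (M.pull u) v = pair Γ u (M.tp.pull v) := by
  have h0 := mem_GF.1 hv
  have key := exchangeW hS hT (fun s t => (M.row s t : F) * u t * v s) ?_ ?_ ?_ ?_
  · have h1 : ∀ q : orbitRel.Quotient Γ S, ∑ᶠ t, (M.row q.out t : F) * u t * v q.out =
        M.pull u q.out * v q.out := by
      intro q
      have h2 : M.pull u q.out = ∑ᶠ t, (M.row q.out t : F) * u t := SExch_ev u (M.row q.out)
      rw [h2, finsum_mul' _ _ (SExch_fin u (M.row q.out))]
    have h3 : ∀ r : orbitRel.Quotient Γ T, ∑ᶠ s, (M.row s r.out : F) * u r.out * v s =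
        u r.out * M.tp.pull v r.out := by
      intro r
      have h4 : M.tp.pull v r.out = ∑ᶠ s, (M.col r.out s : F) * v s := SExch_ev v (M.col r.out)
      rw [h4, mul_finsum' _ _ (SExch_fin v (M.col r.out))]
      refine finsum_congr fun s => ?_
      rw [M.tr]
      ring
    unfold pair
    rw [← finsum_congr h1, ← finsum_congr h3]
    exact key
  · intro g s t
    rw [M.inv, hu g t, h0.1 g s]
    have h5 : ((χ g : Fˣ) : F) * ((χ⁻¹ g : Fˣ) : F) = 1 := by
      rw [MonoidHom.inv_apply, Units.mul_inv]
    linear_combination (M.row s t : F) * u t * v s * h5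
  · obtain ⟨t0, ht0⟩ := h0.2
    refine ⟨t0, fun s t hst => ht0 s ?_⟩
    exact right_ne_zero_of_mul hst
  · intro s
    refine (M.row s).support.finite_toSet.subset fun t ht => ?_
    rw [Finset.mem_coe, Finsupp.mem_support_iff]
    intro h6
    apply ht
    simp only [h6, Int.cast_zero, zero_mul]
  · intro t
    refine (M.col t).support.finite_toSet.subset fun s hs => ?_
    rw [Finset.mem_coe, Finsupp.mem_support_iff]
    intro h6
    apply hs
    simp only [M.tr, h6, Int.cast_zero, zero_mul]

end

end Q62
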