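import Pool.Agent.W_04c03c_h62s.SBase
import Pool.Agent.W_04c03c_h62.Exch

/-!
# Exchange of sums over orbits, infinitely many orbits
-/

namespace Q62

open MulAction

/-- A free `G`-set is the product of its orbit set and `G` (no finiteness). -/
noncomputable def exchEquivW {G : Type*} [Group G] {T : Type*} [MulAction G T]
    (hT : ∀ (g : G) (t : T), g • t = t → g = 1) : orbitRel.Quotient G T × G ≃ T := by
  refine Equiv.ofBijective (fun p => p.2 • p.1.out) ⟨?_, ?_⟩
  · rintro ⟨r, g⟩ ⟨r', g'⟩ h
    simp only at h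
    have hr : r = r' := by
      have h1 : (Quotient.mk _ (g • r.out) : orbitRel.Quotient G T) = r := by
        refine Eq.trans (Quotient.sound ?_) (Quotient.out_eq r)
        exact ⟨g, rfl⟩
      have h2 : (Quotient.mk _ (g' • r'.out) : orbitRel.Quotient G T) = r' := by
        refine Eq.trans (Quotient.sound ?_) (Quotient.out_eq r')
        exact ⟨g', rfl⟩
      rw [← h1, ← h2, h]
    subst hr
    have h3 : (g'⁻¹ * g) • r.out = r.out := by
      rw [mul_smul, h, inv_smul_smul]
    have h4 := hT _ _ h3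
    have h5 : g = g' := by
      rw [inv_mul_eq_one] at h4
      exact h4.symm
    rw [h5]
  · intro t
    obtain ⟨g, hg⟩ := Quotient.mk_out (s := orbitRel G T) t
    simp only at hg
    exact ⟨(Quotient.mk _ t, g⁻¹), by simp only; rw [← hg, inv_smul_smul]⟩

theorem exch_splitW {G : Type*} [Group G] {T : Type*} [MulAction G T]
    {F : Type*} [Field F] (hT : ∀ (g : G) (t : T), g • t = t → g = 1) (f : T → F)
    (hf : (Function.support f).Finite) :
    ∑ᶠ t, f t = ∑ᶠ r : orbitRel.Quotient G T, ∑ᶠ g : G, f (g • r.out) := by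
  rw [← finsum_comp_equiv (exchEquivW hT)]
  rw [finsum_curry]
  · rfl
  · exact hf.preimage (exchEquivW hT).injective.injOn

theorem finsum_swapW {α β F : Type*} [Field F] (c : α → β → F)
    (h : (Function.support fun p : α × β => c p.1 p.2).Finite) :
    ∑ᶠ a, ∑ᶠ b, c a b = ∑ᶠ b, ∑ᶠ a, c a b := by
  have h1 := finsum_curry (fun p : α × β => c p.1 p.2) h
  have h2 := finsum_curry (fun p : β × α => c p.2 p.1)
    (h.preimage (f := fun p : β × α => (p.2, p.1)) (by
      rintro ⟨a, b⟩ _ ⟨a', b'⟩ _ hab
      simp only [Prod.mk.injEq] at hab ⊢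
      exact ⟨hab.2, hab.1⟩))
  have h3 : ∑ᶠ p : β × α, c p.2 p.1 = ∑ᶠ p : α × β, c p.1 p.2 :=
    finsum_comp_equiv (Equiv.prodComm β α) (f := fun p : α × β => c p.1 p.2)
  exact h1.symm.trans (h3.symm.trans h2)

section
variable {Γ : Type} [Group Γ] {S T : Type} [MulAction Γ S] [MulAction Γ T] {F : Type} [Field F]

/-- Let `S`, `T` be free `Γ`-sets and `f : S → T → F` a `Γ`-invariant function with finite rows and
columns and with support finite modulo `Γ` in the first variable. Then the sum of the row sums over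
representatives of `S/Γ` is the sum of the column sums over representatives of `T/Γ`.

Proof. The case of finitely many orbits is `exchange` in `Pool.Agent.W_04c03c_h62.Exch`; its proof
uses the hypothesis on the number of orbits only in the last step (`exchEquiv`, `exch_split` need only
freeness: copy them). So both sides are the sums over `q : S/Γ` and `r : T/Γ` (in the two orders) of
`c q r = ∑ᶠ g : Γ, f q.out (g • r.out)`. It remains to see that `c q r ≠ 0` for finitely many pairs
`(q, r)` only; then use `finsum_comm`-like lemmas (for instance turn both into `Finset` sums over a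
common finite set of pairs, with `finsum_eq_sum_of_support_subset`, and `Finset.sum_comm`).
If `c q r ≠ 0` then `f q.out (g • r.out) ≠ 0` for some `g`; by `hfin` the orbit `q` is one of finitely
many, and for each `q` the row `f q.out` has finite support, so `g • r.out`, hence `r`, is one of
finitely many. -/
theorem exchangeW (hS : ∀ (g : Γ) (s : S), g • s = s → g = 1)
    (hT : ∀ (g : Γ) (t : T), g • t = t → g = 1) (f : S → T → F)
    (hf : ∀ (g : Γ) (s : S) (t : T), f (g • s) (g • t) = f s t)
    (hfin : ∃ t0 : Finset S, ∀ s t, f s t ≠ 0 → ∃ g : Γ, ∃ s' ∈ t0, s = g • s')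
    (hrow : ∀ s, (Function.support (f s)).Finite)
    (hcol : ∀ t, (Function.support fun s => f s t).Finite) :
    ∑ᶠ q : orbitRel.Quotient Γ S, ∑ᶠ t, f q.out t =
      ∑ᶠ r : orbitRel.Quotient Γ T, ∑ᶠ s, f s r.out := by
  have hL : ∀ q : orbitRel.Quotient Γ S, ∑ᶠ t, f q.out t =
      ∑ᶠ r : orbitRel.Quotient Γ T, ∑ᶠ g : Γ, f q.out (g • r.out) := fun q =>
    exch_splitW hT _ (hrow _)
  have hR : ∀ r : orbitRel.Quotient Γ T, ∑ᶠ s, f s r.out =
      ∑ᶠ q : orbitRel.Quotient Γ S, ∑ᶠ g : Γ, f q.out (g • r.out) := by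
    intro r
    rw [exch_splitW hS _ (hcol _)]
    refine finsum_congr fun q => ?_
    rw [← finsum_comp_equiv (Equiv.inv Γ)]
    refine finsum_congr fun g => ?_
    rw [Equiv.inv_apply, ← hf g, smul_inv_smul]
  rw [finsum_congr hL, finsum_congr hR]
  refine finsum_swapW (fun (q : orbitRel.Quotient Γ S) (r : orbitRel.Quotient Γ T) =>
    ∑ᶠ g : Γ, f q.out (g • r.out)) ?_
  obtain ⟨t0, ht0⟩ := hfin
  have hfinset : (⋃ q ∈ ((fun s => (Quotient.mk _ s : orbitRel.Quotient Γ S)) '' (t0 : Set S)),
      (fun t => ((q, (Quotient.mk _ t : orbitRel.Quotient Γ T)) :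
        orbitRel.Quotient Γ S × orbitRel.Quotient Γ T)) '' (Function.support (f q.out))).Finite :=
    (t0.finite_toSet.image _).biUnion fun q _ => (hrow q.out).image _
  refine hfinset.subset ?_
  rintro ⟨q, r⟩ hqr
  have h1 : ∃ g : Γ, f q.out (g • r.out) ≠ 0 := by
    by_contra hcon
    push Not at hcon
    apply hqr
    show ∑ᶠ g : Γ, f q.out (g • r.out) = 0
    rw [finsum_congr hcon, finsum_zero]
  obtain ⟨g, hg⟩ := h1
  obtain ⟨g', s', hs', he⟩ := ht0 _ _ hg
  rw [Set.mem_iUnion₂]
  refine ⟨q, ⟨s', hs', ?_⟩, g • r.out, hg, ?_⟩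
  · show (Quotient.mk _ s' : orbitRel.Quotient Γ S) = q
    rw [← Quotient.out_eq q, he]
    refine (Quotient.sound ?_).symm
    exact ⟨g', rfl⟩
  · refine Prod.ext rfl ?_
    show (Quotient.mk _ (g • r.out) : orbitRel.Quotient Γ T) = r
    refine Eq.trans (Quotient.sound ?_) (Quotient.out_eq r)
    exact ⟨g, rfl⟩

end

end Q62
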