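import Pool.Agent.W_04c03c_h62s.SBase

/-!
# Potentials
-/

namespace Q62

open MulAction

section
variable {Γ : Type} [Group Γ] {Ξ S0 S1 S2 : Type} [MulAction Γ Ξ] [MulAction Γ S0]
    [MulAction Γ S1] [MulAction Γ S2] (P : WPD Γ Ξ S0 S1 S2) {F : Type} [Field F]

/-- A function on `S2` which is orthogonal to the columns of `D2` comes from a function on `Ξ`.

Proof. The hypothesis says that `ev t` vanishes on `P.D2.colMap (single b 1)` for all `b`, hence on
`range P.D2.colMap = ker (linearCombination ℤ P.eta)` (`P.ex2'`). So there is a function (additive)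
`ψ` on `range (linearCombination ℤ P.eta) = ker (waug w)` (`P.ex3'`) with
`ψ (linearCombination ℤ P.eta y) = ev t y`. Fix `ξ0`. For every `ξ`,
`e ξ = (w ξ) • single ξ 1 - (w ξ0) • single ξ0 1` is in `ker (waug w)`, since `w ξ * w ξ = 1`; choose
`y ξ : S2 →₀ ℤ` with `linearCombination ℤ P.eta (y ξ) = e ξ`, and let `a ξ = w ξ * ev t (y ξ)`.
For `s : S2`: the chain `z = single s 1 - ∑ ξ, (P.eta s ξ * w ξ) • y ξ` satisfies
`linearCombination ℤ P.eta z = P.eta s - ∑ ξ, (P.eta s ξ * w ξ) • e ξ = (∑ ξ, P.eta s ξ * w ξ) *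
w ξ0 • single ξ0 1 = 0`, as `P.eta s ∈ ker (waug w)`. So `ev t z = 0`, i.e.
`t s = ∑ ξ, P.eta s ξ * w ξ * ev t (y ξ) = ev a (P.eta s)`. -/
theorem WPD.exists_potential (ξ0 : Ξ) {t : S2 → F} (ht : P.D2.tp.pull t = 0) :
    ∃ a : Ξ → F, ∀ s, ev a (P.eta s) = t s := by
  classical
  have hw : ∀ ξ, (P.w ξ : ℤ) * (P.w ξ : ℤ) = 1 := by
    intro ξ
    rcases Int.units_eq_one_or (P.w ξ) with h | h <;> rw [h] <;> simp
  have h1 : ∀ y : S2 →₀ ℤ, Finsupp.linearCombination ℤ P.eta y = 0 → ev t y = 0 := by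
    intro y hy
    have hy' : y ∈ LinearMap.range P.D2.colMap := by
      rw [← P.ex2']
      exact hy
    obtain ⟨z, rfl⟩ := hy'
    have h2 := P.D2.tp.ev_pull t z
    rw [ht, evW_zero, IMat.tp_rowMap] at h2
    exact h2.symm
  have h2 : ∀ ξ, ∃ y : S2 →₀ ℤ, Finsupp.linearCombination ℤ P.eta y =
      Finsupp.single ξ (P.w ξ : ℤ) - Finsupp.single ξ0 (P.w ξ0 : ℤ) := by
    intro ξ
    have h3 : (Finsupp.single ξ (P.w ξ : ℤ) - Finsupp.single ξ0 (P.w ξ0 : ℤ)) ∈
        LinearMap.range (Finsupp.linearCombination ℤ P.eta) := by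
      rw [P.ex3', LinearMap.mem_ker, map_sub]
      unfold waug
      rw [Finsupp.linearCombination_single, Finsupp.linearCombination_single, smul_eq_mul,
        smul_eq_mul, hw, hw, sub_self]
    exact h3
  choose y hy using h2
  refine ⟨fun ξ => ((P.w ξ : ℤ) : F) * ev t (y ξ), fun s => ?_⟩
  -- the correction
  have h3 : ∀ z : Ξ →₀ ℤ, waug (fun ξ => (P.w ξ : ℤ)) z = 0 →
      z = Finsupp.linearCombination ℤ P.eta (Finsupp.linearCombination ℤ
        (fun ξ => (P.w ξ : ℤ) • y ξ) z) := by
    have h4 : ∀ z : Ξ →₀ ℤ, Finsupp.linearCombination ℤ P.eta (Finsupp.linearCombination ℤ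
        (fun ξ => (P.w ξ : ℤ) • y ξ) z) =
        z - Finsupp.single ξ0 ((P.w ξ0 : ℤ) * waug (fun ξ => (P.w ξ : ℤ)) z) := by
      intro z
      induction z using Finsupp.induction_linear with
      | zero => simp
      | add a b ha hb =>
        rw [map_add, map_add, ha, hb, map_add, mul_add, Finsupp.single_add]
        abel
      | single ξ n =>
        unfold waug
        rw [Finsupp.linearCombination_single, Finsupp.linearCombination_single, map_smul,
          map_smul, hy, smul_sub, smul_sub, Finsupp.smul_single, Finsupp.smul_single,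
          Finsupp.smul_single, Finsupp.smul_single]
        simp only [smul_eq_mul]
        rw [hw ξ, mul_one]
        congr 2
        ring
    intro z hz
    rw [h4, hz, mul_zero, Finsupp.single_zero, sub_zero]
  have h5 : waug (fun ξ => (P.w ξ : ℤ)) (P.eta s) = 0 := by
    have h6 : P.eta s ∈ LinearMap.range (Finsupp.linearCombination ℤ P.eta) :=
      ⟨Finsupp.single s 1, by rw [Finsupp.linearCombination_single, one_smul]⟩
    rw [P.ex3'] at h6
    exact h6
  have h6 : ev t (Finsupp.single s 1 - Finsupp.linearCombination ℤ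
      (fun ξ => (P.w ξ : ℤ) • y ξ) (P.eta s)) = 0 := by
    apply h1
    rw [map_sub, ← h3 _ h5, Finsupp.linearCombination_single, one_smul, sub_self]
  rw [map_sub, ev_single, Int.cast_one, one_mul, sub_eq_zero] at h6
  rw [h6]
  generalize P.eta s = z
  induction z using Finsupp.induction_linear with
  | zero => simp
  | add a b ha hb => rw [map_add, ha, hb, map_add, map_add]
  | single ξ n =>
    rw [ev_single, Finsupp.linearCombination_single, map_smul, map_smul, zsmul_eq_mul,
      zsmul_eq_mul]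

/-- A function on `Ξ` which is orthogonal to all `P.eta s` is a multiple of `w`.

Proof. `ev d` vanishes on `range (linearCombination ℤ P.eta) = ker (waug w)` (`P.ex3'`), which contains
`w ξ' • single ξ 1 - w ξ • single ξ' 1`. So `w ξ' * d ξ = w ξ * d ξ'` in `F`. -/
theorem WPD.const_of_ev {d : Ξ → F} (hd : ∀ s, ev d (P.eta s) = 0) (ξ ξ' : Ξ) :
    ((P.w ξ' : ℤ) : F) * d ξ = ((P.w ξ : ℤ) : F) * d ξ' := by
  have h1 : (Finsupp.single ξ (P.w ξ' : ℤ) - Finsupp.single ξ' (P.w ξ : ℤ)) ∈
      LinearMap.range (Finsupp.linearCombination ℤ P.eta) := by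
    rw [P.ex3', LinearMap.mem_ker, map_sub]
    unfold waug
    rw [Finsupp.linearCombination_single, Finsupp.linearCombination_single, smul_eq_mul,
      smul_eq_mul, mul_comm, sub_self]
  obtain ⟨y, hy⟩ := h1
  have h2 : ∀ y : S2 →₀ ℤ, ev d (Finsupp.linearCombination ℤ P.eta y) = 0 := by
    intro y
    induction y using Finsupp.induction_linear with
    | zero => simp
    | add a b ha hb => rw [map_add, map_add, ha, hb, add_zero]
    | single s n => rw [Finsupp.linearCombination_single, map_smul, hd, smul_zero]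
  have h3 := h2 y
  rw [hy, map_sub, ev_single, ev_single, sub_eq_zero] at h3
  exact h3

end

end Q62
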