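import Pool.Agent.W_04c03c_h62s.ST
import Pool.Agent.W_04c03c_h62s.SAnn
import Pool.Agent.W_04c03c_h62s.SPot

/-!
# Extension of homomorphisms of the stabilizers
-/

namespace Q62

open MulAction

section
variable {Γ : Type} [Group Γ] {Ξ S0 S1 S2 : Type} [MulAction Γ Ξ] [MulAction Γ S0]
    [MulAction Γ S1] [MulAction Γ S2] (P : WPD Γ Ξ S0 S1 S2) {F : Type} [Field F] {χ : Γ →* Fˣ}
    {I : Type} {x : I → Ξ}

/-- The orientation character with values in `F`. -/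
noncomputable def WPD.epsF (F : Type) [Field F] : Γ →* Fˣ :=
  (Units.map (Int.castRingHom F).toMonoidHom).comp P.eps

theorem WPD.epsF_apply (g : Γ) :
    ((P.epsF F g : Fˣ) : F) = ((P.eps g : ℤ) : F) := rfl

/-- The orientation character is trivial on stabilizers. -/
theorem WPD.eps_stab (ξ : Ξ) (k : Γ) (hk : k ∈ stabilizer Γ ξ) : P.eps k = 1 := by
  have h := P.w_inv k ξ
  rw [mem_stabilizer_iff.1 hk] at h
  have h2 : P.eps k * P.w ξ = 1 * P.w ξ := by rw [one_mul]; exact h.symm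
  exact mul_right_cancel h2

/-- Evaluation of a translated function. -/
theorem sExt_ev_precomp (a : Ξ → F) (g : Γ) (y : Ξ →₀ ℤ) :
    ev (fun ξ => a (g • ξ)) y = ev a (y.mapDomain (g • ·)) := by
  induction y using Finsupp.induction_linear with
  | zero => simp
  | add x y hx hy => rw [Finsupp.mapDomain_add, map_add, hx, hy, map_add]
  | single s n => rw [Finsupp.mapDomain_single, ev_single, ev_single]

theorem WPD.sExt_eta_smul (g : Γ) (s : S2) :
    P.eta (g • s) = (P.eta s).mapDomain (g • ·) := by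
  ext t
  have h1 : t = (fun x : Ξ => g • x) (g⁻¹ • t) := by
    simp
  rw [h1, Finsupp.mapDomain_apply (MulAction.injective g)]
  exact P.eta_inv g s (g⁻¹ • t)

theorem WPD.sExt_w_sq (ξ : Ξ) : ((P.w ξ : ℤ) : F) * ((P.w ξ : ℤ) : F) = 1 := by
  rcases Int.units_eq_one_or (P.w ξ) with h | h <;> rw [h] <;> simp

theorem WPD.sExt_eps_sq (g : Γ) : ((P.eps g : ℤ) : F) * ((P.eps g : ℤ) : F) = 1 := by
  rcases Int.units_eq_one_or (P.eps g) with h | h <;> rw [h] <;> simp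

theorem WPD.sExt_w_smul (g : Γ) (ξ : Ξ) :
    ((P.w (g • ξ) : ℤ) : F) = ((P.eps g : ℤ) : F) * ((P.w ξ : ℤ) : F) := by
  rw [P.w_inv]
  push_cast
  rfl

/-- If `V h` is orthogonal to all cocycles for `χ`, then the family `h` is, up to the signs `w (x i)`,
the restriction of a crossed homomorphism for `χ⁻¹ * eps`.

Proof. By `double_ann` (for `M = P.D2`) there is `v' ∈ GF S2 F χ⁻¹` with
`P.D2.tp.pull v' = D.V P h = P.D2.tp.pull (D.T P h)`. Put `t = D.T P h - v'`; so `P.D2.tp.pull t = 0`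
(`IMat.pullL` is linear), and `t (g • s) = χ⁻¹ g * t s + ev (D.τ h g) (P.eta s)` (`LData.T_smul`). If `I`
is empty, then `d = 0` works; otherwise let `ξ0 = x i0`. Take `a : Ξ → F` with `ev a (P.eta s) = t s` from
`WPD.exists_potential`. For `g : Γ` let `c g ξ = D.τ h g ξ + χ⁻¹ g * a ξ - a (g • ξ)`. Then for all `s`,
`ev (c g) (P.eta s) = ev (D.τ h g) (P.eta s) + χ⁻¹ g * t s - t (g • s) = 0`, because
`ev (fun ξ => a (g • ξ)) (P.eta s) = ev a ((P.eta s).mapDomain (g • ·)) = ev a (P.eta (g • s)) =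
t (g • s)` (`P.eta_inv`). By `WPD.const_of_ev` (and `w ξ * w ξ = 1`), `e g = w ξ * c g ξ` does not
depend on `ξ`. Cocycle rule for `c`: `c (g * g') ξ = c g (g' • ξ) + χ⁻¹ g * c g' ξ` (`D.coc`, and the
terms with `a` cancel). Multiply by `w ξ = eps g' * w (g' • ξ)` (`P.w_inv`, signs):
`e (g * g') = eps g' * e g + χ⁻¹ g * e g'`. So `d g = eps g * e g` satisfies
`d (g * g') = d g + eps g * χ⁻¹ g * d g'`.
For `k` in the stabilizer of `x i`: `eps k = 1` (`WPD.eps_stab`), so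
`d k = w (x i) * c k (x i) = w (x i) * (D.τ h k (x i) + χ⁻¹ k * a (x i) - a (x i)) = w (x i) * h i k`
(`D.val`, `hχ`). -/
theorem LData.extend [Finite I] (D : LData S2 χ x) (hx : ∀ i, P.Full (x i))
    (hχ : ∀ i, ∀ k ∈ stabilizer Γ (x i), χ k = 1) (h : Hs Γ F x)
    (hh : ∀ u ∈ VF F χ S1, P.D2.pull u = 0 → pair Γ u (D.V P h) = 0) :
    ∃ d ∈ XHom (χ⁻¹ * P.epsF F), ∀ i (k : stabilizer Γ (x i)),
      d (k : Γ) = ((P.w (x i) : ℤ) : F) * h i (Additive.ofMul k) := by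
  classical
  rcases isEmpty_or_nonempty I with hI | ⟨⟨i0⟩⟩
  · exact ⟨0, (XHom (χ⁻¹ * P.epsF F)).zero_mem, fun i => (hI.false i).elim⟩
  obtain ⟨v', hv', hV⟩ := double_ann P.D2 P.free2 P.free1 (D.V_mem P hx h) hh
  have ht : P.D2.tp.pull (D.T P h - v') = 0 := by
    rw [← IMat.pullL_apply, map_sub, IMat.pullL_apply, IMat.pullL_apply, hV]
    exact sub_self _
  obtain ⟨a, ha⟩ := P.exists_potential (x i0) ht
  obtain ⟨c, hc⟩ : ∃ c : Γ → Ξ → F, ∀ g ξ,
      c g ξ = D.τ h g ξ + ((χ⁻¹ g : Fˣ) : F) * a ξ - a (g • ξ) := ⟨_, fun _ _ => rfl⟩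
  have hev : ∀ g s, ev (c g) (P.eta s) = 0 := by
    intro g s
    have h1 : c g = D.τ h g + ((χ⁻¹ g : Fˣ) : F) • a + (-1 : F) • (fun ξ => a (g • ξ)) := by
      funext ξ
      rw [hc]
      simp only [Pi.add_apply, Pi.smul_apply, smul_eq_mul]
      ring
    rw [h1, evW_add, evW_add, evW_smul, evW_smul, sExt_ev_precomp, ← P.sExt_eta_smul, ha, ha]
    rw [Pi.sub_apply, Pi.sub_apply, D.T_smul P, ((mem_VF χ⁻¹).1 hv'.1) g s]
    ring
  have hcon : ∀ g ξ ξ', ((P.w ξ : ℤ) : F) * c g ξ = ((P.w ξ' : ℤ) : F) * c g ξ' := by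
    intro g ξ ξ'
    have h1 := P.const_of_ev (hev g) ξ ξ'
    have h2 := P.sExt_w_sq (F := F) ξ
    have h3 := P.sExt_w_sq (F := F) ξ'
    linear_combination ((P.w ξ : ℤ) : F) * ((P.w ξ' : ℤ) : F) * h1
      - ((P.w ξ : ℤ) : F) * c g ξ * h3 + ((P.w ξ' : ℤ) : F) * c g ξ' * h2
  refine ⟨fun g => ((P.eps g : ℤ) : F) * (((P.w (x i0) : ℤ) : F) * c g (x i0)), ?_, ?_⟩
  · intro g g'
    have h1 : c (g * g') (x i0) = c g (g' • x i0) + ((χ⁻¹ g : Fˣ) : F) * c g' (x i0) := by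
      rw [hc, hc, hc, D.coc, mul_smul]
      rw [map_mul]
      push_cast
      ring
    have h2 := hcon g (g' • x i0) (x i0)
    have h3 := P.sExt_w_smul (F := F) g' (x i0)
    have h4 := P.sExt_eps_sq (F := F) g'
    have h5 := P.sExt_eps_sq (F := F) g
    have h6 : ((P.eps (g * g') : ℤ) : F) = ((P.eps g : ℤ) : F) * ((P.eps g' : ℤ) : F) := by
      rw [map_mul]
      push_cast
      rfl
    show ((P.eps (g * g') : ℤ) : F) * (((P.w (x i0) : ℤ) : F) * c (g * g') (x i0)) =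
      ((P.eps g : ℤ) : F) * (((P.w (x i0) : ℤ) : F) * c g (x i0)) +
      (((χ⁻¹ * P.epsF F) g : Fˣ) : F) *
        (((P.eps g' : ℤ) : F) * (((P.w (x i0) : ℤ) : F) * c g' (x i0)))
    rw [MonoidHom.mul_apply, Units.val_mul, P.epsF_apply, h6, h1, ← h2, h3]
    ring
  · intro i k
    have h1 : P.eps (k : Γ) = 1 := P.eps_stab (x i) k k.2
    have h2 := hcon k (x i0) (x i)
    show ((P.eps (k : Γ) : ℤ) : F) * (((P.w (x i0) : ℤ) : F) * c k (x i0)) = _
    rw [h1, h2, hc, D.val]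
    have h3 : (k : Γ) • x i = x i := k.2
    rw [h3, MonoidHom.inv_apply, hχ i k k.2]
    simp

end

end Q62
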