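import Pool.Agent.W_04c03c_h62s.SDefs

/-!
# Full points and subgroups
-/

namespace Q62

open MulAction

section
variable {Γ : Type} [Group Γ] {Ξ S0 S1 S2 : Type} [MulAction Γ Ξ] [MulAction Γ S0]
    [MulAction Γ S1] [MulAction Γ S2]

/-- A full point stays full for a subgroup which contains a subgroup of finite index of its
stabilizer.

Proof. Let `K` be the stabilizer of `ξ` in `Γ` and `c` a finite set of elements of `K` with
`K = (K ∩ N) * c` (representatives of the finitely many right cosets). If `t` is the finite set of `h`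
then the finite set `{k • s' | k ∈ c, s' ∈ t}` works for `N`: `s = g • s'` with `g ∈ K`,
`g = n * k`, `n ∈ K ∩ N`, `k ∈ c`, so `s = n • (k • s')`. (`(P.res N).eta = P.eta` by definition.) -/
theorem WPD.Full.res {P : WPD Γ Ξ S0 S1 S2} {ξ : Ξ} (h : P.Full ξ) (N : Subgroup Γ)
    (hN : (N.subgroupOf (stabilizer Γ ξ)).FiniteIndex) : (P.res N).Full ξ := by
  classical
  obtain ⟨t, ht⟩ := h
  have hfin : Finite (stabilizer Γ ξ ⧸ N.subgroupOf (stabilizer Γ ξ)) :=
    Subgroup.finite_quotient_of_finiteIndex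
  let _ : Fintype (stabilizer Γ ξ ⧸ N.subgroupOf (stabilizer Γ ξ)) := Fintype.ofFinite _
  refine ⟨((Finset.univ : Finset (stabilizer Γ ξ ⧸ N.subgroupOf (stabilizer Γ ξ))) ×ˢ t).image
    (fun p => (((Quotient.out p.1 : stabilizer Γ ξ)⁻¹ : stabilizer Γ ξ) : Γ) • p.2),
    fun s hs => ?_⟩
  obtain ⟨g, hg, s', hs', rfl⟩ := ht s hs
  obtain ⟨k, hk⟩ : ∃ k : stabilizer Γ ξ, k = ⟨g, hg⟩ := ⟨_, rfl⟩
  obtain ⟨q, hq⟩ : ∃ q : stabilizer Γ ξ ⧸ N.subgroupOf (stabilizer Γ ξ),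
    q = QuotientGroup.mk k⁻¹ := ⟨_, rfl⟩
  have h1 : (QuotientGroup.mk (Quotient.out q) : stabilizer Γ ξ ⧸ N.subgroupOf (stabilizer Γ ξ)) =
      QuotientGroup.mk k⁻¹ := (Quotient.out_eq q).trans hq
  have h2 : (Quotient.out q)⁻¹ * k⁻¹ ∈ N.subgroupOf (stabilizer Γ ξ) := QuotientGroup.eq.1 h1
  have h3 : k * Quotient.out q ∈ N.subgroupOf (stabilizer Γ ξ) := by
    have h4 := Subgroup.inv_mem _ h2
    rwa [mul_inv_rev, inv_inv, inv_inv] at h4
  have h5 : g * ((Quotient.out q : stabilizer Γ ξ) : Γ) ∈ N := by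
    have h6 := Subgroup.mem_subgroupOf.1 h3
    rw [hk] at h6
    exact h6
  refine ⟨⟨g * ((Quotient.out q : stabilizer Γ ξ) : Γ), h5⟩, ?_,
    (((Quotient.out q : stabilizer Γ ξ)⁻¹ : stabilizer Γ ξ) : Γ) • s', ?_, ?_⟩
  · rw [mem_stabilizer_iff]
    have h7 : (g * ((Quotient.out q : stabilizer Γ ξ) : Γ)) • ξ = ξ := by
      rw [mul_smul, mem_stabilizer_iff.1 (Quotient.out q : stabilizer Γ ξ).2,
        mem_stabilizer_iff.1 hg]
    exact h7
  · exact Finset.mem_image.2 ⟨(q, s'), Finset.mem_product.2 ⟨Finset.mem_univ _, hs'⟩, rfl⟩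
  · have h8 : g • s' = (g * ((Quotient.out q : stabilizer Γ ξ) : Γ)) •
        ((((Quotient.out q : stabilizer Γ ξ)⁻¹ : stabilizer Γ ξ) : Γ) • s') := by
      rw [smul_smul, InvMemClass.coe_inv, mul_inv_cancel_right]
    exact h8

end

end Q62
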