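import Pool.Agent.W_04c03c_h62s.SW
import Pool.Agent.W_04c03c_h62s.SExch

/-!
# The pairing depends only on the restriction to the stabilizers
-/

namespace Q62

open MulAction

section
variable {F : Type} [Field F]

theorem SRst_slice {X Y : Type} (f : X × Y → F) (y : Y) (h : ∀ p, f p ≠ 0 → p.2 = y) :
    ∑ᶠ p, f p = ∑ᶠ x, f (x, y) := by
  have hinj : Function.Injective fun x : X => (x, y) := fun a b hab => (Prod.ext_iff.1 hab).1
  rw [← finsum_mem_range (f := f) hinj]
  refine finsum_congr fun p => ?_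
  by_cases hp : p ∈ Set.range fun x : X => (x, y)
  · simp [hp]
  · have h0 : f p = 0 := by
      by_contra hne
      exact hp ⟨p.1, Prod.ext rfl (h p hne).symm⟩
    simp [hp, h0]

theorem SRst_slice' {X Y : Type} (f : X × Y → F) (x : X) (h : ∀ p, f p ≠ 0 → p.1 = x) :
    ∑ᶠ p, f p = ∑ᶠ y, f (x, y) := by
  have hinj : Function.Injective fun y : Y => (x, y) := fun a b hab => (Prod.ext_iff.1 hab).2
  rw [← finsum_mem_range (f := f) hinj]
  refine finsum_congr fun p => ?_
  by_cases hp : p ∈ Set.range fun y : Y => (x, y)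
  · simp [hp]
  · have h0 : f p = 0 := by
      by_contra hne
      exact hp ⟨p.2, Prod.ext (h p hne).symm rfl⟩
    simp [hp, h0]

theorem SRst_ev {S : Type} (u : S → F) (y : S →₀ ℤ) : ∑ᶠ s, ((y s : ℤ) : F) * u s = ev u y := by
  have h1 : (Function.support fun s => ((y s : ℤ) : F) * u s) ⊆ (y.support : Set S) := by
    intro s hs
    rw [Finset.mem_coe, Finsupp.mem_support_iff]
    intro h0
    apply hs
    show ((y s : ℤ) : F) * u s = 0
    rw [h0, Int.cast_zero, zero_mul]
  rw [finsum_eq_sum_of_support_subset _ h1]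
  unfold ev
  rw [Finsupp.linearCombination_apply, Finsupp.sum]
  refine Finset.sum_congr rfl fun s _ => ?_
  rw [zsmul_eq_mul]

theorem SRst_ev_one {S : Type} (y : S →₀ ℤ) :
    ev (fun _ : S => (1 : F)) y = ((waug (fun _ : S => 1) y : ℤ) : F) := by
  induction y using Finsupp.induction_linear with
  | zero => simp
  | add a b ha hb => rw [map_add, map_add, ha, hb, Int.cast_add]
  | single s n => rw [ev_single]; simp [waug]

theorem SRst_ev_sub {S : Type} (v : S → F) (c : F) (y : S →₀ ℤ) :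
    ev (fun s => v s - c) y = ev v y - c * ev (fun _ : S => (1 : F)) y := by
  have h1 : (fun s => v s - c) = v + (-c) • (fun _ : S => (1 : F)) := by
    funext s
    simp [sub_eq_add_neg]
  rw [h1, evW_add, evW_smul]
  ring

end

section
variable {Γ : Type} [Group Γ] {Ξ S0 S1 S2 : Type} [MulAction Γ Ξ] [MulAction Γ S0]
    [MulAction Γ S1] [MulAction Γ S2] (P : WPD Γ Ξ S0 S1 S2) {F : Type} [Field F] {χ : Γ →* Fˣ}
    {I : Type} {x : I → Ξ}

theorem SRst_aug (b : S1) : ev (fun _ : S0 => (1 : F)) (P.D1.row b) = 0 := by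
  rw [SRst_ev_one]
  have h1 : P.D1.rowMap (Finsupp.single b 1) ∈ LinearMap.range P.D1.rowMap := ⟨_, rfl⟩
  rw [P.ex0, LinearMap.mem_ker] at h1
  have h2 : P.D1.rowMap (Finsupp.single b 1) = P.D1.row b := by
    simp [IMat.rowMap]
  rw [h2] at h1
  rw [h1, Int.cast_zero]

/-- The potential on the orbits. -/
theorem SRst_pot (hne : ∀ i j, i ≠ j → x i ∉ orbit Γ (x j)) {d : Γ → F}
    (hd : ∀ g h, d (g * h) = d g + (χ g : F) * d h)
    (hdk : ∀ i, ∀ k ∈ stabilizer Γ (x i), d k = 0) :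
    ∃ e : Ξ → F, ∀ (g g0 : Γ) (i : I), e (g • g0 • x i) = (χ g : F) * e (g0 • x i) + d g := by
  classical
  let e : Ξ → F := fun ξ => if h : ∃ p : Γ × I, ξ = p.1 • x p.2 then d h.choose.1 else 0
  have he : ∀ (g : Γ) (i : I), e (g • x i) = d g := by
    intro g i
    have hex : ∃ p : Γ × I, g • x i = p.1 • x p.2 := ⟨(g, i), rfl⟩
    have h1 : e (g • x i) = d hex.choose.1 := dif_pos hex
    rw [h1]
    obtain ⟨⟨g', i'⟩, hp⟩ : ∃ p, p = hex.choose := ⟨_, rfl⟩
    have h2 := hex.choose_spec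
    rw [← hp] at h2 ⊢
    simp only at h2 ⊢
    have hi : i = i' := by
      by_contra hne'
      apply hne i i' hne'
      refine ⟨g⁻¹ * g', ?_⟩
      show (g⁻¹ * g') • x i' = x i
      rw [mul_smul, ← h2, inv_smul_smul]
    subst hi
    have h3 : g⁻¹ * g' ∈ stabilizer Γ (x i) := by
      rw [mem_stabilizer_iff, mul_smul, ← h2, inv_smul_smul]
    have h4 := hd g (g⁻¹ * g')
    rw [hdk i _ h3, mul_zero, add_zero, mul_inv_cancel_left] at h4
    exact h4
  refine ⟨e, fun g g0 i => ?_⟩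
  rw [← mul_smul, he, he, hd]
  ring

theorem SRst_step1 [Finite I] (D : LData S2 χ x) (hx : ∀ i, P.Full (x i))
    (h : Hs Γ F x) {u : S1 → F} (hu : u ∈ VF F χ S1) :
    pair Γ u (D.V P h) = ∑ᶠ r : orbitRel.Quotient Γ (S1 × Ξ),
      u r.out.1 * D.W P h r.out.2 r.out.1 := by
  classical
  obtain ⟨t, ht⟩ := D.W_supp P hx h
  let f1 : S1 → S1 × Ξ → F := fun b p => if b = p.1 then u b * D.W P h p.2 b else 0
  have hf1 : ∀ b p, f1 b p = if b = p.1 then u b * D.W P h p.2 b else 0 := fun b p => rfl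
  have h1 := exchangeW (Γ := Γ) P.free1
    (fun (g : Γ) (p : S1 × Ξ) hp => P.free1 g p.1 (Prod.ext_iff.1 hp).1) f1
    (by
      intro g b p
      rw [hf1, hf1, Prod.smul_fst, Prod.smul_snd]
      by_cases hb : b = p.1
      · rw [if_pos hb, if_pos (by rw [hb]), D.W_smul P h g p.2 b, (mem_VF χ).1 hu g b]
        have h5 : ((χ⁻¹ g : Fˣ) : F) * ((χ g : Fˣ) : F) = 1 := by
          rw [MonoidHom.inv_apply, ← Units.val_mul, inv_mul_cancel, Units.val_one]
        linear_combination (u b * D.W P h p.2 b) * h5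
      · rw [if_neg hb, if_neg fun h2 => hb (MulAction.injective g h2)])
    (by
      refine ⟨t.image Prod.snd, fun b p hbp => ?_⟩
      rw [hf1] at hbp
      by_cases hb : b = p.1
      · rw [if_pos hb] at hbp
        obtain ⟨g, p', hp', -, h3⟩ := ht p.2 b (right_ne_zero_of_mul hbp)
        exact ⟨g, p'.2, Finset.mem_image_of_mem _ hp', h3⟩
      · rw [if_neg hb] at hbp
        exact absurd rfl hbp)
    (by
      intro b
      refine ((D.V_eq P h b).1.image fun ξ => (b, ξ)).subset ?_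
      rintro ⟨b', ξ⟩ hp
      rw [Function.mem_support, hf1] at hp
      by_cases hb : b = b'
      · subst hb
        rw [if_pos rfl] at hp
        exact ⟨ξ, right_ne_zero_of_mul hp, rfl⟩
      · rw [if_neg hb] at hp
        exact absurd rfl hp)
    (by
      intro p
      refine (Set.finite_singleton p.1).subset ?_
      intro b hb
      rw [Function.mem_support, hf1] at hb
      by_contra hne'
      exact hb (if_neg hne'))
  have h2 : ∀ b : S1, ∑ᶠ p, f1 b p = u b * D.V P h b := by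
    intro b
    rw [SRst_slice' (f1 b) b, (D.V_eq P h b).2, mul_finsum]
    · refine finsum_congr fun ξ => ?_
      rw [hf1, if_pos rfl]
    · intro p hp
      rw [hf1] at hp
      by_contra hne'
      exact hp (if_neg fun h3 => hne' h3.symm)
  have h3 : ∀ p : S1 × Ξ, ∑ᶠ b, f1 b p = u p.1 * D.W P h p.2 p.1 := by
    intro p
    rw [finsum_eq_single _ p.1, hf1, if_pos rfl]
    intro b hb
    rw [hf1, if_neg hb]
  unfold pair
  rw [← finsum_congr fun q : orbitRel.Quotient Γ S1 => h2 q.out, h1]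
  exact finsum_congr fun r => h3 r.out

theorem SRst_step2 [Finite I] (D : LData S2 χ x) (hx : ∀ i, P.Full (x i))
    (h : Hs Γ F x) {u : S1 → F} {v : S0 → F} (hv : P.D1.pull v = u) {d : Γ → F}
    (hd : ∀ (g : Γ) (a : S0), v (g • a) = (χ g : F) * v a + d g) (e : Ξ → F)
    (he : ∀ (g g0 : Γ) (i : I), e (g • g0 • x i) = (χ g : F) * e (g0 • x i) + d g) :
    ∑ᶠ r : orbitRel.Quotient Γ (S1 × Ξ), u r.out.1 * D.W P h r.out.2 r.out.1 = 0 := by
  classical
  obtain ⟨t, ht⟩ := D.W_supp P hx h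
  let f2 : S1 × Ξ → S0 × Ξ → F := fun p q => if p.2 = q.2 then
    ((P.D1.row p.1 q.1 : ℤ) : F) * (v q.1 - e p.2) * D.W P h p.2 p.1 else 0
  have hf2 : ∀ p q, f2 p q = if p.2 = q.2 then
    ((P.D1.row p.1 q.1 : ℤ) : F) * (v q.1 - e p.2) * D.W P h p.2 p.1 else 0 := fun p q => rfl
  have hW : ∀ p q, f2 p q ≠ 0 → p.2 = q.2 ∧ P.D1.row p.1 q.1 ≠ 0 ∧ D.W P h p.2 p.1 ≠ 0 := by
    intro p q hpq
    rw [hf2] at hpq
    by_cases hp : p.2 = q.2
    · rw [if_pos hp] at hpq
      refine ⟨hp, fun h0 => hpq ?_, right_ne_zero_of_mul hpq⟩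
      rw [h0, Int.cast_zero, zero_mul, zero_mul]
    · rw [if_neg hp] at hpq
      exact absurd rfl hpq
  have h1 := exchangeW (Γ := Γ)
    (fun (g : Γ) (p : S1 × Ξ) hp => P.free1 g p.1 (Prod.ext_iff.1 hp).1)
    (fun (g : Γ) (p : S0 × Ξ) hp => P.free0 g p.1 (Prod.ext_iff.1 hp).1) f2
    (by
      intro g p q
      rw [hf2, hf2, Prod.smul_fst, Prod.smul_snd, Prod.smul_fst, Prod.smul_snd]
      by_cases hb : p.2 = q.2
      · rw [if_pos hb, if_pos (by rw [hb]), D.W_smul P h g p.2 p.1, P.D1.inv]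
        have h5 : ((χ⁻¹ g : Fˣ) : F) * ((χ g : Fˣ) : F) = 1 := by
          rw [MonoidHom.inv_apply, ← Units.val_mul, inv_mul_cancel, Units.val_one]
        by_cases hw : D.W P h p.2 p.1 = 0
        · rw [hw, mul_zero, mul_zero, mul_zero]
        · obtain ⟨g0, p', hp', h3, -⟩ := ht p.2 p.1 hw
          have h4 : e (g • p.2) = (χ g : F) * e p.2 + d g := by
            rw [h3]
            exact he g g0 p'.1
          rw [h4, hd g q.1]
          linear_combination (((P.D1.row p.1 q.1 : ℤ) : F) * (v q.1 - e p.2) *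
            D.W P h p.2 p.1) * h5
      · rw [if_neg hb, if_neg fun h2 => hb (MulAction.injective g h2)])
    (by
      refine ⟨t.image fun p' => (p'.2, x p'.1), fun p q hpq => ?_⟩
      obtain ⟨-, -, h3⟩ := hW p q hpq
      obtain ⟨g, p', hp', h4, h5⟩ := ht p.2 p.1 h3
      exact ⟨g, (p'.2, x p'.1), Finset.mem_image_of_mem _ hp', Prod.ext h5 h4⟩)
    (by
      intro p
      refine ((P.D1.row p.1).support.finite_toSet.image fun a => (a, p.2)).subset ?_
      intro q hq
      obtain ⟨h2, h3, -⟩ := hW p q hq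
      exact ⟨q.1, by rw [Finset.mem_coe, Finsupp.mem_support_iff]; exact h3,
        Prod.ext rfl h2⟩)
    (by
      intro q
      refine ((P.D1.col q.1).support.finite_toSet.image fun b => (b, q.2)).subset ?_
      intro p hp
      obtain ⟨h2, h3, -⟩ := hW p q hp
      exact ⟨p.1, by rw [Finset.mem_coe, Finsupp.mem_support_iff, ← P.D1.tr]; exact h3,
        Prod.ext rfl h2.symm⟩)
  have h2 : ∀ p : S1 × Ξ, ∑ᶠ q, f2 p q = u p.1 * D.W P h p.2 p.1 := by
    intro p
    rw [SRst_slice (f2 p) p.2 (fun q hq => (hW p q hq).1.symm)]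
    have h3 : ∀ a : S0, f2 p (a, p.2) =
        (((P.D1.row p.1 a : ℤ) : F) * (v a - e p.2)) * D.W P h p.2 p.1 := by
      intro a
      rw [hf2, if_pos rfl]
    rw [finsum_congr h3, ← finsum_mul, SRst_ev (fun a => v a - e p.2), SRst_ev_sub, SRst_aug,
      mul_zero, sub_zero, ← hv]
    rfl
  have h3 : ∀ q : S0 × Ξ, ∑ᶠ p, f2 p q = 0 := by
    intro q
    rw [SRst_slice (fun p => f2 p q) q.2 (fun p hp => (hW p q hp).1)]
    have h4 : ∀ b : S1, f2 (b, q.2) q =
        (((P.D1.col q.1 b : ℤ) : F) * D.W P h q.2 b) * (v q.1 - e q.2) := by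
      intro b
      rw [hf2, if_pos rfl, ← P.D1.tr]
      ring
    rw [finsum_congr h4, ← finsum_mul, SRst_ev (D.W P h q.2)]
    have h5 : ev (D.W P h q.2) (P.D1.col q.1) =
        P.D1.tp.pull (P.D2.tp.pull fun s => ((P.eta s q.2 : ℤ) : F) * D.L h s q.2) q.1 := rfl
    rw [h5, P.tp_tp, Pi.zero_apply, zero_mul]
  rw [← finsum_congr fun r : orbitRel.Quotient Γ (S1 × Ξ) => h2 r.out, h1,
    finsum_congr fun r : orbitRel.Quotient Γ (S0 × Ξ) => h3 r.out, finsum_zero]

/-- If the crossed homomorphism of the cocycle `u` vanishes on the stabilizers of the `x i`, then `u` is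
orthogonal to `V h`.

Proof. `d` is crossed (`S0` is not empty). There is `e : Ξ → F` with `e (g • ξ) = χ g * e ξ + d g` for
all `ξ` in the orbits of the points `x i`: put `e (g • x i) = d g`; this is well defined, because
`d (g * k) = d g + χ g * d k = d g` for `k` in the stabilizer, and the orbits are different. Let `Om` be
the union of the orbits of the `x i` (a type with an action of `Γ`; for instance a subtype, or use
`Ξ` itself and functions which vanish outside). The groups act freely on `S1 × Om` and `S0 × Om`.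
Step 1. `pair Γ u (V h) = ∑ᶠ q, ∑ᶠ ξ, u q.out * W h ξ q.out` (`LData.V_eq`), and by `exchangeW` for
`S1` and `S1 × Ξ` with `f b (b', ξ) = if b = b' then u b * W h ξ b else 0`, this is the sum over
representatives `(b, ξ)` of the orbits of `S1 × Ξ` of `u b * W h ξ b`. (Invariance: `LData.W_smul`,
`hu`; finiteness: `LData.W_supp`, `LData.V_eq`.)
Step 2. For `ξ` in one of the orbits let `vt (a, ξ) = v a - e ξ`, zero for other `ξ`. Then
`vt (g • a, g • ξ) = χ g * vt (a, ξ)`. `u b = ∑ a, D1 b a * v a = ∑ a, D1 b a * vt (a, ξ)`, since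
`∑ a, D1 b a = 0` (`P.ex0`: `P.D1.row b = P.D1.rowMap (single b 1)` is in `ker (waug 1)`). Apply
`exchangeW` for `S1 × Ξ` and `S0 × Ξ` with `f (b, ξ) (a, ξ') = if ξ = ξ' then D1 b a * vt (a, ξ) *
W h ξ b else 0`: the sum is the sum over representatives `(a, ξ)` of `vt (a, ξ) * ∑ b, D1 b a * W h ξ b`,
and `∑ b, D1 b a * W h ξ b = P.D1.tp.pull (W h ξ) a = 0` (`WPD.tp_tp`). -/
theorem LData.pair_zero [Finite I] (D : LData S2 χ x) (hx : ∀ i, P.Full (x i))
    (hχ : ∀ i, ∀ k ∈ stabilizer Γ (x i), χ k = 1) (hne : ∀ i j, i ≠ j → x i ∉ orbit Γ (x j))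
    (h : Hs Γ F x) {u : S1 → F} (hu : u ∈ VF F χ S1) {v : S0 → F} (hv : P.D1.pull v = u)
    {d : Γ → F} (hd : ∀ (g : Γ) (a : S0), v (g • a) = (χ g : F) * v a + d g)
    (hdk : ∀ i, ∀ k ∈ stabilizer Γ (x i), d k = 0) : pair Γ u (D.V P h) = 0 := by
  obtain ⟨a0⟩ := P.ne0
  have hdc : ∀ g h, d (g * h) = d g + (χ g : F) * d h := by
    intro g h
    have h1 := hd (g * h) a0
    rw [mul_smul, hd g (h • a0), hd h a0, map_mul, Units.val_mul] at h1
    linear_combination -h1
  obtain ⟨e, he⟩ := SRst_pot hne hdc hdk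
  rw [SRst_step1 P D hx h hu]
  exact SRst_step2 P D hx h hv hd e he

end

end Q62
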