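import Pool.Agent.W_04c03c_h62s.SExt
import Pool.Agent.W_04c03c_h62s.SCross
import Pool.Agent.W_04c03c_h62s.SLin
import Pool.Agent.W_04c03c_h62s.SRes
import Pool.Agent.W_04c03c_h62s.SRst

/-!
# The inequality
-/

namespace Q62

open MulAction

section
variable {Γ : Type} [Group Γ] {Ξ S0 S1 S2 : Type} [MulAction Γ Ξ] [MulAction Γ S0]
    [MulAction Γ S1] [MulAction Γ S2] (P : WPD Γ Ξ S0 S1 S2) {F : Type} [Field F]

/-- The pairing of cocycles and families of homomorphisms, as a bilinear map. -/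
noncomputable def LData.B {χ : Γ →* Fˣ} {I : Type} [Finite I] {x : I → Ξ} (D : LData S2 χ x)
    (hx : ∀ i, P.Full (x i)) :
    (LinearMap.ker (P.D2.pullV (F := F) χ)) →ₗ[F] Module.Dual F (Hs Γ F x) :=
  LinearMap.mk₂ F (fun u h => pair Γ u.1.1 (D.V P h))
    (fun u u' h => pair_add_left (D.V_mem P hx h).2)
    (fun c u h => pair_smul_left c (D.V_mem P hx h).2)
    (fun u h h' => by rw [D.V_add P]; exact pair_add_right (D.V_mem P hx h).2 (D.V_mem P hx h').2)
    (fun c u h => by rw [D.V_smul P]; exact pair_smul_right c (D.V_mem P hx h).2)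

theorem LData.B_apply {χ : Γ →* Fˣ} {I : Type} [Finite I] {x : I → Ξ} (D : LData S2 χ x)
    (hx : ∀ i, P.Full (x i)) (u : LinearMap.ker (P.D2.pullV (F := F) χ)) (h : Hs Γ F x) :
    D.B P hx u h = pair Γ u.1.1 (D.V P h) := rfl

theorem WPD.dual_stab {χ : Γ →* Fˣ} {I : Type} {x : I → Ξ}
    (hχ : ∀ i, ∀ k ∈ stabilizer Γ (x i), χ k = 1) :
    ∀ i, ∀ k ∈ stabilizer Γ (x i), (χ⁻¹ * P.epsF F) k = 1 := by
  intro i k hk
  rw [MonoidHom.mul_apply, MonoidHom.inv_apply, hχ i k hk]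
  unfold WPD.epsF
  rw [MonoidHom.comp_apply, P.eps_stab (x i) k hk]
  simp

theorem WPD.w_sq (ξ : Ξ) : ((P.w ξ : ℤ) : F) * ((P.w ξ : ℤ) : F) = 1 := by
  rw [← Int.cast_mul, ← Units.val_mul, Int.units_mul_self]
  simp

/-- The inequality. -/
theorem WPD.rank_le (χ : Γ →* Fˣ) {I : Type} [Finite I] (x : I → Ξ) (hx : ∀ i, P.Full (x i))
    (hχ : ∀ i, ∀ k ∈ stabilizer Γ (x i), χ k = 1)
    (hne : ∀ i j, i ≠ j → x i ∉ orbit Γ (x j)) [FiniteDimensional F (Hs Γ F x)] :
    Module.finrank F (Hs Γ F x) ≤ Module.finrank F (LinearMap.range (resX χ x hχ)) +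
      Module.finrank F (LinearMap.range (resX (χ⁻¹ * P.epsF F) x (P.dual_stab hχ))) := by
  obtain ⟨D⟩ := exists_LData (S := S2) P.free2 χ x hχ hne
  obtain ⟨Θ, hΘ⟩ := P.exists_theta (F := F) χ
  let σ : Hs Γ F x →ₗ[F] Hs Γ F x :=
    { toFun := fun h i => ((P.w (x i) : ℤ) : F) • h i
      map_add' := by
        intro h h'
        funext i
        exact smul_add _ _ _
      map_smul' := by
        intro c h
        funext i
        show ((P.w (x i) : ℤ) : F) • c • h i = c • ((P.w (x i) : ℤ) : F) • h i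
        rw [smul_smul, smul_smul, mul_comm] }
  have hσ : Function.Injective σ := by
    have h1 : ∀ h, σ (σ h) = h := by
      intro h
      funext i
      show ((P.w (x i) : ℤ) : F) • ((P.w (x i) : ℤ) : F) • h i = h i
      rw [smul_smul, P.w_sq, one_smul]
    exact Function.LeftInverse.injective h1
  refine rank_ineq (U := LinearMap.ker (P.D2.pullV (F := F) χ)) (D.B P hx) (resX χ x hχ ∘ₗ Θ)
    _ _ (fun u => ⟨Θ u, rfl⟩) ?_ σ hσ ?_
  · intro u hu
    obtain ⟨v, hv, hvd⟩ := hΘ u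
    refine LinearMap.ext fun h => ?_
    rw [D.B_apply P hx]
    refine D.pair_zero P hx hχ hne h u.1.2 hv hvd ?_
    intro i k hk
    have h1 := congrFun hu i
    have h2 := DFunLike.congr_fun h1 (Additive.ofMul (⟨k, hk⟩ : stabilizer Γ (x i)))
    exact h2
  · intro h hh
    obtain ⟨d, hd, hdk⟩ := D.extend P hx hχ h
      (fun u hu hu0 => hh ⟨⟨u, hu⟩, Subtype.ext hu0⟩)
    refine ⟨⟨d, hd⟩, ?_⟩
    funext i
    refine AddMonoidHom.ext fun k => ?_
    exact hdk i k.toMul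

end

end Q62
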