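import Pool.Agent.W_04c03c_h62s.SHom
import Pool.Agent.W_04c03c_h62.Main

/-!
# At least half of the cohomology of the cusps of a subgroup extends
-/

namespace Q62

open MulAction

section
variable {G : Type} [Group G] {Ξ S0 S1 S2 : Type} [MulAction G Ξ] [MulAction G S0]
    [MulAction G S1] [MulAction G S2]

/-- The restriction to `Γ` of the orientation character, with values in `F`. -/
noncomputable def PD.orF (P : PD G Ξ S0 S1 S2) (Γ : Subgroup G) (F : Type) [Field F] : Γ →* Fˣ :=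
  (Units.map (Int.castRingHom F).toMonoidHom).comp (P.eps.comp Γ.subtype)

theorem PD.orF_stab (P : PD G Ξ S0 S1 S2) (Γ : Subgroup G) {F : Type} [Field F] {χ : Γ →* Fˣ}
    {I : Type} {x : I → Ξ} (hχ : ∀ i, ∀ k ∈ stabilizer Γ (x i), χ k = 1) :
    ∀ i, ∀ k ∈ stabilizer Γ (x i), (χ⁻¹ * P.orF Γ F) k = 1 :=
  (P.toWPD Γ).dual_stab hχ

/-- At least half of the cohomology of the cusps extends. -/
theorem PD.half (P : PD G Ξ S0 S1 S2) (Γ : Subgroup G) (F : Type) [Field F] (χ : Γ →* Fˣ)
    {I : Type} [Finite I] (x : I → Ξ)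
    (hx : ∀ i, (Γ.subgroupOf (stabilizer G (x i))).FiniteIndex)
    (hne : ∀ i j, i ≠ j → x i ∉ orbit Γ (x j))
    (hχ : ∀ i, ∀ k ∈ stabilizer Γ (x i), χ k = 1)
    [FiniteDimensional F (∀ i, Additive (stabilizer Γ (x i)) →+ F)] :
    Module.finrank F (∀ i, Additive (stabilizer Γ (x i)) →+ F) ≤
      Module.finrank F (LinearMap.range (resX χ x hχ)) +
        Module.finrank F (LinearMap.range (resX (χ⁻¹ * P.orF Γ F) x (P.orF_stab Γ hχ))) :=
  (P.toWPD Γ).rank_le χ x (fun i => PD.full Γ (hx i)) hχ hne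

end

/-- A finitely generated subgroup has at most as many torus cusps as generators: more generally the
number of unfilled torus cusps is at most the number of generators of the partial filling. -/
theorem cusps_le_rank (G Ξ : Type) [Group G] [MulAction G Ξ] (hpd : IsPDPair G Ξ)
    (hstab : ∀ ξ : Ξ, Nonempty (stabilizer G ξ ≃* Multiplicative (ℤ × ℤ)))
    (Γ : Subgroup G) (Q : Type) [Group Q] [Group.FG Q] (π : Γ →* Q)
    (hπ : Function.Surjective π) {m : ℕ} (η : Fin m → Ξ) (R : Fin m → Γ)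
    (hη : ∀ j, Nonempty (stabilizer Γ (η j) ≃* Multiplicative (ℤ × ℤ)))
    (hR : ∀ j, R j • η j = η j) (hne : ∀ j j', j ≠ j' → η j ∉ orbit Γ (η j'))
    (hker : π.ker = Subgroup.normalClosure (Set.range R)) {r : ℕ} (x : Fin r → Ξ)
    (hz : ∀ i, Nonempty (stabilizer Γ (x i) ≃* Multiplicative (ℤ × ℤ)))
    (hxne : ∀ i i', i ≠ i' → x i ∉ orbit Γ (x i')) (hun : ∀ i j, x i ∉ orbit Γ (η j)) :
    r ≤ Group.rank Q := by
  obtain ⟨S0, S1, S2, _, _, _, ⟨P⟩⟩ := hpd
  have hfull : ∀ ξ : Ξ, Nonempty (stabilizer Γ ξ ≃* Multiplicative (ℤ × ℤ)) →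
      (P.toWPD Γ).Full ξ := fun ξ h => PD.full Γ (index_stab (hstab ξ) Γ h)
  have he : (P.toWPD Γ).epsF (ZMod 2) = 1 := by
    refine MonoidHom.ext fun g => Units.ext ?_
    rw [WPD.epsF_apply]
    rcases Int.units_eq_one_or ((P.toWPD Γ).eps g) with h | h
    · rw [h]; rfl
    · rw [h]; rfl
  obtain ⟨f, hf, hfR⟩ := (P.toWPD Γ).exists_homs he η R hR (fun j => hfull _ (hη j)) hη hne x
    (fun i => hfull _ (hz i)) hz hxne hun
  obtain ⟨f', hf'⟩ := descend_homs π hπ R hker f hf hfR
  obtain ⟨S, hS, hgen⟩ := Group.rank_spec Q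
  -- evaluation on the generators is injective
  let L : (Additive Q →+ ZMod 2) →ₗ[ZMod 2] (S → ZMod 2) :=
    { toFun := fun φ s => φ (Additive.ofMul (s : Q))
      map_add' := fun _ _ => rfl
      map_smul' := fun _ _ => rfl }
  have hL : Function.Injective L := by
    rw [injective_iff_map_eq_zero]
    intro φ hφ
    refine AddMonoidHom.ext fun g => ?_
    have h1 : g.toMul ∈ Subgroup.closure (S : Set Q) := by rw [hgen]; trivial
    have h2 : ∀ q ∈ Subgroup.closure (S : Set Q), φ (Additive.ofMul q) = 0 := by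
      intro q hq
      induction hq using Subgroup.closure_induction with
      | mem s hs => exact congrFun hφ ⟨s, hs⟩
      | one => rw [ofMul_one, map_zero]
      | mul a b _ _ ha hb => rw [ofMul_mul, map_add, ha, hb, add_zero]
      | inv a _ ha => rw [ofMul_inv, map_neg, ha, neg_zero]
    exact h2 _ h1
  have h3 := (hf'.map' L (LinearMap.ker_eq_bot.2 hL)).fintype_card_le_finrank
  rw [Fintype.card_fin, Module.finrank_fintype_fun_eq_card, Fintype.card_coe, hS] at h3
  exact h3

end Q62
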