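import Pool.Agent.W_04c03c_h62s.SNon
import Pool.Agent.W_04c03c_h62s.SDesc
import Pool.Agent.W_04c03c_h62s.SFill

/-!
# Homomorphisms of subgroups of finite index of partial fillings
-/

namespace Q62

open MulAction

section
variable {Γ : Type} [Group Γ] {Ξ S0 S1 S2 : Type} [MulAction Γ Ξ] [MulAction Γ S0]
    [MulAction Γ S1] [MulAction Γ S2] {P : WPD Γ Ξ S0 S1 S2} {Q : Type} [Group Q]

theorem finiteIndex_stab (M : Subgroup Γ) [hM : M.FiniteIndex] (ξ : Ξ) :
    (M.subgroupOf (stabilizer Γ ξ)).FiniteIndex := by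
  constructor
  intro h0
  have h1 : M.relIndex (stabilizer Γ ξ) = 0 := h0
  exact hM.index_ne_zero (Subgroup.index_eq_zero_of_relIndex_eq_zero h1)

theorem finiteIndex_comap (π : Γ →* Q) (hπ : Function.Surjective π) (N : Subgroup Q)
    [hN : N.FiniteIndex] : (N.comap π).FiniteIndex := by
  constructor
  rw [Subgroup.index_comap_of_surjective N hπ]
  exact hN.index_ne_zero

/-- Homomorphisms of a subgroup of a partial filling from its unfilled points. -/
theorem Filled.homs (D : Filled P Q) (N : Subgroup Q) [N.FiniteIndex] {r : ℕ} (x : Fin r → Ξ)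
    (hxfull : ∀ i, P.Full (x i))
    (hxz : ∀ i, Nonempty (stabilizer Γ (x i) ≃* Multiplicative (ℤ × ℤ)))
    (hxne : ∀ i i', i ≠ i' → x i ∉ orbit (N.comap D.π) (x i'))
    (hun : ∀ i j, x i ∉ orbit Γ (D.η j)) :
    ∃ N' : Subgroup Q, N'.FiniteIndex ∧
      ∃ f : Fin r → (Additive N' →+ ℚ), LinearIndependent ℚ f := by
  -- the orientation character descends
  have hker : D.π.ker ≤ P.eps.ker := by
    rw [D.ker]
    refine Subgroup.normalClosure_le_normal ?_
    rintro _ ⟨j, rfl⟩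
    exact P.eps_stab (D.η j) (D.R j) (D.fix j)
  obtain ⟨eps', heps'⟩ : ∃ eps' : Q →* ℤˣ, ∀ g, eps' (D.π g) = P.eps g := by
    refine ⟨D.π.liftOfSurjective D.surj ⟨P.eps, hker⟩, fun g => ?_⟩
    exact MonoidHom.liftOfRightInverse_comp_apply D.π _ _ ⟨P.eps, hker⟩ g
  have hfi : eps'.ker.FiniteIndex := by
    constructor
    rw [Subgroup.index_ker]
    exact Nat.card_pos.ne'
  let N' : Subgroup Q := N ⊓ eps'.ker
  have hN' : N'.FiniteIndex := inferInstance
  obtain ⟨D', -, hD'⟩ := D.sub N'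
  have hM := finiteIndex_comap D.π D.surj N'
  have hle : N'.comap D.π ≤ N.comap D.π := Subgroup.comap_mono inf_le_left
  have he : (P.res (N'.comap D.π)).epsF ℚ = 1 := by
    refine MonoidHom.ext fun g => Units.ext ?_
    rw [WPD.epsF_apply]
    have h1 : P.eps (g : Γ) = 1 := by
      rw [← heps']
      exact g.2.2
    have h2 : (P.res (N'.comap D.π)).eps g = 1 := h1
    rw [h2]
    simp
  have hsm : ∀ a b : Ξ, a ∈ orbit (N'.comap D.π) b → a ∈ orbit (N.comap D.π) b := by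
    rintro a b ⟨g, hg⟩
    exact ⟨⟨g.1, hle g.2⟩, hg⟩
  have hsm2 : ∀ a b : Ξ, a ∈ orbit (N'.comap D.π) b → a ∈ orbit Γ b := by
    rintro a b ⟨g, hg⟩
    exact ⟨g.1, hg⟩
  have := D'.fin
  obtain ⟨f, hf, hfR⟩ := (P.res (N'.comap D.π)).exists_homs he D'.η D'.R D'.fix D'.full D'.z2 D'.ineq x
    (fun i => (hxfull i).res _ (finiteIndex_stab _ _)) (fun i => z2_res (hxz i) _ (finiteIndex_stab _ _))
    (fun i i' hii' h => hxne i i' hii' (hsm _ _ h)) (by
      intro i j' h
      obtain ⟨j, hj⟩ := hD' j'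
      obtain ⟨g, hg⟩ := hsm2 _ _ h
      obtain ⟨g', hg'⟩ := hj
      refine hun i j ⟨g * g', ?_⟩
      simp only at hg hg' ⊢
      rw [mul_smul, hg', hg])
  obtain ⟨f', hf'⟩ := descend_homs D'.π D'.surj D'.R D'.ker f hf hfR
  exact ⟨N', hN', f', hf'⟩

end

end Q62
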