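import Pool.Agent.W_04c03c_h62s.SBase

/-!
# The cocycle at one point
-/

namespace Q62

open MulAction

/-- The element of the stabilizer. -/
theorem tau_mem {Γ : Type} [Group Γ] {Ξ : Type} [MulAction Γ Ξ] (x : Ξ) (r : Ξ → Γ)
    (hr : ∀ ξ ∈ orbit Γ x, r ξ • x = ξ) (g : Γ) (ξ : Ξ) (hξ : ξ ∈ orbit Γ x) :
    (r (g • ξ))⁻¹ * g * r ξ ∈ stabilizer Γ x := by
  have h1 : g • ξ ∈ orbit Γ x := by
    rw [← orbitRel_apply] at hξ ⊢
    exact (orbitRel Γ Ξ).trans (mem_orbit ξ g) hξ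
  rw [mem_stabilizer_iff, mul_smul, mul_smul, hr ξ hξ, inv_smul_eq_iff]
  exact (hr _ h1).symm

/-- The cocycle `τ` at one point.

Proof. `τ h g ξ = χ⁻¹ (r (g • ξ)) * h (r (g • ξ)⁻¹ * g * r ξ)` for `ξ` in the orbit of `x`, zero
otherwise. Here `r (g • ξ)⁻¹ * g * r ξ` is in the stabilizer `K` of `x`; `χ = 1` on `K`, so
`χ (r (g • ξ)) = χ g * χ (r ξ)`.
Cocycle rule: `r (g g' ξ)⁻¹ g g' r ξ = (r (g g' ξ)⁻¹ g r (g' ξ)) * (r (g' ξ)⁻¹ g' r ξ)`.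
Value: for `k ∈ K`, `τ h k x = χ⁻¹ (r x) * h ((r x)⁻¹ * k * r x) = h k` since `r x ∈ K` and `h` is a
homomorphism to a commutative group. -/
theorem exists_tau {Γ : Type} [Group Γ] {Ξ : Type} [MulAction Γ Ξ] {F : Type} [Field F]
    (χ : Γ →* Fˣ) (x : Ξ) (hχ : ∀ k ∈ stabilizer Γ x, χ k = 1) (r : Ξ → Γ)
    (hr : ∀ ξ ∈ orbit Γ x, r ξ • x = ξ) :
    ∃ τ : (Additive (stabilizer Γ x) →+ F) → Γ → Ξ → F,
      (∀ h g ξ, ξ ∉ orbit Γ x → τ h g ξ = 0) ∧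
      (∀ h g ξ (k : stabilizer Γ x), ξ ∈ orbit Γ x → (k : Γ) = (r (g • ξ))⁻¹ * g * r ξ →
        τ h g ξ = ((χ⁻¹ (r (g • ξ)) : Fˣ) : F) * h (Additive.ofMul k)) ∧
      (∀ h g g' ξ, τ h (g * g') ξ = τ h g (g' • ξ) + ((χ⁻¹ g : Fˣ) : F) * τ h g' ξ) ∧
      ∀ h (k : stabilizer Γ x), τ h (k : Γ) x = h (Additive.ofMul k) := by
  classical
  have hor : ∀ (g : Γ) (ξ : Ξ), g • ξ ∈ orbit Γ x ↔ ξ ∈ orbit Γ x := by
    intro g ξ
    constructor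
    · rintro ⟨a, ha⟩
      refine ⟨g⁻¹ * a, ?_⟩
      change (g⁻¹ * a) • x = ξ
      rw [mul_smul, inv_smul_eq_iff]
      exact ha
    · rintro ⟨a, ha⟩
      refine ⟨g * a, ?_⟩
      change (g * a) • x = g • ξ
      rw [mul_smul]
      exact congrArg (g • ·) ha
  refine ⟨fun h g ξ => if hξ : ξ ∈ orbit Γ x then ((χ⁻¹ (r (g • ξ)) : Fˣ) : F) *
    h (Additive.ofMul ⟨(r (g • ξ))⁻¹ * g * r ξ, tau_mem x r hr g ξ hξ⟩) else 0, ?_, ?_, ?_, ?_⟩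
  · intro h g ξ hξ
    simp only [dif_neg hξ]
  · intro h g ξ k hξ hk
    simp only [dif_pos hξ]
    congr 3
    exact Subtype.ext hk.symm
  · intro h g g' ξ
    by_cases hξ : ξ ∈ orbit Γ x
    · have hξ' : g' • ξ ∈ orbit Γ x := (hor g' ξ).2 hξ
      simp only [dif_pos hξ, dif_pos hξ']
      have hk1 := tau_mem x r hr g (g' • ξ) hξ'
      have hk2 := tau_mem x r hr g' ξ hξ
      have hk : (⟨(r ((g * g') • ξ))⁻¹ * (g * g') * r ξ, tau_mem x r hr (g * g') ξ hξ⟩ : stabilizer Γ x) =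
          ⟨(r (g • g' • ξ))⁻¹ * g * r (g' • ξ), hk1⟩ * ⟨(r (g' • ξ))⁻¹ * g' * r ξ, hk2⟩ := by
        apply Subtype.ext
        simp only [Subgroup.coe_mul]
        rw [mul_smul]
        group
      rw [hk, ofMul_mul, map_add, mul_add, mul_smul]
      congr 1
      rw [← mul_assoc, ← Units.val_mul]
      congr 2
      have h1 := hχ _ hk1
      rw [map_mul, map_mul, map_inv, mul_assoc, inv_mul_eq_one] at h1
      rw [MonoidHom.inv_apply, MonoidHom.inv_apply, MonoidHom.inv_apply, h1, mul_inv]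
    · have hξ' : g' • ξ ∉ orbit Γ x := fun h' => hξ ((hor g' ξ).1 h')
      simp only [dif_neg hξ, dif_neg hξ']
      simp
  · intro h k
    have hx : x ∈ orbit Γ x := mem_orbit_self x
    simp only [dif_pos hx]
    have hkx : (k : Γ) • x = x := k.2
    have hrx : r x ∈ stabilizer Γ x := hr x hx
    have h1 : χ (r x) = 1 := hχ _ hrx
    have hk : (⟨(r ((k : Γ) • x))⁻¹ * (k : Γ) * r x, tau_mem x r hr k x hx⟩ : stabilizer Γ x) =
        ⟨r x, hrx⟩⁻¹ * k * ⟨r x, hrx⟩ := by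
      apply Subtype.ext
      simp only [Subgroup.coe_mul, Subgroup.coe_inv]
      rw [hkx]
    rw [hk, hkx, ofMul_mul, ofMul_mul, ofMul_inv, map_add, map_add, map_neg, MonoidHom.inv_apply, h1]
    simp

end Q62
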