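import Pool.Agent.W_04c03c_h62s.SBase

/-!
# Equivariant coordinates
-/

namespace Q62

open MulAction

/-- An equivariant map of a free `K`-set to `K`.

Proof. Same as `CohD_gamma` of `Pool.Agent.W_04c03c_h62.CohD` (which has one more hypothesis, not
used): `s = κ s • q.out` for the orbit `q` of `s`, and `κ` is unique by freeness. -/
theorem exists_kappa {K : Type} [Group K] {S : Type} [MulAction K S]
    (hfree : ∀ (k : K) (s : S), k • s = s → k = 1) :
    ∃ κ : S → K, ∀ (k : K) (s : S), κ (k • s) = k * κ s := by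
  have h1 : ∀ s : S, ∃ g : K, g • (Quotient.mk'' s : orbitRel.Quotient K S).out = s := by
    intro s
    have h2 : s ∈ orbit K (Quotient.mk'' s : orbitRel.Quotient K S).out := by
      have h3 := Quotient.exact (s := orbitRel K S)
        (Quotient.out_eq (Quotient.mk'' s : orbitRel.Quotient K S)).symm
      exact orbitRel_apply.1 h3
    exact h2
  choose γ hγ using h1
  refine ⟨γ, fun g s => ?_⟩
  have h4 : (Quotient.mk'' (g • s) : orbitRel.Quotient K S) = Quotient.mk'' s :=
    Quotient.sound (s := orbitRel K S) (orbitRel_apply.2 ⟨g, rfl⟩)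
  have h5 := hγ (g • s)
  rw [h4] at h5
  have h6 := hγ s
  have h7 : ((g * γ s)⁻¹ * γ (g • s)) • (Quotient.mk'' s : orbitRel.Quotient K S).out =
      (Quotient.mk'' s : orbitRel.Quotient K S).out := by
    rw [mul_smul, h5, inv_smul_eq_iff, mul_smul, h6]
  have h8 := hfree _ _ h7
  exact (inv_mul_eq_one.1 h8).symm

/-- A section of the orbit map: `r ξ • x = ξ` on the orbit of `x`. -/
theorem exists_section {Γ : Type} [Group Γ] {Ξ : Type} [MulAction Γ Ξ] (x : Ξ) :
    ∃ r : Ξ → Γ, ∀ ξ ∈ orbit Γ x, r ξ • x = ξ := by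
  classical
  refine ⟨fun ξ => if h : ξ ∈ orbit Γ x then h.choose else 1, fun ξ h => ?_⟩
  simp only [dif_pos h]
  exact h.choose_spec

end Q62
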