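import Mathlib

/-!
# Linear algebra: ranks of pairings
-/

namespace Q62

/-- Let `B : U → H*` be a bilinear pairing with `H` finite-dimensional, which vanishes on the kernel of
`Θ : U → H` with values in `A ≤ H`, and let the injective map `σ` map the annihilator of `B` into
`C ≤ H`. Then `dim H ≤ dim A + dim C`.

Proof. `range B ≤ Dual F H` is finite-dimensional, and its `dualCoannihilator` in `H` is
`K = {h | ∀ u, B u h = 0}`; `finrank (range B) + finrank K = finrank H`
(`Subspace.finrank_add_finrank_dualCoannihilator_eq`). `ker Θ ≤ ker B`, so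
`finrank (range B) ≤ finrank (range Θ) ≤ finrank A` (for instance: `B` factors through `range Θ`).
`σ` maps `K` injectively to `C`, so `finrank K ≤ finrank C`. -/
theorem rank_ineq {F H U : Type} [Field F] [AddCommGroup H] [Module F H]
    [FiniteDimensional F H] [AddCommGroup U] [Module F U]
    (B : U →ₗ[F] Module.Dual F H) (Θ : U →ₗ[F] H) (A C : Submodule F H) (hA : ∀ u, Θ u ∈ A)
    (hΘ : ∀ u, Θ u = 0 → B u = 0) (σ : H →ₗ[F] H) (hσ : Function.Injective σ)
    (hC : ∀ h, (∀ u, B u h = 0) → σ h ∈ C) :
    Module.finrank F H ≤ Module.finrank F A + Module.finrank F C := by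
  set K : Submodule F H := (LinearMap.range B).dualCoannihilator with hK
  have h1 : Module.finrank F (LinearMap.range B) + Module.finrank F K = Module.finrank F H :=
    Subspace.finrank_add_finrank_dualCoannihilator_eq (LinearMap.range B)
  have h2 : Module.finrank F (LinearMap.range B) ≤ Module.finrank F A := by
    have hle : LinearMap.ker Θ ≤ LinearMap.ker B := fun u hu => by
      rw [LinearMap.mem_ker] at hu ⊢
      exact hΘ u hu
    let f : LinearMap.range Θ →ₗ[F] Module.Dual F H :=
      ((LinearMap.ker Θ).liftQ B hle).comp (Θ.quotKerEquivRange.symm : LinearMap.range Θ →ₗ[F] (U ⧸ LinearMap.ker Θ))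
    have hf : LinearMap.range B ≤ LinearMap.range f := by
      rintro _ ⟨u, rfl⟩
      refine ⟨⟨Θ u, LinearMap.mem_range_self Θ u⟩, ?_⟩
      have : Θ.quotKerEquivRange.symm ⟨Θ u, LinearMap.mem_range_self Θ u⟩ = (LinearMap.ker Θ).mkQ u := by
        rw [LinearEquiv.symm_apply_eq]
        rfl
      simp only [f, LinearMap.comp_apply, LinearEquiv.coe_coe]
      rw [this]
      simp
    calc Module.finrank F (LinearMap.range B) ≤ Module.finrank F (LinearMap.range f) :=
          Submodule.finrank_mono hf
      _ ≤ Module.finrank F (LinearMap.range Θ) := LinearMap.finrank_range_le f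
      _ ≤ Module.finrank F A := Submodule.finrank_mono (by rintro _ ⟨u, rfl⟩; exact hA u)
  have h3 : Module.finrank F K ≤ Module.finrank F C := by
    calc Module.finrank F K = Module.finrank F (K.map σ) :=
          (LinearEquiv.finrank_eq (Submodule.equivMapOfInjective σ hσ K))
      _ ≤ Module.finrank F C := Submodule.finrank_mono (by
        rintro _ ⟨h, hh, rfl⟩
        apply hC
        intro u
        rw [hK, SetLike.mem_coe, Submodule.mem_dualCoannihilator] at hh
        exact hh (B u) (LinearMap.mem_range_self B u))
  omega

end Q62
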