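import Pool.Agent.W_04c03c_h62s.SKap

/-!
# The local construction at one point
-/

namespace Q62

open MulAction

/-- The functions `L h` at one point `x`.

Proof. Take `r` from `exists_section`, `τ` from `exists_tau`, and `κ` from `exists_kappa` for the
stabilizer `K` of `x` acting on `S`. Put `L h s ξ = χ⁻¹ (r ξ) * h (κ ((r ξ)⁻¹ • s))` for `ξ` in the orbit
of `x`, zero otherwise; it is linear in `h`. For `ξ` in the orbit of `x` put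
`k = r (g • ξ)⁻¹ * g * r ξ ∈ K`; then `r (g • ξ)⁻¹ • g • s = k • (r ξ)⁻¹ • s`, so
`κ (r (g • ξ)⁻¹ • g • s) = k * κ ((r ξ)⁻¹ • s)` and `L h (g • s) (g • ξ) = χ⁻¹ (r (g • ξ)) * h k +
χ⁻¹ (r (g • ξ)) * h (κ ((r ξ)⁻¹ • s)) = τ h g ξ + χ⁻¹ g * L h s ξ`, because
`χ (r (g • ξ)) = χ g * χ (r ξ) / χ k = χ g * χ (r ξ)`. -/
theorem exists_L {Γ : Type} [Group Γ] {Ξ S : Type} [MulAction Γ Ξ] [MulAction Γ S] {F : Type}
    [Field F] (hfree : ∀ (g : Γ) (s : S), g • s = s → g = 1) (χ : Γ →* Fˣ) (x : Ξ)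
    (hχ : ∀ k ∈ stabilizer Γ x, χ k = 1) :
    ∃ (L : (Additive (stabilizer Γ x) →+ F) →ₗ[F] (S → Ξ → F))
      (τ : (Additive (stabilizer Γ x) →+ F) → Γ → Ξ → F),
      (∀ h (g : Γ) s ξ, L h (g • s) (g • ξ) = ((χ⁻¹ g : Fˣ) : F) * L h s ξ + τ h g ξ) ∧
      (∀ h s ξ, ξ ∉ orbit Γ x → L h s ξ = 0) ∧
      (∀ h g ξ, ξ ∉ orbit Γ x → τ h g ξ = 0) ∧
      (∀ h g g' ξ, τ h (g * g') ξ = τ h g (g' • ξ) + ((χ⁻¹ g : Fˣ) : F) * τ h g' ξ) ∧
      ∀ h (k : stabilizer Γ x), τ h (k : Γ) x = h (Additive.ofMul k) := by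
  classical
  obtain ⟨r, hr⟩ := exists_section (Γ := Γ) x
  obtain ⟨τ, hτ0, hτ1, hτ2, hτ3⟩ := exists_tau χ x hχ r hr
  obtain ⟨κ, hκ⟩ := exists_kappa (K := stabilizer Γ x) (S := S)
    (fun k s h => Subtype.ext (hfree (k : Γ) s h))
  let L : (Additive (stabilizer Γ x) →+ F) →ₗ[F] (S → Ξ → F) :=
    { toFun := fun h s ξ => if ξ ∈ orbit Γ x then
        ((χ⁻¹ (r ξ) : Fˣ) : F) * h (Additive.ofMul (κ ((r ξ)⁻¹ • s))) else 0
      map_add' := by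
        intro h h'
        funext s ξ
        by_cases hξ : ξ ∈ orbit Γ x
        · simp only [if_pos hξ, Pi.add_apply, AddMonoidHom.add_apply]
          ring
        · simp only [if_neg hξ, Pi.add_apply, add_zero]
      map_smul' := by
        intro c h
        funext s ξ
        by_cases hξ : ξ ∈ orbit Γ x
        · simp only [if_pos hξ, Pi.smul_apply, smul_eq_mul, RingHom.id_apply]
          show _ * (c * h _) = c * (_ * h _)
          ring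
        · simp only [if_neg hξ, Pi.smul_apply, smul_zero] }
  have hL : ∀ h s ξ, ξ ∈ orbit Γ x → L h s ξ =
      ((χ⁻¹ (r ξ) : Fˣ) : F) * h (Additive.ofMul (κ ((r ξ)⁻¹ • s))) := fun h s ξ hξ => if_pos hξ
  have hL0 : ∀ h s ξ, ξ ∉ orbit Γ x → L h s ξ = 0 := fun h s ξ hξ => if_neg hξ
  refine ⟨L, τ, ?_, hL0, hτ0, hτ2, hτ3⟩
  intro h g s ξ
  by_cases hξ : ξ ∈ orbit Γ x
  · have hgξ : g • ξ ∈ orbit Γ x := by
      obtain ⟨g', hg'⟩ := hξ
      exact ⟨g * g', by rw [← hg']; exact mul_smul g g' x⟩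
    have hk : (r (g • ξ))⁻¹ * g * r ξ ∈ stabilizer Γ x := by
      rw [mem_stabilizer_iff, mul_smul, mul_smul, hr ξ hξ, inv_smul_eq_iff, hr _ hgξ]
    have h1 : (r (g • ξ))⁻¹ • g • s =
        (⟨(r (g • ξ))⁻¹ * g * r ξ, hk⟩ : stabilizer Γ x) • ((r ξ)⁻¹ • s) := by
      show _ = ((r (g • ξ))⁻¹ * g * r ξ) • ((r ξ)⁻¹ • s)
      rw [smul_smul, smul_smul, mul_assoc, mul_inv_cancel, mul_one]
    have h2 : χ (r (g • ξ)) = χ g * χ (r ξ) := by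
      have h3 := hχ _ hk
      rw [map_mul, map_mul, map_inv, mul_assoc, inv_mul_eq_one] at h3
      exact h3
    have h4 : ((χ⁻¹ (r (g • ξ)) : Fˣ) : F) = ((χ⁻¹ g : Fˣ) : F) * ((χ⁻¹ (r ξ) : Fˣ) : F) := by
      rw [← Units.val_mul, MonoidHom.inv_apply, MonoidHom.inv_apply, MonoidHom.inv_apply, h2,
        mul_inv]
    rw [hL h _ _ hgξ, hL h _ _ hξ, hτ1 h g ξ ⟨_, hk⟩ hξ rfl, h1, hκ, ofMul_mul, map_add]
    rw [mul_add, ← mul_assoc, ← h4, add_comm]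
  · have hgξ : g • ξ ∉ orbit Γ x := by
      intro h1
      apply hξ
      obtain ⟨g', hg'⟩ := h1
      refine ⟨g⁻¹ * g', ?_⟩
      show (g⁻¹ * g') • x = ξ
      have hg'' : g' • x = g • ξ := hg'
      rw [mul_smul, hg'', inv_smul_smul]
    rw [hL0 h _ _ hgξ, hL0 h _ _ hξ, hτ0 h g ξ hξ, mul_zero, add_zero]

end Q62
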