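import Pool.Agent.W_04c03c_h62s.STDef

/-!
# The support of `T h`
-/

namespace Q62

open MulAction

section
variable {Γ : Type} [Group Γ] {Ξ S0 S1 S2 : Type} [MulAction Γ Ξ] [MulAction Γ S0]
    [MulAction Γ S1] [MulAction Γ S2] (P : WPD Γ Ξ S0 S1 S2) {F : Type} [Field F] {χ : Γ →* Fˣ}
    {I : Type} {x : I → Ξ}

/-- `T h` has support finite modulo `Γ`.

Proof. If `T h s ≠ 0` then there is `ξ` with `P.eta s ξ ≠ 0`, `L h s ξ ≠ 0`, so `ξ = r • x i` for some
`i`, `r` (`D.supp`), `P.eta (r⁻¹ • s) (x i) ≠ 0`, and `r⁻¹ • s = k • s'` with `s'` in the finite set of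
`hx i`. Take the union of these finite sets (`I` is finite). -/
theorem LData.T_gfin [Finite I] (D : LData S2 χ x) (hx : ∀ i, P.Full (x i)) (h : Hs Γ F x) :
    GFin Γ (D.T P h) := by
  classical
  have hfin : Fintype I := Fintype.ofFinite I
  choose t ht using hx
  refine ⟨Finset.univ.biUnion t, fun s hs => ?_⟩
  have h1 : ∃ ξ ∈ (P.eta s).support, D.L h s ξ ≠ 0 := by
    by_contra hcon
    push Not at hcon
    apply hs
    rw [LData.T_apply]
    unfold ev
    rw [Finsupp.linearCombination_apply]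
    refine Finset.sum_eq_zero fun x hx => ?_
    show (P.eta s) x • D.L h s x = 0
    rw [hcon x hx, smul_zero]
  obtain ⟨ξ, hξ, hL⟩ := h1
  obtain ⟨i, r, hr⟩ := D.supp h s ξ hL
  have hr' : r • x i = ξ := hr
  have h2 := P.eta_inv r (r⁻¹ • s) (x i)
  rw [smul_inv_smul, hr'] at h2
  obtain ⟨k, _, s', hs', hk⟩ := ht i (r⁻¹ • s) (by
    rw [← h2]
    exact Finsupp.mem_support_iff.1 hξ)
  refine ⟨r * k, s', ?_, ?_⟩
  · rw [Finset.mem_biUnion]
    exact ⟨i, Finset.mem_univ i, hs'⟩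
  · rw [mul_smul, ← hk, smul_inv_smul]

end

end Q62
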