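import Pool.Agent.W_04c03c_h62s.STA
import Pool.Agent.W_04c03c_h62s.STB

/-!
# The functions `V h`
-/

namespace Q62

open MulAction

section
variable {Γ : Type} [Group Γ] {Ξ S0 S1 S2 : Type} [MulAction Γ Ξ] [MulAction Γ S0]
    [MulAction Γ S1] [MulAction Γ S2] (P : WPD Γ Ξ S0 S1 S2) {F : Type} [Field F] {χ : Γ →* Fˣ}
    {I : Type} {x : I → Ξ}

/-- `V h` is equivariant for `χ⁻¹`, with support finite modulo `Γ`.

Proof. `GFin`: `LData.T_gfin`, `GFin.pull`. Equivariance: `P.D2.col (g • b) =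
(P.D2.col b).mapDomain (g • ·)` (`IMat.col_smul`), so `V h (g • b) = ∑ s, D2 s b * T h (g • s) =
χ⁻¹ g * V h b + ev (τ h g) (∑ s, D2 s b • P.eta s)` (`LData.T_smul`), and `∑ s, D2 s b • P.eta s =
linearCombination ℤ P.eta (P.D2.col b) = 0`, because `P.D2.col b = P.D2.colMap (single b 1)` is in
`range P.D2.colMap = ker (linearCombination ℤ P.eta)` (`P.ex2'`). -/
theorem LData.V_mem [Finite I] (D : LData S2 χ x) (hx : ∀ i, P.Full (x i)) (h : Hs Γ F x) :
    D.V P h ∈ GF S1 F χ⁻¹ := by
  refine ⟨?_, (D.T_gfin P hx h).pull P.D2.tp⟩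
  intro g b
  show ev (D.T P h) (P.D2.col (g • b)) = ((χ⁻¹ g : Fˣ) : F) * ev (D.T P h) (P.D2.col b)
  have h1 : ∀ y : S2 →₀ ℤ, ev (D.T P h) (y.mapDomain (g • ·)) =
      ((χ⁻¹ g : Fˣ) : F) * ev (D.T P h) y +
        ev (D.τ h g) (Finsupp.linearCombination ℤ P.eta y) := by
    intro y
    induction y using Finsupp.induction_linear with
    | zero => simp
    | add x y hx hy =>
      rw [Finsupp.mapDomain_add, map_add, hx, hy, map_add, map_add, map_add]
      ring
    | single s n =>
      rw [Finsupp.mapDomain_single, ev_single, ev_single, D.T_smul P,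
        Finsupp.linearCombination_single, map_zsmul, zsmul_eq_mul]
      ring
  have h2 : Finsupp.linearCombination ℤ P.eta (P.D2.col b) = 0 := by
    have h3 : P.D2.col b ∈ LinearMap.ker (Finsupp.linearCombination ℤ P.eta) := by
      rw [P.ex2']
      refine ⟨Finsupp.single b 1, ?_⟩
      unfold IMat.colMap
      rw [Finsupp.linearCombination_single, one_smul]
    exact h3
  rw [P.D2.col_smul, h1, h2, map_zero, add_zero]

end

end Q62
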