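import Pool.Agent.W_04c03c_h62s.STDef

/-!
# The transformation rule of `T h`
-/

namespace Q62

open MulAction

section
variable {Γ : Type} [Group Γ] {Ξ S0 S1 S2 : Type} [MulAction Γ Ξ] [MulAction Γ S0]
    [MulAction Γ S1] [MulAction Γ S2] (P : WPD Γ Ξ S0 S1 S2) {F : Type} [Field F] {χ : Γ →* Fˣ}
    {I : Type} {x : I → Ξ}

/-- The transformation rule of `T h`.

Proof. `P.eta (g • s) = (P.eta s).mapDomain (g • ·)` (from `P.eta_inv`, as in `IMat.row_smul` of
`Pool.Agent.W_04c03c_h62.Pull`), so `T h (g • s) = ∑ ξ, P.eta s ξ * L h (g • s) (g • ξ)` (`Finsupp`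
induction or `Finsupp.linearCombination_mapDomain`), and `D.eq`. -/
theorem LData.T_smul (D : LData S2 χ x) (h : Hs Γ F x) (g : Γ) (s : S2) :
    D.T P h (g • s) = ((χ⁻¹ g : Fˣ) : F) * D.T P h s + ev (D.τ h g) (P.eta s) := by
  have hes : P.eta (g • s) = (P.eta s).mapDomain (g • ·) := by
    ext t
    have h1 : t = (fun x : Ξ => g • x) (g⁻¹ • t) := by
      simp
    rw [h1, Finsupp.mapDomain_apply (MulAction.injective g)]
    exact P.eta_inv g s (g⁻¹ • t)
  rw [D.T_apply, D.T_apply, hes]
  generalize P.eta s = y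
  induction y using Finsupp.induction_linear with
  | zero => simp
  | add x y hx hy => rw [Finsupp.mapDomain_add, map_add, hx, hy, map_add, map_add]; ring
  | single ξ n =>
    rw [Finsupp.mapDomain_single, ev_single, ev_single, ev_single, D.eq]
    ring

end

end Q62
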