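import Pool.Agent.W_04c03c_h62s.SFam

/-!
# The functions `T h` and `V h`: definitions
-/

namespace Q62

open MulAction

section
variable {Γ : Type} [Group Γ] {Ξ S0 S1 S2 : Type} [MulAction Γ Ξ] [MulAction Γ S0]
    [MulAction Γ S1] [MulAction Γ S2] (P : WPD Γ Ξ S0 S1 S2) {F : Type} [Field F] {χ : Γ →* Fˣ}
    {I : Type} {x : I → Ξ}

/-- `T h s = ∑ ξ, eta s ξ * L h s ξ`. -/
noncomputable def LData.T (D : LData S2 χ x) : Hs Γ F x →ₗ[F] (S2 → F) where
  toFun h s := ev (D.L h s) (P.eta s)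
  map_add' := by
    intro h h'
    funext s
    show ev (D.L (h + h') s) (P.eta s) = ev (D.L h s) (P.eta s) + ev (D.L h' s) (P.eta s)
    rw [map_add, Pi.add_apply, evW_add]
  map_smul' := by
    intro c h
    funext s
    show ev (D.L (c • h) s) (P.eta s) = c * ev (D.L h s) (P.eta s)
    rw [map_smul, Pi.smul_apply, evW_smul]

theorem LData.T_apply (D : LData S2 χ x) (h : Hs Γ F x) (s : S2) :
    D.T P h s = ev (D.L h s) (P.eta s) := rfl

/-- `V h b = ∑ s, D2 s b * T h s`. -/
noncomputable def LData.V (D : LData S2 χ x) (h : Hs Γ F x) : S1 → F := P.D2.tp.pull (D.T P h)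

theorem LData.V_add (D : LData S2 χ x) (h h' : Hs Γ F x) :
    D.V P (h + h') = D.V P h + D.V P h' := by
  unfold LData.V
  rw [map_add, ← IMat.pullL_apply, ← IMat.pullL_apply, ← IMat.pullL_apply, map_add]

theorem LData.V_smul (D : LData S2 χ x) (c : F) (h : Hs Γ F x) :
    D.V P (c • h) = c • D.V P h := by
  unfold LData.V
  rw [map_smul, ← IMat.pullL_apply, ← IMat.pullL_apply, map_smul]

end

end Q62
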