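import Pool.Agent.W_04c03c_h62.Rich

/-!
# Three inequivalent points
-/

namespace Q62

open MulAction

section
variable {Γ Q : Type} [Group Γ] [Group Q] {Ξ : Type} [MulAction Γ Ξ]

/-- Three points which are not equivalent under the kernel.

Proof. `A` is finite, so the index is the number of left cosets of the image `K` of the stabilizer;
choose three elements of `A` in different cosets and preimages `g i` of them. If
`g i • ξ = n • g j • ξ` with `n ∈ F.ker`, then `(g i)⁻¹ * n * g j` is in the stabilizer, so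
`(F (g i))⁻¹ * F (g j) ∈ K`, and the cosets coincide. -/
theorem three_points {A : Type} [Group A] [Finite A] (F : Γ →* A) (hF : Function.Surjective F)
    (ξ : Ξ) (h : 3 ≤ ((stabilizer Γ ξ).map F).index) :
    ∃ g : Fin 3 → Γ, ∀ i j, i ≠ j → g i • ξ ∉ orbit F.ker (g j • ξ) := by
  classical
  have := Fintype.ofFinite (A ⧸ (stabilizer Γ ξ).map F)
  have h1 : Fintype.card (Fin 3) ≤ Fintype.card (A ⧸ (stabilizer Γ ξ).map F) := by
    rw [Fintype.card_fin, ← Nat.card_eq_fintype_card]
    exact h
  obtain ⟨q⟩ := Function.Embedding.nonempty_of_card_le h1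
  refine ⟨fun i => Function.surjInv hF (q i).out, ?_⟩
  rintro i j hij ⟨⟨n, hn⟩, hn'⟩
  have hn2 : n • (Function.surjInv hF (q j).out) • ξ = (Function.surjInv hF (q i).out) • ξ := hn'
  apply hij
  apply q.injective
  rw [← Quotient.out_eq (q i), ← Quotient.out_eq (q j)]
  refine QuotientGroup.eq.2 ⟨(Function.surjInv hF (q i).out)⁻¹ * n *
    (Function.surjInv hF (q j).out), ?_, ?_⟩
  · show _ • ξ = ξ
    rw [mul_smul, mul_smul, hn2, inv_smul_smul]
  · rw [map_mul, map_mul, map_inv, Function.surjInv_eq hF, Function.surjInv_eq hF,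
      MonoidHom.mem_ker.1 hn, mul_one]

/-- A rich quotient gives three points.

Proof. Let `f : Q →* Perm (Fin n)` be the map, `F = f.rangeRestrict.comp π : Γ → f.range`, onto a finite
group. The image of the stabilizer is a commutative subgroup of `f.range`, so its index is at least
three (`HasRichQuotient`); `three_points` gives `g`. Take `N = f.ker`, of finite index;
`N.comap π = F.ker` (rewrite with an equality of subgroups, or check membership in the orbits). -/
theorem three_of_rich (h : HasRichQuotient Q) (π : Γ →* Q) (hπ : Function.Surjective π) (ξ : Ξ)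
    (hcomm : ∀ a ∈ stabilizer Γ ξ, ∀ b ∈ stabilizer Γ ξ, a * b = b * a) :
    ∃ N : Subgroup Q, N.FiniteIndex ∧ ∃ g : Fin 3 → Γ,
      ∀ i j, i ≠ j → g i • ξ ∉ orbit (N.comap π) (g j • ξ) := by
  obtain ⟨n, f, hf⟩ := h
  have hF : Function.Surjective (f.rangeRestrict.comp π) :=
    f.rangeRestrict_surjective.comp hπ
  have h3 : 3 ≤ ((stabilizer Γ ξ).map (f.rangeRestrict.comp π)).index := by
    by_contra hcon
    obtain ⟨a, ⟨a', ha', ha⟩, b, ⟨b', hb', hb⟩, hab⟩ :=
      hf ((stabilizer Γ ξ).map (f.rangeRestrict.comp π)) (by omega)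
    apply hab
    rw [← ha, ← hb, ← map_mul, ← map_mul, hcomm a' ha' b' hb']
  obtain ⟨g, hg⟩ := three_points (f.rangeRestrict.comp π) hF ξ h3
  refine ⟨f.ker, inferInstance, g, ?_⟩
  rintro i j hij ⟨⟨m, hm⟩, hm'⟩
  refine hg i j hij ⟨⟨m, ?_⟩, hm'⟩
  rw [MonoidHom.mem_ker]
  apply Subtype.ext
  exact hm

end

end Q62
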