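import Pool.Agent.W_04c03c_h62s.SWDef

/-!
# The decomposition of `V h`: equivariance
-/

namespace Q62

open MulAction

section
variable {Γ : Type} [Group Γ] {Ξ S0 S1 S2 : Type} [MulAction Γ Ξ] [MulAction Γ S0]
    [MulAction Γ S1] [MulAction Γ S2] (P : WPD Γ Ξ S0 S1 S2) {F : Type} [Field F] {χ : Γ →* Fˣ}
    {I : Type} {x : I → Ξ}

theorem SWB_mapDomain (u : S2 → F) (g : Γ) (y : S2 →₀ ℤ) :
    ev u (y.mapDomain (g • ·)) = ev (fun s => u (g • s)) y := by
  induction y using Finsupp.induction_linear with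
  | zero => simp
  | add a b ha hb => rw [Finsupp.mapDomain_add, map_add, ha, hb, map_add]
  | single s n => rw [Finsupp.mapDomain_single, ev_single, ev_single]

theorem SWB_eta (ξ : Ξ) (y : S2 →₀ ℤ) :
    ev (fun s => ((P.eta s ξ : ℤ) : F)) y =
      (((Finsupp.linearCombination ℤ P.eta y) ξ : ℤ) : F) := by
  induction y using Finsupp.induction_linear with
  | zero => simp
  | add a b ha hb => rw [map_add, ha, hb, map_add, Finsupp.add_apply, Int.cast_add]
  | single s n =>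
    rw [ev_single, Finsupp.linearCombination_single, Finsupp.smul_apply, smul_eq_mul, Int.cast_mul]

/-- Equivariance.

Proof. `P.D2.col (g • b) = (P.D2.col b).mapDomain (g • ·)` (`IMat.col_smul`), and
`eta (g • s) (g • ξ) * L h (g • s) (g • ξ) = eta s ξ * (χ⁻¹ g * L h s ξ + τ h g ξ)`; so
`W h (g • ξ) (g • b) = χ⁻¹ g * W h ξ b + τ h g ξ * ∑ s, D2 s b * eta s ξ`, and the last sum is the value
at `ξ` of `linearCombination ℤ P.eta (P.D2.col b) = 0` (`P.ex2'`). -/
theorem LData.W_smul (D : LData S2 χ x) (h : Hs Γ F x) (g : Γ) (ξ : Ξ) (b : S1) :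
    D.W P h (g • ξ) (g • b) = ((χ⁻¹ g : Fˣ) : F) * D.W P h ξ b := by
  have h0 : ∀ (ζ : Ξ) (c : S1), D.W P h ζ c =
      ev (fun s => ((P.eta s ζ : ℤ) : F) * D.L h s ζ) (P.D2.col c) := fun _ _ => rfl
  rw [h0, h0, P.D2.col_smul, SWB_mapDomain]
  have h1 : (fun s => ((P.eta (g • s) (g • ξ) : ℤ) : F) * D.L h (g • s) (g • ξ)) =
      ((χ⁻¹ g : Fˣ) : F) • (fun s => ((P.eta s ξ : ℤ) : F) * D.L h s ξ) +
        D.τ h g ξ • (fun s => ((P.eta s ξ : ℤ) : F)) := by
    funext s
    rw [P.eta_inv, D.eq, Pi.add_apply, Pi.smul_apply, Pi.smul_apply, smul_eq_mul, smul_eq_mul]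
    ring
  have h2 : Finsupp.linearCombination ℤ P.eta (P.D2.col b) = 0 := by
    have h3 : P.D2.col b ∈ LinearMap.range P.D2.colMap := by
      refine ⟨Finsupp.single b 1, ?_⟩
      unfold IMat.colMap
      rw [Finsupp.linearCombination_single, one_smul]
    rw [← P.ex2'] at h3
    exact h3
  rw [h1, evW_add, evW_smul, evW_smul, SWB_eta, h2, Finsupp.zero_apply, Int.cast_zero, mul_zero,
    add_zero]

end

end Q62
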