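import Pool.Agent.W_04c03c_h62s.SWDef

/-!
# The decomposition of `V h`: support
-/

namespace Q62

open MulAction

section
variable {Γ : Type} [Group Γ] {Ξ S0 S1 S2 : Type} [MulAction Γ Ξ] [MulAction Γ S0]
    [MulAction Γ S1] [MulAction Γ S2] (P : WPD Γ Ξ S0 S1 S2) {F : Type} [Field F] {χ : Γ →* Fˣ}
    {I : Type} {x : I → Ξ}

/-- Support.

Proof. If `W h ξ b ≠ 0` there is `s` with `D2 s b ≠ 0`, `eta s ξ ≠ 0`, `L h s ξ ≠ 0`; so `ξ = r • x i`
(`D.supp`), `eta (r⁻¹ • s) (x i) ≠ 0`, `r⁻¹ • s = k • s'` with `k` in the stabilizer of `x i` and `s'` in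
the finite set `t i` of `hx i`. With `g = r * k`: `ξ = g • x i`, `s = g • s'`, and `D2 s' (g⁻¹ • b) ≠ 0`.
Take for `t` the union over `i` and `s' ∈ t i` of the pairs `(i, b')` with `b'` in the support of
`P.D2.row s'`. -/
theorem LData.W_supp [Finite I] (D : LData S2 χ x) (hx : ∀ i, P.Full (x i)) (h : Hs Γ F x) :
    ∃ t : Finset (I × S1), ∀ ξ b, D.W P h ξ b ≠ 0 →
      ∃ g : Γ, ∃ p ∈ t, ξ = g • x p.1 ∧ b = g • p.2 := by
  classical
  have := Fintype.ofFinite I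
  choose t ht using hx
  refine ⟨Finset.univ.biUnion fun i => (t i).biUnion fun s' =>
    (P.D2.row s').support.image fun b' => (i, b'), fun ξ b hW => ?_⟩
  have h1 : ∃ s ∈ (P.D2.col b).support, ((P.eta s ξ : ℤ) : F) * D.L h s ξ ≠ 0 := by
    by_contra hcon
    push Not at hcon
    apply hW
    unfold LData.W IMat.pull ev
    rw [Finsupp.linearCombination_apply]
    refine Finset.sum_eq_zero fun s hs => ?_
    show (P.D2.tp.row b) s • (((P.eta s ξ : ℤ) : F) * D.L h s ξ) = 0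
    rw [hcon s hs, smul_zero]
  obtain ⟨s, hs, hne⟩ := h1
  have heta : P.eta s ξ ≠ 0 := by
    intro h0
    apply hne
    rw [h0, Int.cast_zero, zero_mul]
  have hL : D.L h s ξ ≠ 0 := right_ne_zero_of_mul hne
  obtain ⟨i, r, hr⟩ := D.supp h s ξ hL
  have hr' : r • x i = ξ := hr
  have h2 : P.eta (r⁻¹ • s) (x i) ≠ 0 := by
    have h3 := P.eta_inv r (r⁻¹ • s) (x i)
    rw [smul_inv_smul, hr'] at h3
    rw [← h3]
    exact heta
  obtain ⟨k, hk, s', hs', he⟩ := ht i _ h2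
  have hk' : k • x i = x i := mem_stabilizer_iff.1 hk
  have hgs : (r * k) • s' = s := by
    rw [mul_smul, ← he, smul_inv_smul]
  refine ⟨r * k, (i, (r * k)⁻¹ • b), ?_, ?_, ?_⟩
  · rw [Finset.mem_biUnion]
    refine ⟨i, Finset.mem_univ i, ?_⟩
    rw [Finset.mem_biUnion]
    refine ⟨s', hs', ?_⟩
    rw [Finset.mem_image]
    refine ⟨(r * k)⁻¹ • b, ?_, rfl⟩
    rw [Finsupp.mem_support_iff]
    have h4 := P.D2.inv (r * k) s' ((r * k)⁻¹ • b)
    rw [smul_inv_smul, hgs] at h4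
    rw [← h4, P.D2.tr]
    exact Finsupp.mem_support_iff.1 hs
  · show ξ = (r * k) • x i
    rw [mul_smul, hk', hr']
  · show b = (r * k) • ((r * k)⁻¹ • b)
    rw [smul_inv_smul]

end

end Q62
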