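import Pool.Agent.W_04c03c_h62s.SWDef

/-!
# The decomposition of `V h`: sums
-/

namespace Q62

open MulAction

section
variable {Γ : Type} [Group Γ] {Ξ S0 S1 S2 : Type} [MulAction Γ Ξ] [MulAction Γ S0]
    [MulAction Γ S1] [MulAction Γ S2] (P : WPD Γ Ξ S0 S1 S2) {F : Type} [Field F] {χ : Γ →* Fˣ}
    {I : Type} {x : I → Ξ}

/-- The composition of the two transposed coboundaries is zero.

Proof. `P.D1.tp.pull (P.D2.tp.pull t) a = ev (P.D2.tp.pull t) (P.D1.col a) =
ev t (P.D2.tp.rowMap (P.D1.col a)) = ev t (P.D2.colMap (P.D1.colMap (single a 1))) = 0`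
(`IMat.ev_pull`, `P.ex1'`). -/
theorem WPD.tp_tp (t : S2 → F) : P.D1.tp.pull (P.D2.tp.pull t) = 0 := by
  funext a
  show ev (P.D2.tp.pull t) (P.D1.tp.row a) = 0
  rw [IMat.ev_pull, IMat.tp_rowMap]
  have h1 : P.D1.tp.row a = P.D1.colMap (Finsupp.single a 1) := by
    show P.D1.col a = Finsupp.linearCombination ℤ P.D1.col (Finsupp.single a 1)
    rw [Finsupp.linearCombination_single, one_smul]
  have h2 : P.D1.colMap (Finsupp.single a 1) ∈ LinearMap.ker P.D2.colMap := by
    rw [P.ex1']
    exact LinearMap.mem_range_self _ _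
  rw [h1, LinearMap.mem_ker.1 h2, map_zero]

/-- Exchange of the sums over a finitely supported chain. -/
theorem swa_exch {S Y K : Type} [Field K] (v : S → Y → K) (η : S → Y →₀ ℤ) (c : S →₀ ℤ) :
    (Function.support fun y => ev (fun s => ((η s y : ℤ) : K) * v s y) c).Finite ∧
      ev (fun s => ev (v s) (η s)) c
        = ∑ᶠ y, ev (fun s => ((η s y : ℤ) : K) * v s y) c := by
  induction c using Finsupp.induction_linear with
  | zero => simp
  | add a b ha hb =>
    obtain ⟨ha1, ha2⟩ := ha
    obtain ⟨hb1, hb2⟩ := hb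
    have h0 : (fun y => ev (fun s => ((η s y : ℤ) : K) * v s y) (a + b))
        = fun y => ev (fun s => ((η s y : ℤ) : K) * v s y) a
          + ev (fun s => ((η s y : ℤ) : K) * v s y) b := by
      funext y
      rw [map_add]
    rw [h0]
    constructor
    · exact (ha1.union hb1).subset (Function.support_add _ _)
    · rw [map_add, ha2, hb2, finsum_add_distrib ha1 hb1]
  | single s n =>
    have h0 : (fun y => ev (fun s => ((η s y : ℤ) : K) * v s y) (Finsupp.single s n))
        = fun y => (n : K) * (((η s y : ℤ) : K) * v s y) := by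
      funext y
      rw [ev_single]
    rw [h0]
    have h1 : (Function.support fun y => (n : K) * (((η s y : ℤ) : K) * v s y))
        ⊆ ((η s).support : Set Y) := by
      intro y hy
      rw [Function.mem_support] at hy
      rw [Finset.mem_coe, Finsupp.mem_support_iff]
      intro h
      apply hy
      rw [h, Int.cast_zero, zero_mul, mul_zero]
    refine ⟨(Finset.finite_toSet _).subset h1, ?_⟩
    rw [finsum_eq_sum_of_support_subset _ h1, ev_single]
    show (n : K) * Finsupp.linearCombination ℤ (v s) (η s) = _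
    rw [Finsupp.linearCombination_apply, Finsupp.sum, Finset.mul_sum]
    refine Finset.sum_congr rfl fun y _ => ?_
    rw [zsmul_eq_mul]

/-- `V h b` is the sum of the `W h ξ b`, over finitely many `ξ`.

Proof. `V h b = ∑ s, D2 s b * ∑ ξ, eta s ξ * L h s ξ`, a finite double sum (`s` in the support of
`P.D2.col b`, `ξ` in the union of the supports of `P.eta s`); exchange the sums. -/
theorem LData.V_eq (D : LData S2 χ x) (h : Hs Γ F x) (b : S1) :
    (Function.support fun ξ => D.W P h ξ b).Finite ∧ D.V P h b = ∑ᶠ ξ, D.W P h ξ b := by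
  exact swa_exch (D.L h) P.eta (P.D2.tp.row b)

end

end Q62
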