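import Pool.Agent.W_04c03c_h62s.STDef

/-!
# The decomposition of `V h`: definition
-/

namespace Q62

open MulAction

section
variable {Γ : Type} [Group Γ] {Ξ S0 S1 S2 : Type} [MulAction Γ Ξ] [MulAction Γ S0]
    [MulAction Γ S1] [MulAction Γ S2] (P : WPD Γ Ξ S0 S1 S2) {F : Type} [Field F] {χ : Γ →* Fˣ}
    {I : Type} {x : I → Ξ}

/-- `W h ξ b = ∑ s, D2 s b * eta s ξ * L h s ξ`. -/
noncomputable def LData.W (D : LData S2 χ x) (h : Hs Γ F x) (ξ : Ξ) : S1 → F :=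
  P.D2.tp.pull fun s => ((P.eta s ξ : ℤ) : F) * D.L h s ξ

end

end Q62
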